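import Pool.Agent.Lib.MP_b07157_agYV.Num

/-!
# Weighted tangent cones: definitions

`a` are the weights of the `n + 1` variables, `D` is the least weight of the terms of `f`. The chart
at a critical point `q`, `q_{j₀} = 1`, of the part of weight `D` is
`x_i = x_0^(a_i) (q_i + x_l)`, `x_{j₀} = x_0^(a_{j₀})`.
-/

noncomputable section

namespace MPb07157

open MvPolynomial

namespace YW

open YV

variable {n : ℕ}

/-- The action of `ℂ^*`. -/
def sc (a : Fin n → ℕ) (t : ℂ) (c : Fin n → ℂ) : Fin n → ℂ := fun i => t ^ a i * c i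

/-- The orbit of `q`. -/
def orb (a : Fin n → ℕ) (q : Fin n → ℂ) : Set (Fin n → ℂ) := {c | ∃ t : ℂ, t ≠ 0 ∧ c = sc a t q}

/-- The isotropy group of `q` is trivial. -/
def Free (a : Fin n → ℕ) (q : Fin n → ℂ) : Prop := ∀ m : ℕ, (∀ i, q i ≠ 0 → m ∣ a i) → m = 1

/-- The part of weight `D`. -/
def LF (f : MvPolynomial (Fin n) ℂ) (a : Fin n → ℕ) (D : ℕ) : MvPolynomial (Fin n) ℂ :=
  inForm f (face f a D)

/-- The part of the least weight `D` of `f` has finitely many critical orbits, with trivial isotropy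
groups. -/
structure WC (f : MvPolynomial (Fin n) ℂ) (a : Fin n → ℕ) (D : ℕ) : Prop where
  ha : ∀ i, 0 < a i
  haD : ∀ i, a i < D
  hD : 0 < D
  low : ∀ v ∈ f.support, D ≤ MPb07157.wt a v
  ne : LF f a D ≠ 0
  fin : ∃ P : Finset (Fin n → ℂ), ∀ q, q ≠ 0 → (∀ j, eval q (pderiv j (LF f a D)) = 0) →
    ∃ p ∈ P, ∃ t : ℂ, q = sc a t p
  free : ∀ q, q ≠ 0 → (∀ j, eval q (pderiv j (LF f a D)) = 0) → Free a q

/-- As `WC`, without the condition that there are finitely many critical orbits. -/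
structure WC0 (f : MvPolynomial (Fin n) ℂ) (a : Fin n → ℕ) (D : ℕ) : Prop where
  ha : ∀ i, 0 < a i
  haD : ∀ i, a i < D
  hD : 0 < D
  low : ∀ v ∈ f.support, D ≤ MPb07157.wt a v
  ne : LF f a D ≠ 0
  free : ∀ q, q ≠ 0 → (∀ j, eval q (pderiv j (LF f a D)) = 0) → Free a q

theorem WC.toWC0 {f : MvPolynomial (Fin n) ℂ} {a : Fin n → ℕ} {D : ℕ} (H : WC f a D) :
    WC0 f a D := ⟨H.ha, H.haD, H.hD, H.low, H.ne, H.free⟩

/-- The chart at `q`, `q_{j₀} = 1`. -/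
def chW {n : ℕ} (a : Fin (n + 1) → ℕ) (q : Fin (n + 1) → ℂ) (j₀ : Fin (n + 1)) :
    Fin (n + 1) → MvPolynomial (Fin (n + 1)) ℂ := fun i =>
  X 0 ^ a i * j₀.insertNth (α := fun _ => MvPolynomial (Fin (n + 1)) ℂ) 1
    (fun l : Fin n => X l.succ + C (q (j₀.succAbove l))) i

/-- The measure of the arcs `x` with `ord x_j ≥ a_j k`, leading coefficients in the orbit of `q`,
and `ord f = m`. -/
def orbM (f : MvPolynomial (Fin n) ℂ) (a : Fin n → ℕ) (L k m : ℕ) (q : Fin n → ℂ) : Mot :=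
  ↑((LU ^ (n * (L + 1)))⁻¹) *
    clsM (arcs f (L + 1) m ∩ Sq.LA (L + 1) (fun j => a j * k) (orb a q))

/-- The series of the orbit of `q`. -/
def orbSer (f : MvPolynomial (Fin n) ℂ) (a : Fin n → ℕ) (D : ℕ) (q : Fin n → ℂ) :
    PowerSeries Mot :=
  PowerSeries.mk fun m => ∑ k ∈ Finset.Icc 1 m, if D * k ≤ m then orbM f a m k m q else 0

/-- The series of the pair `(x_0^D h, x_0^c)`. -/
def relSer (h : MvPolynomial (Fin (n + 1)) ℂ) (c D : ℕ) : PowerSeries Mot :=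
  PowerSeries.mk fun m => ∑ k ∈ Finset.Icc 1 m,
    if D * k ≤ m then li ^ (c * k) * YG.AKm h m k (m - D * k) else 0

/-- The leading coefficients at which the part of weight `D` is smooth. -/
def UW (f : MvPolynomial (Fin n) ℂ) (a : Fin n → ℕ) (D p : ℕ) : Set (Fin n → ℂ) :=
  {c | c ∈ Sq.Ud (Sq.dP a p) ∧
    ∃ j, eval (Sq.pr (Sq.dP a p) c) (pderiv j (LF f a D)) ≠ 0}

/-- The measures of the arcs of weighted order `p` with these leading coefficients. -/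
def aW (f : MvPolynomial (Fin n) ℂ) (a : Fin n → ℕ) (D p m : ℕ) : Mot :=
  Sq.aP f (Sq.rP a p) (Sq.MP a D p) (UW f a D p) m

/-- A chart `x ↦ ξ(x)` in which `f = x_0^D G U`, with the Jacobian determinant `x_0^c` times a
unit. -/
structure IsChartW {n : ℕ} (f : MvPolynomial (Fin (n + 1)) ℂ) (D c : ℕ)
    (G : MvPolynomial (Fin (n + 1)) ℂ)
    (ξ : Fin (n + 1) → MvPowerSeries (Fin (n + 1)) ℂ) (U J : MvPowerSeries (Fin (n + 1)) ℂ) :
    Prop where
  hU : MvPowerSeries.constantCoeff U ≠ 0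
  hJ : MvPowerSeries.constantCoeff J ≠ 0
  hξ : ∀ i, MvPowerSeries.constantCoeff (ξ i) = 0
  hf : (MvPowerSeries.subst ξ
    (f : MvPowerSeries (Fin (n + 1)) ℂ) : MvPowerSeries (Fin (n + 1)) ℂ) =
      MvPowerSeries.X 0 ^ D * ((G : MvPowerSeries (Fin (n + 1)) ℂ) * U)
  hdet : (Matrix.of fun i j : Fin (n + 1) => MvPowerSeries.pderiv ℂ j (ξ i)).det =
      MvPowerSeries.X 0 ^ c * J

/-- The numerator `(c + 1) w_0 + ∑_{j ≥ 1} w_j`. -/
def nuc {n : ℕ} (c : ℕ) (w : Fin (n + 1) → ℕ) : ℕ := (c + 1) * w 0 + ∑ j : Fin n, w j.succ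

end YW

end MPb07157
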