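import Pool.Agent.Lib.MP_b07157_agYL.Beta

/-!
# The form `T^{c + ds} (1 + T^e)^s dT` is not exact
-/

noncomputable section

namespace MPb07157

namespace YW

namespace BtW

open Polynomial

/-- The coefficients of the reduced equation. -/
theorem coeff_eq {d e b : ℕ} {s : ℂ} {P : ℂ[X]}
    (hE : X * (1 + X ^ e) * derivative P + (C (e : ℂ) * X ^ e +
      C s * (C (d : ℂ) + C ((d : ℂ) + e) * X ^ e)) * P = X ^ b) (k : ℕ) :
    ((k : ℂ) + s * d) * P.coeff k +
      (if e ≤ k then ((k : ℂ) + s * (d + e)) * P.coeff (k - e) else 0) = if k = b then 1 else 0 := by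
  have h1 : (X : ℂ[X]) * derivative P + X ^ e * (X * derivative P) + C (s * d) * P +
      X ^ e * (C (e + s * (d + e)) * P) = X ^ b := by
    rw [← hE]
    simp only [map_mul, map_add]
    ring
  have hX : ∀ j : ℕ, ((X : ℂ[X]) * derivative P).coeff j = (j : ℂ) * P.coeff j := by
    intro j
    rcases j with _ | j
    · rw [coeff_X_mul_zero, Nat.cast_zero, zero_mul]
    · rw [coeff_X_mul, coeff_derivative, Nat.cast_add, Nat.cast_one, mul_comm]
  have h2 := congrArg (fun p => coeff p k) h1
  simp only [coeff_add, coeff_X_pow_mul', coeff_C_mul, hX, coeff_X_pow] at h2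
  rw [← h2]
  by_cases hk : e ≤ k
  · simp only [if_pos hk]
    rw [Nat.cast_sub hk]
    ring
  · simp only [if_neg hk]
    ring

/-- There is no polynomial solution. -/
theorem no_poly {d e c : ℕ} (hd : 0 < d) (he : 0 < e) (hc : c + 1 ≤ d + e) {s : ℚ}
    (h1 : -(e : ℚ) < ((d : ℚ) + e) * s + (c + 1 : ℕ)) (h2 : ((d : ℚ) + e) * s + (c + 1 : ℕ) < 0)
    {P : ℂ[X]}
    (hE : X * (1 + X ^ e) * derivative P + (C (e : ℂ) * X ^ e +
      C (s : ℂ) * (C (d : ℂ) + C ((d : ℂ) + e) * X ^ e)) * P = X ^ (c + 1)) : False := by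
  classical
  set b := c + 1 with hb
  have hdQ : (0 : ℚ) < d := by exact_mod_cast hd
  have heQ : (0 : ℚ) < e := by exact_mod_cast he
  have hbQ : (b : ℚ) ≤ (d : ℚ) + e := by exact_mod_cast hc
  set S : Finset ℕ := P.support.filter (fun k => k % e = b % e) with hS
  have hmem : ∀ k, k ∈ S ↔ P.coeff k ≠ 0 ∧ k % e = b % e := by
    intro k
    rw [hS, Finset.mem_filter, mem_support_iff]
  have hne : S.Nonempty := by
    have e0 := coeff_eq hE b
    rw [if_pos rfl] at e0
    by_cases hpb : P.coeff b = 0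
    · rw [hpb, mul_zero, zero_add] at e0
      by_cases heb : e ≤ b
      · rw [if_pos heb] at e0
        refine ⟨b - e, (hmem _).2 ⟨?_, ?_⟩⟩
        · intro h
          rw [h, mul_zero] at e0
          exact zero_ne_one e0
        · conv_rhs => rw [← Nat.sub_add_cancel heb]
          rw [Nat.add_mod_right]
      · rw [if_neg heb] at e0
        exact absurd e0 zero_ne_one
    · exact ⟨b, (hmem _).2 ⟨hpb, rfl⟩⟩
  obtain ⟨hpM, hMb⟩ := (hmem _).1 (S.max'_mem hne)
  obtain ⟨hpm, hmb⟩ := (hmem _).1 (S.min'_mem hne)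
  have hmM : S.min' hne ≤ S.max' hne := S.min'_le _ (S.max'_mem hne)
  have hMmax : ∀ k, k ∈ S → k ≤ S.max' hne := fun k hk => S.le_max' k hk
  have hmmin : ∀ k, k ∈ S → S.min' hne ≤ k := fun k hk => S.min'_le k hk
  generalize S.max' hne = M at *
  generalize S.min' hne = m at *
  -- the largest exponent
  have e1 := coeff_eq hE (M + e)
  have hz1 : P.coeff (M + e) = 0 := by
    by_contra hcon
    have h3 := hMmax _ ((hmem _).2 ⟨hcon, by rw [Nat.add_mod_right]; exact hMb⟩)
    omega
  rw [hz1, mul_zero, zero_add, if_pos (Nat.le_add_left e M), Nat.add_sub_cancel] at e1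
  have hM : M + e = b := by
    by_contra hcon
    rw [if_neg hcon] at e1
    have h3 := (mul_eq_zero.1 e1).resolve_right hpM
    have h4 : ((((M + e : ℕ) : ℚ) + s * (d + e) : ℚ) : ℂ) = 0 := by
      push_cast at h3 ⊢
      exact h3
    have h5 : ((M + e : ℕ) : ℚ) + s * (d + e) = 0 := by exact_mod_cast h4
    have h6 : (b : ℚ) < ((M + e : ℕ) : ℚ) := by linarith
    have h7 : ((M + e : ℕ) : ℚ) < (b : ℚ) + e := by linarith
    have h8 : b < M + e := by exact_mod_cast h6
    have h9 : M < b := by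
      have : M + e < b + e := by exact_mod_cast h7
      omega
    -- `M + e` and `b` are congruent modulo `e`, and `b < M + e < b + e`
    have h10 : (M + e) % e = b % e := by
      rw [Nat.add_mod_right]
      exact hMb
    have h11 : e ∣ (M + e) - b := (Nat.modEq_iff_dvd' h8.le).1 h10.symm
    have h12 := Nat.le_of_dvd (by omega) h11
    omega
  -- the smallest exponent
  have e2 := coeff_eq hE m
  have hz : (if e ≤ m then ((m : ℂ) + (s : ℂ) * (d + e)) * P.coeff (m - e) else 0) = 0 := by
    split_ifs with h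
    · have h3 : P.coeff (m - e) = 0 := by
        by_contra hcon
        have h4 : (m - e) % e = b % e := by
          rw [← hmb]
          conv_rhs => rw [← Nat.sub_add_cancel h]
          rw [Nat.add_mod_right]
        have h5 := hmmin _ ((hmem _).2 ⟨hcon, h4⟩)
        omega
      rw [h3, mul_zero]
    · rfl
  rw [hz, add_zero, if_neg (by omega)] at e2
  have c2 : (m : ℚ) = -(s * d) := by
    have h3 := (mul_eq_zero.1 e2).resolve_right hpm
    have h4 : (((m : ℚ) + s * d : ℚ) : ℂ) = 0 := by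
      push_cast
      exact h3
    have h5 : (m : ℚ) + s * d = 0 := by exact_mod_cast h4
    linarith
  have hmb2 : (m : ℚ) ≤ (b : ℚ) - e := by
    have h3 : m + e ≤ b := by omega
    have h4 : (m : ℚ) + e ≤ b := by exact_mod_cast h3
    linarith
  -- `b d < m (d + e) ≤ (b - e) (d + e)`
  have h4 : (b : ℚ) * d < m * (d + e) := by
    have h5 : (((d : ℚ) + e) * s + (b : ℚ)) * d < 0 := mul_neg_of_neg_of_pos h2 hdQ
    have h6 : (((d : ℚ) + e) * s + (b : ℚ)) * d = -(m * (d + e)) + b * d := by
      rw [c2]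
      ring
    linarith
  have h5 : (m : ℚ) * (d + e) ≤ ((b : ℚ) - e) * (d + e) :=
    mul_le_mul_of_nonneg_right hmb2 (by positivity)
  have h6 : 0 < (e : ℚ) * ((b : ℚ) - (d + e)) := by nlinarith
  have h7 : (e : ℚ) * ((b : ℚ) - (d + e)) ≤ 0 :=
    mul_nonpos_of_nonneg_of_nonpos heQ.le (by linarith)
  linarith

end BtW

/-- The form `T^{c + ds} (1 + T^e)^s dT` is not exact, for `-1 < (c + 1 + (d + e) s) / e < 0`,
`c + 1 ≤ d + e`.

Proof: reduction to a polynomial solution `P` of
`X (1 + X^e) P' + (e X^e + s (d + (d + e) X^e)) P = X^b`, `b = c + 1`, as in `YL.not_exact_beta`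
(`agYL/Beta.lean`). The coefficients: `(k + s d) p_k + (k + s (d + e)) p_(k - e) = δ_(k,b)`. Look at
the `k ≡ b (mod e)`: not all of these `p_k` are zero. Let `M` be the largest, `m` the least `k ≡ b`
with `p_k ≠ 0`. At `k = M + e`: `M + e = b` or `M + e = -s (d + e)`; the latter is strictly between
`b` and `b + e` and `≡ b (mod e)`, impossible. So `M = b - e`, `m ≤ M < b`, and at `k = m`:
`m = -s d`. Hence `b < -s (d + e)`, `-s d ≤ b - e`, and so `b d < (b - e) (d + e)`, `b > d + e`. -/
theorem not_exact_betaW {δ : Derivation ℂ (RatFunc ℂ) (RatFunc ℂ)}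
    (hδ : ∀ P : Polynomial ℂ, δ (algebraMap (Polynomial ℂ) (RatFunc ℂ) P) =
      algebraMap (Polynomial ℂ) (RatFunc ℂ) (Polynomial.derivative P))
    {d e c : ℕ} (hd : 0 < d) (he : 0 < e) (hc : c + 1 ≤ d + e) {s : ℚ}
    (h1 : -1 < (((d : ℚ) + e) * s + (c + 1 : ℕ)) / e)
    (h2 : (((d : ℚ) + e) * s + (c + 1 : ℕ)) / e < 0) :
    ¬ ∃ r : RatFunc ℂ, (RatFunc.X : RatFunc ℂ) ^ c = δ r + algebraMap ℂ (RatFunc ℂ) (s : ℂ) *
      (((RatFunc.X : RatFunc ℂ) ^ d * (1 + RatFunc.X ^ e))⁻¹ *
        δ ((RatFunc.X : RatFunc ℂ) ^ d * (1 + RatFunc.X ^ e))) * r := by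
  classical
  rintro ⟨r, hr⟩
  have heQ : (0 : ℚ) < e := by exact_mod_cast he
  have hdQ : (0 : ℚ) < d := by exact_mod_cast hd
  have h1' : -(e : ℚ) < ((d : ℚ) + e) * s + (c + 1 : ℕ) := by
    rw [lt_div_iff₀ heQ] at h1
    linarith
  have h2' : ((d : ℚ) + e) * s + (c + 1 : ℕ) < 0 := by
    rw [div_lt_iff₀ heQ, zero_mul] at h2
    exact h2
  have hsneg : s < 0 := by
    by_contra hcon
    push Not at hcon
    have h3 : (0 : ℚ) ≤ ((d : ℚ) + e) * s := by positivity
    have h4 : (0 : ℚ) ≤ ((c + 1 : ℕ) : ℚ) := Nat.cast_nonneg _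
    linarith
  set φ := algebraMap (Polynomial ℂ) (RatFunc ℂ) with hφ
  have hinj : Function.Injective φ := RatFunc.algebraMap_injective ℂ
  have hne : ∀ {p : Polynomial ℂ}, p ≠ 0 → φ p ≠ 0 := fun hp h =>
    hp ((map_eq_zero_iff _ hinj).1 h)
  set g : Polynomial ℂ := Polynomial.X ^ d * (1 + Polynomial.X ^ e) with hg
  set L : Polynomial ℂ := Polynomial.C (d : ℂ) * (1 + Polynomial.X ^ e) +
    Polynomial.C (e : ℂ) * Polynomial.X ^ e with hL
  set G : Polynomial ℂ := Polynomial.X * (1 + Polynomial.X ^ e) with hG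
  have hM0 : (1 + Polynomial.X ^ e : Polynomial ℂ) ≠ 0 := by
    intro h
    have h3 := congrArg (Polynomial.eval 0) h
    rw [Polynomial.eval_add, Polynomial.eval_one, Polynomial.eval_pow, Polynomial.eval_X,
      zero_pow he.ne', add_zero, Polynomial.eval_zero] at h3
    exact one_ne_zero h3
  have hG0 : G ≠ 0 := mul_ne_zero Polynomial.X_ne_zero hM0
  have hg0 : g ≠ 0 := mul_ne_zero (pow_ne_zero _ Polynomial.X_ne_zero) hM0
  have hgφ : (RatFunc.X : RatFunc ℂ) ^ d * (1 + RatFunc.X ^ e) = φ g := by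
    rw [hg, map_mul, map_pow, map_add, map_one, map_pow, hφ, RatFunc.algebraMap_X]
  have hXd : Polynomial.X * Polynomial.derivative (Polynomial.X ^ d : Polynomial ℂ) =
      Polynomial.C (d : ℂ) * Polynomial.X ^ d := by
    obtain ⟨k, rfl⟩ := Nat.exists_eq_succ_of_ne_zero (show d ≠ 0 by omega)
    rw [Polynomial.derivative_X_pow, Nat.succ_eq_add_one, Nat.add_sub_cancel]
    ring
  have hXe : Polynomial.X * Polynomial.derivative (Polynomial.X ^ e : Polynomial ℂ) =
      Polynomial.C (e : ℂ) * Polynomial.X ^ e := by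
    obtain ⟨k, rfl⟩ := Nat.exists_eq_succ_of_ne_zero he.ne'
    rw [Polynomial.derivative_X_pow, Nat.succ_eq_add_one, Nat.add_sub_cancel]
    ring
  have hgd : G * Polynomial.derivative g = L * g := by
    rw [hg, hG, hL, Polynomial.derivative_mul, Polynomial.derivative_add,
      Polynomial.derivative_one, zero_add]
    linear_combination (1 + Polynomial.X ^ e) * (1 + Polynomial.X ^ e) * hXd +
      (1 + Polynomial.X ^ e) * Polynomial.X ^ d * hXe
  have hfd : φ G * ((φ g)⁻¹ * δ (φ g)) = φ L := by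
    have h3 : φ G * φ (Polynomial.derivative g) = φ L * φ g := by
      rw [← map_mul, hgd, map_mul]
    rw [hδ, mul_left_comm, h3, mul_left_comm, inv_mul_cancel₀ (hne hg0), mul_one]
  have hsφ : algebraMap ℂ (RatFunc ℂ) (s : ℂ) = φ (Polynomial.C (s : ℂ)) := rfl
  rw [hgφ] at hr
  have hX2 : (RatFunc.X : RatFunc ℂ) ^ c = φ (Polynomial.X ^ c) := by
    rw [map_pow, hφ, RatFunc.algebraMap_X]
  rw [hX2] at hr
  have hred : φ (Polynomial.X ^ c) * φ G = φ G * δ r + φ (Polynomial.C (s : ℂ) * L) * r := by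
    rw [map_mul φ (Polynomial.C (s : ℂ)), ← hsφ]
    linear_combination (φ G) * hr + algebraMap ℂ (RatFunc ℂ) (s : ℂ) * r * hfd
  set P := r.num with hP
  set Q := r.denom with hQ
  have hQ0 : Q ≠ 0 := r.denom_ne_zero
  have hPQ : φ P = r * φ Q := by
    rw [hP, hQ, hφ]
    exact ((div_eq_iff (hne r.denom_ne_zero)).1 r.num_div_denom)
  have hdr : δ r * φ Q ^ 2 = φ (Polynomial.derivative P * Q - P * Polynomial.derivative Q) := by
    have h5 := congrArg δ hPQ
    rw [Derivation.leibniz, hδ, hδ, smul_eq_mul, smul_eq_mul] at h5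
    rw [map_sub, map_mul, map_mul, h5, hPQ]
    ring
  have hE : G * (Polynomial.derivative P * Q - P * Polynomial.derivative Q) +
      (Polynomial.C (s : ℂ) * L) * P * Q = (Polynomial.X ^ c * G) * Q ^ 2 := by
    apply hinj
    rw [map_add, map_mul φ G, ← hdr, map_mul φ (Polynomial.X ^ c * G) (Q ^ 2), map_pow,
      map_mul φ _ G, hred, map_mul φ _ Q, map_mul φ _ P, hPQ]
    ring
  have hQd : Q.natDegree = 0 := by
    refine PC.natDegree_den _ _ P Q _ r.isCoprime_num_denom hQ0 hE ?_
    intro a ha k hk hak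
    have hkQ : (0 : ℚ) < k := by exact_mod_cast hk
    have hder : Polynomial.eval a (Polynomial.derivative G) =
        (1 + a ^ e) + a * Polynomial.eval a (Polynomial.derivative (Polynomial.X ^ e)) := by
      rw [hG, Polynomial.derivative_mul, Polynomial.derivative_X, Polynomial.derivative_add,
        Polynomial.derivative_one, zero_add]
      simp
    have hder2 := congrArg (Polynomial.eval a) hXe
    rw [Polynomial.eval_mul, Polynomial.eval_X, Polynomial.eval_mul, Polynomial.eval_C,
      Polynomial.eval_pow, Polynomial.eval_X] at hder2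
    rw [hder, hder2] at hak
    rw [hG, Polynomial.eval_mul, Polynomial.eval_X, Polynomial.eval_add, Polynomial.eval_one,
      Polynomial.eval_pow, Polynomial.eval_X] at ha
    rw [hL, Polynomial.eval_mul, Polynomial.eval_C, Polynomial.eval_add, Polynomial.eval_mul,
      Polynomial.eval_mul, Polynomial.eval_C, Polynomial.eval_C, Polynomial.eval_add,
      Polynomial.eval_one, Polynomial.eval_pow, Polynomial.eval_X] at hak
    rcases mul_eq_zero.1 ha with h | h
    · rw [h, zero_pow he.ne'] at hak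
      have h5 : (s : ℂ) * d = k := by linear_combination hak
      have h6 : s * (d : ℚ) = k := by exact_mod_cast h5
      nlinarith
    · have h7 : a ^ e = -1 := by linear_combination h
      rw [h7] at hak
      have h5 : (s : ℂ) * e = (k : ℂ) * e := by linear_combination -hak
      have h6 : s * (e : ℚ) = k * e := by exact_mod_cast h5
      have h8 : s = k := mul_right_cancel₀ heQ.ne' h6
      linarith
  have hQ1 : Q = 1 := Polynomial.eq_one_of_monic_natDegree_zero (RatFunc.monic_denom r) hQd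
  rw [hQ1, Polynomial.derivative_one, mul_zero, sub_zero, mul_one, mul_one, one_pow, mul_one] at hE
  -- divisibility by `1 + X^e`
  have hdvd : (1 + Polynomial.X ^ e : Polynomial ℂ) ∣ P := by
    have h3 : (1 + Polynomial.X ^ e : Polynomial ℂ) ∣ Polynomial.C ((s : ℂ) * e) * P := by
      have h4 : Polynomial.C ((s : ℂ) * e) * P = (1 + Polynomial.X ^ e) *
          (Polynomial.X * Polynomial.derivative P + Polynomial.C (s : ℂ) *
            (Polynomial.C (d : ℂ) + Polynomial.C (e : ℂ)) * P -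
              Polynomial.X ^ (c + 1)) := by
        rw [map_mul]
        rw [hG, hL] at hE
        linear_combination -hE
      rw [h4]
      exact dvd_mul_right _ _
    have hse : (s : ℂ) * e ≠ 0 := by
      refine mul_ne_zero (by exact_mod_cast hsneg.ne) (by exact_mod_cast he.ne')
    have h5 : Polynomial.C (((s : ℂ) * e)⁻¹) * (Polynomial.C ((s : ℂ) * e) * P) = P := by
      rw [← mul_assoc, ← map_mul, inv_mul_cancel₀ hse, map_one, one_mul]
    rw [← h5]
    exact h3.mul_left _
  obtain ⟨P1, hP1⟩ := hdvd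
  refine BtW.no_poly hd he hc h1' h2' (P := P1) ?_
  apply mul_left_cancel₀ hM0
  rw [hP1, Polynomial.derivative_mul, Polynomial.derivative_add, Polynomial.derivative_one,
    zero_add, hG, hL] at hE
  rw [map_add]
  linear_combination hE - (1 + Polynomial.X ^ e) * P1 * hXe

end YW

end MPb07157
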