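import Pool.Agent.Lib.MP_b07157_agYW.Defs
import Pool.Agent.Lib.MP_b07157_agYL.ResE
import Pool.Agent.Lib.MP_b07157_agYV.ResV

/-!
# The residue lemma along a branch, in the chart
-/

noncomputable section

namespace MPb07157

open MvPolynomial TensorProduct

namespace YW

open SI YL

variable {K : Type} [Field K] [Algebra ℂ K] {K' : Type} [CommRing K'] [Algebra ℂ K']
  {B : Type} [Field B] [Algebra ℂ B]

namespace ResCA

/-- The images of the chart variables. -/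
def zW (i : K →ₐ[ℂ] K') {e : ℕ} (he : e ≠ 0) (w : K') (T : B) (N : ℕ) (Θ : Fin 2 → PowerSeries K) :
    Fin 3 → MvPowerSeries Unit (K' ⊗[ℂ] B) :=
  Fin.cons (ucE w T N) fun j => iS B (eE i he (Θ j))

theorem zW_zero (i : K →ₐ[ℂ] K') {e : ℕ} (he : e ≠ 0) (w : K') (T : B) {N : ℕ} (hN : 0 < N)
    {Θ : Fin 2 → PowerSeries K} (h0 : ∀ i, PowerSeries.constantCoeff (Θ i) = 0) (j : Fin 3) :
    MvPowerSeries.constantCoeff (zW i he w T N Θ j) = 0 := by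
  refine Fin.cases ?_ (fun j => ?_) j
  · show MvPowerSeries.constantCoeff (ucE w T N) = 0
    unfold ucE
    rw [map_mul, map_pow, MvPowerSeries.constantCoeff_X, zero_pow hN.ne', mul_zero]
  · show MvPowerSeries.constantCoeff (iS B (eE i he (Θ j))) = 0
    have h1 := constantCoeff_eE i he (h0 j)
    rw [← MvPowerSeries.coeff_zero_eq_constantCoeff_apply, coeff_iS]
    have h2 : MvPowerSeries.coeff 0 (eE i he (Θ j)) = 0 := by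
      rw [MvPowerSeries.coeff_zero_eq_constantCoeff_apply]
      exact h1
    rw [h2, TensorProduct.zero_tmul]

/-- The image of `g(y) + x_0^e`. -/
theorem aeval_zW (i : K →ₐ[ℂ] K') {e : ℕ} (he : 0 < e) {f₀ : K} {w : K'} (hw : w ^ e = i f₀)
    (T : B) (N : ℕ) {Θ : Fin 2 → PowerSeries K} {g : MvPolynomial (Fin 2) ℂ} {F₁ : PowerSeries K}
    (hF : (MvPowerSeries.subst (Θ : Fin 2 → MvPowerSeries Unit K)
      (g : MvPowerSeries (Fin 2) ℂ) : PowerSeries K) =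
      PowerSeries.X ^ N * (PowerSeries.C f₀ + PowerSeries.X * F₁)) :
    aeval (zW i he.ne' w T N Θ) (rename Fin.succ g + X 0 ^ e) =
      MvPowerSeries.X () ^ (N * e) * (MvPowerSeries.C (i f₀ ⊗ₜ[ℂ] (1 : B)) +
        MvPowerSeries.X () ^ e * iS B (eE i he.ne' F₁) +
        MvPowerSeries.C (i f₀ ⊗ₜ[ℂ] (T ^ e))) := by
  have h1 : aeval (zW i he.ne' w T N Θ) (rename Fin.succ g) =
      iS B (eE i he.ne' (MvPowerSeries.subst (Θ : Fin 2 → MvPowerSeries Unit K)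
        (g : MvPowerSeries (Fin 2) ℂ) : PowerSeries K)) := by
    rw [aeval_rename, ← subst_eE]
    have h2 : (MvPowerSeries.subst ((fun j => eE i he.ne' (Θ j)) : Fin 2 → MvPowerSeries Unit K')
        (g : MvPowerSeries (Fin 2) ℂ) : PowerSeries K') =
        (aeval (fun j => eE i he.ne' (Θ j)) g : PowerSeries K') :=
      MvPowerSeries.subst_coe _
    rw [h2, ← AlgHom.comp_apply, comp_aeval]
    rfl
  have h3 : zW i he.ne' w T N Θ 0 = MvPowerSeries.C (w ⊗ₜ[ℂ] T) * MvPowerSeries.X () ^ N := rfl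
  have h4 : (MvPowerSeries.C (w ⊗ₜ[ℂ] T) : MvPowerSeries Unit (K' ⊗[ℂ] B)) ^ e =
      MvPowerSeries.C (i f₀ ⊗ₜ[ℂ] (T ^ e)) := by
    rw [← map_pow, Algebra.TensorProduct.tmul_pow, hw]
  rw [map_add, h1, hF, map_pow, aeval_X, h3, mul_pow, h4, map_mul, map_mul, map_pow, map_pow,
    map_add, map_add, map_mul, map_mul, eE_X, eE_C, map_pow, iS_X, iS_C, ← pow_mul, ← pow_mul,
    mul_comm e N]
  ring

end ResCA

open ResCA YG.ResNA in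
/-- **The residue lemma in the chart.** As `YL.residue_chart_e` (`agYL/ResE.lean`), with a chart
`ξ` (`IsChartW`), `G = g(y) + x_0^e`: the substitution is `ξ(u, y)`, `u = t^N w T` (`ucE`),
`y = Θ(t^e)` (`eE`), `w^e = f₀`; `f = u^D (g(y) + u^e) U(u, y)`, the Jacobian determinant is
`u^c J(u, y)` times the one of `(u, y)` (`YG.ResNA.det_ps`, as in `YV.residueV`,
`agYV/ResV.lean`). -/
theorem residue_chart_W {f : MvPolynomial (Fin 3) ℂ} {D c e : ℕ} (he : 0 < e)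
    {g : MvPolynomial (Fin 2) ℂ} {ξ : Fin 3 → MvPowerSeries (Fin 3) ℂ}
    {U J : MvPowerSeries (Fin 3) ℂ}
    (hc : IsChartW (n := 2) f D c (rename Fin.succ g + X 0 ^ e) ξ U J) {s : ℂ} {ν N : ℕ}
    (hN : 0 < N) (hν : 0 < ν)
    (hs : ((c : ℂ) + 1) + ((D : ℂ) + e) * s = -((e : ℂ) * ν / N))
    {b : Polynomial ℂ} (hb : InPs (f : MvPowerSeries (Fin 3) ℂ) 1
      (b.map (MvPowerSeries.C (σ := Fin 3) (R := ℂ)))) (hb0 : b.eval s ≠ 0)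
    (i : K →ₐ[ℂ] K') (δ : Derivation ℂ K K) (δ₁ : Derivation ℂ K' K')
    (hδ : ∀ a, δ₁ (i a) = i (δ a)) {J₀ f₀ : K} (w : K'ˣ) (hw : (w : K') ^ e = i f₀)
    (δ' : Derivation ℂ B B) {T : B} (hT : T ≠ 0) (hT1 : 1 + T ^ e ≠ 0)
    (hδT : δ' T = 1) {Θ : Fin 2 → PowerSeries K} (h0 : ∀ i, PowerSeries.constantCoeff (Θ i) = 0)
    {J₁ F₁ : PowerSeries K}
    (hJ : PC.jacK δ Θ = PowerSeries.X ^ (ν - 1) * (PowerSeries.C J₀ + PowerSeries.X * J₁))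
    (hF : (MvPowerSeries.subst (Θ : Fin 2 → MvPowerSeries Unit K)
      (g : MvPowerSeries (Fin 2) ℂ) : PowerSeries K) =
      PowerSeries.X ^ N * (PowerSeries.C f₀ + PowerSeries.X * F₁)) :
    ∃ r₀ r₁ : K' ⊗[ℂ] B, ((w : K') ^ (c + 1) * i J₀) ⊗ₜ (T ^ c) =
      dL δ₁ r₀ + ((algebraMap ℂ K' s * (((w⁻¹ : K'ˣ) : K') ^ (D + e) *
        δ₁ ((w : K') ^ (D + e)))) ⊗ₜ[ℂ] (1 : B)) * r₀ +
      (dR δ' r₁ + ((1 : K') ⊗ₜ[ℂ] (algebraMap ℂ B s *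
        ((T ^ D * (1 + T ^ e))⁻¹ * δ' (T ^ D * (1 + T ^ e))))) * r₁) := by
  classical
  have hz := zW_zero (B := B) i he.ne' (w : K') T hN h0
  set X' : MvPowerSeries Unit (K' ⊗[ℂ] B) := MvPowerSeries.X () with hX'
  obtain ⟨a, ha⟩ : ∃ a : K' ⊗[ℂ] B, a = (w : K') ⊗ₜ[ℂ] T := ⟨_, rfl⟩
  have hz0 : zW i he.ne' (w : K') T N Θ 0 = MvPowerSeries.C a * X' ^ N := by
    rw [ha]
    rfl
  have hps0 : ps hz (MvPowerSeries.X 0) = MvPowerSeries.C a * X' ^ N := by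
    rw [← hz0]
    exact ps_X hz 0
  have hX0 : ∀ l, MvPowerSeries.constantCoeff (ps hz (ξ l)) = 0 := fun l => by
    rw [cc_ps, hc.hξ, map_zero]
  have hθX : ∀ l, ps hX0 (MvPowerSeries.X l) = ps hz (ξ l) := ps_X hX0
  have hθf : ps hX0 (f : MvPowerSeries (Fin 3) ℂ) =
      ps hz (MvPowerSeries.subst ξ (f : MvPowerSeries (Fin 3) ℂ)) := by
    have h1 : ps hX0 (f : MvPowerSeries (Fin 3) ℂ) = aeval (fun l => ps hz (ξ l)) f := by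
      unfold ps
      rw [MvPowerSeries.coe_substAlgHom, MvPowerSeries.subst_coe]
    rw [h1, MvPowerSeries.subst_coe]
    have h2 := comp_aeval (R := ℂ) ξ (ps hz)
    exact (DFunLike.congr_fun h2 f).symm
  have hG : ps hz ((rename Fin.succ g + X 0 ^ e : MvPolynomial (Fin 3) ℂ) :
      MvPowerSeries (Fin 3) ℂ) = X' ^ (N * e) * (MvPowerSeries.C (i f₀ ⊗ₜ[ℂ] (1 : B)) +
        X' ^ e * iS B (eE i he.ne' F₁) + MvPowerSeries.C (i f₀ ⊗ₜ[ℂ] (T ^ e))) := by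
    have h1 : ps hz ((rename Fin.succ g + X 0 ^ e : MvPolynomial (Fin 3) ℂ) :
        MvPowerSeries (Fin 3) ℂ) = aeval (zW i he.ne' (w : K') T N Θ)
          (rename Fin.succ g + X 0 ^ e) := by
      unfold ps
      rw [MvPowerSeries.coe_substAlgHom, MvPowerSeries.subst_coe]
    rw [h1, aeval_zW i he hw T N hF]
  obtain ⟨V, hV⟩ : ∃ V : MvPowerSeries Unit (K' ⊗[ℂ] B), V = MvPowerSeries.C a ^ D *
      ((MvPowerSeries.C (i f₀ ⊗ₜ[ℂ] (1 : B)) + X' ^ e * iS B (eE i he.ne' F₁) +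
        MvPowerSeries.C (i f₀ ⊗ₜ[ℂ] (T ^ e))) * ps hz U) := ⟨_, rfl⟩
  have hV1 : ps hX0 (f : MvPowerSeries (Fin 3) ℂ) =
      MvPowerSeries.monomial (Finsupp.single () (N * (D + e))) 1 * V := by
    rw [hθf, hc.hf, map_mul, map_mul, map_pow, hps0, hG, ← MvPowerSeries.X_pow_eq, ← hX', hV]
    ring
  -- the unit
  set cU : ℂ := MvPowerSeries.constantCoeff U with hcU
  set cJ : ℂ := MvPowerSeries.constantCoeff J with hcJ
  have hcU0 : cU ≠ 0 := hc.hU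
  have hcJ0 : cJ ≠ 0 := hc.hJ
  set P : B := T ^ D * (1 + T ^ e) with hP
  have hP0 : P ≠ 0 := mul_ne_zero (pow_ne_zero _ hT) hT1
  have hww : ((w : K')) ^ (D + e) * ((w⁻¹ : K'ˣ) : K') ^ (D + e) = 1 := by
    rw [← mul_pow, Units.mul_inv, one_pow]
  let φ₁ : (K' ⊗[ℂ] B)ˣ := ⟨((w : K') ^ (D + e)) ⊗ₜ[ℂ] P,
    (((w⁻¹ : K'ˣ) : K') ^ (D + e)) ⊗ₜ[ℂ] P⁻¹, by
    rw [Algebra.TensorProduct.tmul_mul_tmul, hww, mul_inv_cancel₀ hP0]; rfl, by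
    rw [Algebra.TensorProduct.tmul_mul_tmul, mul_comm (((w⁻¹ : K'ˣ) : K') ^ (D + e)), hww,
      inv_mul_cancel₀ hP0]; rfl⟩
  have hφ1 : (φ₁ : K' ⊗[ℂ] B) = ((w : K') ^ (D + e)) ⊗ₜ[ℂ] P := rfl
  have hφ2 : ((φ₁⁻¹ : (K' ⊗[ℂ] B)ˣ) : K' ⊗[ℂ] B) =
    (((w⁻¹ : K'ˣ) : K') ^ (D + e)) ⊗ₜ[ℂ] P⁻¹ := rfl
  let φ₀ : (K' ⊗[ℂ] B)ˣ := Units.map (algebraMap ℂ (K' ⊗[ℂ] B)).toMonoidHom (Units.mk0 cU hcU0)
  let φ : (K' ⊗[ℂ] B)ˣ := φ₁ * φ₀
  have hφ3 : (φ : K' ⊗[ℂ] B) = φ₁ * algebraMap ℂ (K' ⊗[ℂ] B) cU := rfl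
  have hφ : MvPowerSeries.constantCoeff V = (φ : K' ⊗[ℂ] B) := by
    rw [hV, map_mul, map_mul, map_add, map_add, map_mul, map_pow, map_pow, cc_ps,
      MvPowerSeries.constantCoeff_C, MvPowerSeries.constantCoeff_C, MvPowerSeries.constantCoeff_C,
      hX', MvPowerSeries.constantCoeff_X, zero_pow he.ne', zero_mul, add_zero, hφ3, hφ1, ha,
      Algebra.TensorProduct.tmul_pow, ← TensorProduct.tmul_add, ← hw, ← mul_assoc,
      Algebra.TensorProduct.tmul_mul_tmul, ← pow_add, ← hcU]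
  have hlog : ∀ δ : Derivation ℂ (K' ⊗[ℂ] B) (K' ⊗[ℂ] B),
      ((φ⁻¹ : (K' ⊗[ℂ] B)ˣ) : K' ⊗[ℂ] B) * δ φ =
        ((φ₁⁻¹ : (K' ⊗[ℂ] B)ˣ) : K' ⊗[ℂ] B) * δ φ₁ := by
    intro δ
    have h1 : ((φ⁻¹ : (K' ⊗[ℂ] B)ˣ) : K' ⊗[ℂ] B) = ((φ₁⁻¹ : (K' ⊗[ℂ] B)ˣ) : K' ⊗[ℂ] B) *
        ((φ₀⁻¹ : (K' ⊗[ℂ] B)ˣ) : K' ⊗[ℂ] B) := by
      have h5 : φ⁻¹ = φ₁⁻¹ * φ₀⁻¹ := _root_.mul_inv φ₁ φ₀
      rw [h5, Units.val_mul]
    have h2 : ((φ₀⁻¹ : (K' ⊗[ℂ] B)ˣ) : K' ⊗[ℂ] B) * algebraMap ℂ (K' ⊗[ℂ] B) cU = 1 :=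
      Units.inv_mul φ₀
    rw [hφ3, Derivation.leibniz, Derivation.map_algebraMap, smul_zero, zero_add, smul_eq_mul, h1]
    linear_combination (((φ₁⁻¹ : (K' ⊗[ℂ] B)ˣ) : K' ⊗[ℂ] B) * δ φ₁) * h2
  -- the derivations
  let E : Fin 2 → Derivation ℂ (K' ⊗[ℂ] B) (K' ⊗[ℂ] B) := ![dL δ₁, dR δ']
  have hE : ∀ b b' x, E b (E b' x) = E b' (E b x) := by
    intro b b' x
    fin_cases b <;> fin_cases b'
    · rfl
    · exact dL_dR δ₁ δ' x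
    · exact (dL_dR δ₁ δ' x).symm
    · rfl
  let e' : Fin 3 → Unit ⊕ Fin 2 := ![Sum.inr 1, Sum.inl (), Sum.inr 0]
  -- the Jacobian
  have hz1 : zW i he.ne' (w : K') T N Θ 1 = iS B (eE i he.ne' (Θ 0)) := rfl
  have hz2 : zW i he.ne' (w : K') T N Θ 2 = iS B (eE i he.ne' (Θ 1)) := rfl
  have hdet0 : (Matrix.of fun r j : Fin 3 => ARL.rowD E (e' r)
      (zW i he.ne' (w : K') T N Θ j)).det =
      MvPowerSeries.C ((w : K') ⊗ₜ[ℂ] (1 : B)) * X' ^ N *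
        ((e : MvPowerSeries Unit (K' ⊗[ℂ] B)) * (X' ^ e * iS B (eE i he.ne' (PC.jacK δ Θ)))) := by
    have r0 : ARL.rowD E (e' 0) = ARL.cw (dR δ') := rfl
    have r1 : ARL.rowD E (e' 1) = ARL.lg () := rfl
    have r2 : ARL.rowD E (e' 2) = ARL.cw (dL δ₁) := rfl
    have h1 := jac_iS_eE (B := B) i he.ne' hδ (Θ := Θ) (fun _ => 0)
    rw [map_zero, add_zero, add_zero] at h1
    have h2 : zW i he.ne' (w : K') T N Θ 0 = ucE (w : K') T N := rfl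
    rw [Matrix.det_fin_three]
    simp only [Matrix.of_apply]
    rw [r0, r1, r2, hz1, hz2, cw_dR_iS, cw_dR_iS, h2, cw_dR_ucE, hδT, ← hX', ← h1]
    ring
  have hdet : (ARL.jm (fun l => ARL.rowD E (e' l)) fun l => ps hX0 (MvPowerSeries.X l)).det =
      MvPowerSeries.monomial (Finsupp.single () ((c + 1) * N + e * ν)) 1 *
        (MvPowerSeries.C ((w : K') ⊗ₜ[ℂ] (1 : B)) * MvPowerSeries.C a ^ c *
          ((e : MvPowerSeries Unit (K' ⊗[ℂ] B)) * (MvPowerSeries.C (i J₀ ⊗ₜ[ℂ] (1 : B)) +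
            X' ^ e * iS B (eE i he.ne' J₁))) * ps hz J) := by
    have h1 : ps hz (MvPowerSeries.X 0 ^ c * J) = (MvPowerSeries.C a * X' ^ N) ^ c * ps hz J := by
      rw [map_mul, map_pow, hps0]
    have h2 : iS B (eE i he.ne' (PC.jacK δ Θ)) = (X' ^ e) ^ (ν - 1) *
        (MvPowerSeries.C (i J₀ ⊗ₜ[ℂ] (1 : B)) + X' ^ e * iS B (eE i he.ne' J₁)) := by
      rw [hJ, map_mul, map_mul, map_pow, map_pow, map_add, map_add, map_mul, map_mul, eE_X, eE_C,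
        map_pow, iS_X, iS_C]
    rw [funext hθX, det_ps hz, hdet0, hc.hdet, h1, h2, ← MvPowerSeries.X_pow_eq, ← hX']
    obtain ⟨m, rfl⟩ : ∃ m, ν = m + 1 := ⟨ν - 1, by omega⟩
    rw [Nat.add_sub_cancel]
    ring
  have hNC : (N : ℂ) ≠ 0 := by exact_mod_cast hN.ne'
  have hdC : ((D : ℂ) + e) ≠ 0 := by exact_mod_cast (by omega : D + e ≠ 0)
  have heC : (e : ℂ) ≠ 0 := by exact_mod_cast he.ne'
  have hs1 : s = -((((c + 1) * N + e * ν : ℕ) : ℂ) / ((N * (D + e) : ℕ) : ℂ)) := by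
    push_cast
    field_simp
    field_simp at hs
    linear_combination hs
  obtain ⟨r, hr⟩ := ARL.residue_corner (τ := Unit) (β := Fin 2) e' hE (θ := ps hX0)
    (fun l => by rw [hθX]; exact hX0 l) hV1 hφ (ν := (c + 1) * N + e * ν) (D := N * (D + e))
    (Nat.mul_pos hN (by omega)) hs1 (Mon := ∅) (M := fun _ => 0) (by simp)
    (l := fun _ => 0) hdet (fun j => by
      rw [Finsupp.single_apply, Finsupp.single_apply, if_pos (Subsingleton.elim _ _),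
        if_pos (Subsingleton.elim _ _), Finset.sum_empty, add_zero, hs1]
      push_cast
      field_simp
      ring) (j₀ := ()) (by
      rw [Finsupp.single_eq_same]; exact Nat.mul_pos hN (by omega)) (by simp) hb hb0
  -- the constant coefficient
  have hκc : ∀ x : ℂ, algebraMap ℂ (K' ⊗[ℂ] B) x = (1 : K') ⊗ₜ[ℂ] (algebraMap ℂ B x) := by
    intro x
    rw [Algebra.TensorProduct.algebraMap_apply, Algebra.algebraMap_eq_smul_one,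
      TensorProduct.smul_tmul, Algebra.algebraMap_eq_smul_one]
  have hκc' : ∀ x : ℂ, algebraMap ℂ (K' ⊗[ℂ] B) x = (algebraMap ℂ K' x) ⊗ₜ[ℂ] (1 : B) := by
    intro x
    rw [Algebra.TensorProduct.algebraMap_apply]
  have hleft : algebraMap ℂ (K' ⊗[ℂ] B) ((e * cJ)⁻¹) * MvPowerSeries.constantCoeff
        (MvPowerSeries.C ((w : K') ⊗ₜ[ℂ] (1 : B)) * MvPowerSeries.C a ^ c *
          ((e : MvPowerSeries Unit (K' ⊗[ℂ] B)) * (MvPowerSeries.C (i J₀ ⊗ₜ[ℂ] (1 : B)) +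
            X' ^ e * iS B (eE i he.ne' J₁))) * ps hz J) =
      ((w : K') ^ (c + 1) * i J₀) ⊗ₜ[ℂ] (T ^ c) := by
    have h1 : algebraMap ℂ (K' ⊗[ℂ] B) ((e * cJ)⁻¹) * ((e : K' ⊗[ℂ] B) *
        algebraMap ℂ (K' ⊗[ℂ] B) cJ) = 1 := by
      rw [← map_natCast (algebraMap ℂ (K' ⊗[ℂ] B)) e, ← map_mul, ← map_mul,
        inv_mul_cancel₀ (mul_ne_zero heC hcJ0), map_one]
    rw [map_mul, map_mul, map_mul, map_mul, map_add, map_mul, map_pow, map_pow, map_natCast,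
      MvPowerSeries.constantCoeff_C, MvPowerSeries.constantCoeff_C, MvPowerSeries.constantCoeff_C,
      hX', MvPowerSeries.constantCoeff_X, zero_pow he.ne', zero_mul, add_zero, cc_ps, ← hcJ, ha,
      Algebra.TensorProduct.tmul_pow, Algebra.TensorProduct.tmul_mul_tmul, one_mul]
    calc algebraMap ℂ (K' ⊗[ℂ] B) ((e * cJ)⁻¹) *
          (((w : K') * (w : K') ^ c) ⊗ₜ[ℂ] (T ^ c) * ((e : K' ⊗[ℂ] B) * i J₀ ⊗ₜ[ℂ] (1 : B)) *
            algebraMap ℂ (K' ⊗[ℂ] B) cJ)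
        = (algebraMap ℂ (K' ⊗[ℂ] B) ((e * cJ)⁻¹) * ((e : K' ⊗[ℂ] B) *
          algebraMap ℂ (K' ⊗[ℂ] B) cJ)) *
            (((w : K') * (w : K') ^ c) ⊗ₜ[ℂ] (T ^ c) * i J₀ ⊗ₜ[ℂ] (1 : B)) := by ring
      _ = _ := by
        rw [h1, one_mul, Algebra.TensorProduct.tmul_mul_tmul, mul_one]
        congr 1
        ring
  rw [Fin.sum_univ_two] at hr
  refine ⟨algebraMap ℂ (K' ⊗[ℂ] B) ((e * cJ)⁻¹) * r 0,
    algebraMap ℂ (K' ⊗[ℂ] B) ((e * cJ)⁻¹) * r 1, ?_⟩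
  rw [← hleft, hr, hlog, hlog]
  have e0 : E 0 = dL δ₁ := rfl
  have e1 : E 1 = dR δ' := rfl
  have g0 : ∀ x, dL δ₁ (algebraMap ℂ (K' ⊗[ℂ] B) ((e * cJ)⁻¹) * x) =
      algebraMap ℂ (K' ⊗[ℂ] B) ((e * cJ)⁻¹) * dL δ₁ x := by
    intro x
    rw [Derivation.leibniz, Derivation.map_algebraMap, smul_zero, add_zero, smul_eq_mul]
  have g1 : ∀ x, dR δ' (algebraMap ℂ (K' ⊗[ℂ] B) ((e * cJ)⁻¹) * x) =
      algebraMap ℂ (K' ⊗[ℂ] B) ((e * cJ)⁻¹) * dR δ' x := by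
    intro x
    rw [Derivation.leibniz, Derivation.map_algebraMap, smul_zero, add_zero, smul_eq_mul]
  have k0 : algebraMap ℂ (K' ⊗[ℂ] B) s * (((φ₁⁻¹ : (K' ⊗[ℂ] B)ˣ) : K' ⊗[ℂ] B) * dL δ₁ φ₁) =
      ((algebraMap ℂ K' s * (((w⁻¹ : K'ˣ) : K') ^ (D + e) *
        δ₁ ((w : K') ^ (D + e)))) ⊗ₜ[ℂ] (1 : B)) := by
    rw [hφ1, hφ2, dL_tmul, Algebra.TensorProduct.tmul_mul_tmul, inv_mul_cancel₀ hP0, hκc',
      Algebra.TensorProduct.tmul_mul_tmul, one_mul]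
  have k1 : algebraMap ℂ (K' ⊗[ℂ] B) s * (((φ₁⁻¹ : (K' ⊗[ℂ] B)ˣ) : K' ⊗[ℂ] B) * dR δ' φ₁) =
      (1 : K') ⊗ₜ[ℂ] (algebraMap ℂ B s *
        ((T ^ D * (1 + T ^ e))⁻¹ * δ' (T ^ D * (1 + T ^ e)))) := by
    rw [hφ1, hφ2, dR_tmul, Algebra.TensorProduct.tmul_mul_tmul,
      mul_comm (((w⁻¹ : K'ˣ) : K') ^ (D + e)), hww, hκc,
      Algebra.TensorProduct.tmul_mul_tmul, one_mul]
  rw [e0, e1, g0, g1, k0, k1]
  ring

end YW

end MPb07157
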