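import Pool.Agent.Lib.MP_b07157_agYL.RootExt
import Pool.Agent.Lib.MP_b07157_agYW.BetaW
import Pool.Agent.Lib.MP_b07157_agYW.ResC

/-!
# The residues at the sections, in the weighted chart
-/

noncomputable section

namespace MPb07157

open MvPolynomial TensorProduct

namespace YW

open SI YL

/-- **The residues at the sections.** As `YL.ex_gch_e` (`agYL/ExE.lean`) with `residue_chart_W`
instead of `residue_chart_e`, `not_exact_betaW` instead of `not_exact_beta`: the exponents `3` and `2`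
are replaced by `c + 1` and `c`. -/
theorem ex_W {f : MvPolynomial (Fin 3) ℂ} {D c e : ℕ} (hD : 0 < D) (he : 0 < e)
    (hcD : c + 1 ≤ D + e) {g : MvPolynomial (Fin 2) ℂ} {ξ : Fin 3 → MvPowerSeries (Fin 3) ℂ}
    {U J : MvPowerSeries (Fin 3) ℂ}
    (hc : IsChartW (n := 2) f D c (rename Fin.succ g + X 0 ^ e) ξ U J) {s₀ : ℚ}
    (h1 : -1 < (((D : ℚ) + e) * s₀ + (c + 1 : ℕ)) / e)
    (h2 : (((D : ℚ) + e) * s₀ + (c + 1 : ℕ)) / e < 0)
    {b : Polynomial ℂ} (hb : InPs (f : MvPowerSeries (Fin 3) ℂ) 1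
      (b.map (MvPowerSeries.C (σ := Fin 3) (R := ℂ)))) (hb0 : b.eval (s₀ : ℂ) ≠ 0) :
    PC.Ex (g : PC.P2) (((((D : ℚ) + e) * s₀ + (c + 1 : ℕ)) / e : ℚ) : ℂ) := by
  intro δ Θ h0 ν N hν hN hsν J₀ f₀ hf₀ J₁ F₁ hJ hF
  obtain ⟨δ', hδ'⟩ := PC.exists_deriv
  have heC : (e : ℂ) ≠ 0 := by exact_mod_cast he.ne'
  have hs' : ((c : ℂ) + 1) + ((D : ℂ) + e) * (s₀ : ℂ) = -((e : ℂ) * ν / N) := by
    have h3 : (((((D : ℚ) + e) * s₀ + (c + 1 : ℕ)) / e : ℚ) : ℂ) =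
        (((D : ℂ) + e) * (s₀ : ℂ) + ((c : ℂ) + 1)) / e := by
      push_cast
      ring
    rw [h3, div_eq_iff heC] at hsν
    rw [add_comm, hsν]
    ring
  have hT : δ' (RatFunc.X : RatFunc ℂ) = 1 := by
    have h1 := hδ' Polynomial.X
    rwa [RatFunc.algebraMap_X, Polynomial.derivative_X, map_one] at h1
  have hT0 : (RatFunc.X : RatFunc ℂ) ≠ 0 := RatFunc.X_ne_zero
  have hT1 : 1 + (RatFunc.X : RatFunc ℂ) ^ e ≠ 0 := by
    have h3 : 1 + (RatFunc.X : RatFunc ℂ) ^ e =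
        algebraMap (Polynomial ℂ) (RatFunc ℂ) (Polynomial.X ^ e + Polynomial.C 1) := by
      rw [map_add, map_pow, RatFunc.algebraMap_X, map_one, map_one, add_comm]
    rw [h3, Ne, map_eq_zero_iff _ (RatFunc.algebraMap_injective ℂ)]
    exact Polynomial.X_pow_add_C_ne_zero he 1
  obtain ⟨K', _, _, i, δ₁, w, π, hw, hδ₁, hπi, hπ1, hπδ⟩ := exists_root_ext δ hf₀ he
  obtain ⟨r₀, r₁, hr⟩ := residue_chart_W (B := RatFunc ℂ) he hc hN hν hs' hb hb0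
    i δ δ₁ hδ₁ w hw δ' hT0 hT1 hT h0 hJ hF
  obtain ⟨ψ, hψ⟩ : ∃ ψ : RatFunc ℂ, ψ = algebraMap ℂ (RatFunc ℂ) (s₀ : ℂ) *
      (((RatFunc.X : RatFunc ℂ) ^ D * (1 + RatFunc.X ^ e))⁻¹ *
        δ' ((RatFunc.X : RatFunc ℂ) ^ D * (1 + RatFunc.X ^ e))) := ⟨_, rfl⟩
  rw [← hψ] at hr
  -- the functional
  let E : Submodule ℂ (RatFunc ℂ) := LinearMap.range
    (δ'.toLinearMap + LinearMap.mulLeft ℂ ψ)
  have hE : (RatFunc.X : RatFunc ℂ) ^ c ∉ E := by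
    rintro ⟨r, hr'⟩
    refine not_exact_betaW hδ' hD he hcD h1 h2 ⟨r, ?_⟩
    rw [← hψ, ← hr']
    rfl
  obtain ⟨l, hl0, hl1⟩ := SI.exists_functional E hE
  have hl : ∀ b : RatFunc ℂ, l (δ' b + ψ * b) = 0 := fun b => hl0 _ ⟨b, rfl⟩
  have h3 := congrArg (lamK l) hr
  rw [lamK_tmul, hl1, map_one, one_mul, map_add, map_add, lamK_dL, lamK_mul, lamK_dR l δ' hl,
    add_zero] at h3
  obtain ⟨u, hu⟩ : ∃ u : K', u = ((w⁻¹ : K'ˣ) : K') := ⟨_, rfl⟩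
  have hwu : (w : K') * u = 1 := by rw [hu, Units.mul_inv]
  obtain ⟨v, hv⟩ : ∃ v : K', v = (w : K') := ⟨_, rfl⟩
  rw [← hv] at hwu hw
  rw [← hu, ← hv] at h3
  obtain ⟨ρ, hρ⟩ : ∃ ρ, lamK l r₀ = v ^ (c + 1) * ρ := ⟨u ^ (c + 1) * lamK l r₀, by
    rw [← mul_assoc, ← mul_pow, hwu, one_pow, one_mul]⟩
  rw [hρ] at h3
  have h5 : δ₁ (v ^ (c + 1) * ρ) = v ^ (c + 1) * δ₁ ρ + ((c : K') + 1) * v ^ c * δ₁ v * ρ := by
    rw [Derivation.leibniz, Derivation.leibniz_pow, Nat.add_sub_cancel, smul_eq_mul, smul_eq_mul,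
      smul_eq_mul, nsmul_eq_mul]
    push_cast
    ring
  have hpow : ∀ n : ℕ, 0 < n → u ^ n * δ₁ (v ^ n) = (n : K') * (u * δ₁ v) := by
    intro n hn
    obtain ⟨m, rfl⟩ : ∃ m, n = m + 1 := ⟨n - 1, by omega⟩
    have h6 : u ^ m * v ^ m = 1 := by rw [← mul_pow, mul_comm u v, hwu, one_pow]
    rw [Derivation.leibniz_pow, Nat.add_sub_cancel, smul_eq_mul, nsmul_eq_mul]
    linear_combination (((m + 1 : ℕ) : K') * u * δ₁ v) * h6
  have h6 := hpow (D + e) (by omega)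
  have h7 := hpow e he
  obtain ⟨g, hg⟩ : ∃ g : K', g = u * δ₁ v := ⟨_, rfl⟩
  rw [← hg] at h6 h7
  have hue : u ^ e = i f₀⁻¹ := by
    have h8 : i f₀ * i f₀⁻¹ = 1 := by rw [← map_mul, mul_inv_cancel₀ hf₀, map_one]
    have h9 : u ^ e * v ^ e = 1 := by rw [← mul_pow, mul_comm u v, hwu, one_pow]
    rw [hw] at h9
    linear_combination (i f₀⁻¹) * h9 - (u ^ e) * h8
  have hge : (e : K') * g = i (δ f₀ / f₀) := by
    rw [← h7, hw, hδ₁, hue, ← map_mul, div_eq_inv_mul]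
  have hvg : δ₁ v = v * g := by
    rw [hg, ← mul_assoc, hwu, one_mul]
  have hsK : (((c : K') + 1) + ((D : K') + e) * algebraMap ℂ K' (s₀ : ℂ)) =
      -(algebraMap ℂ K' ((ν : ℂ) / N) * e) := by
    have h4 := congrArg (algebraMap ℂ K') hs'
    have h8 : -((e : ℂ) * ν / N) = -(((ν : ℂ) / N) * e) := by ring
    rw [h8, map_add, map_mul, map_add, map_add, map_neg, map_mul, map_natCast, map_natCast,
      map_natCast, map_one] at h4
    exact h4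
  have h10 : v ^ (c + 1) * i J₀ = v ^ (c + 1) * (δ₁ ρ - algebraMap ℂ K' ((ν : ℂ) / N) * i (δ f₀ / f₀) * ρ) := by
    rw [h3, h5, h6, ← hge, hvg]
    push_cast
    linear_combination (v ^ (c + 1) * g * ρ) * hsK
  have h11 : i J₀ = δ₁ ρ - algebraMap ℂ K' ((ν : ℂ) / N) * i (δ f₀ / f₀) * ρ := by
    have h12 : u ^ (c + 1) * v ^ (c + 1) = 1 := by rw [← mul_pow, mul_comm u v, hwu, one_pow]
    linear_combination (u ^ (c + 1)) * h10 - (i J₀ - (δ₁ ρ - algebraMap ℂ K' ((ν : ℂ) / N) *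
      i (δ f₀ / f₀) * ρ)) * h12
  have h13 : algebraMap ℂ K' ((ν : ℂ) / N) * i (δ f₀ / f₀) =
      i (((ν : RatFunc ℂ) / N) * (δ f₀ / f₀)) := by
    have h14 : ((ν : RatFunc ℂ) / N) = algebraMap ℂ (RatFunc ℂ) ((ν : ℂ) / N) := by
      rw [map_div₀, map_natCast, map_natCast]
    rw [h14, map_mul, AlgHom.commutes]
  refine ⟨π ρ, ?_⟩
  have h15 := congrArg π h11
  have h16 : π (i J₀) = J₀ := by
    have h17 := hπi J₀ 1
    rwa [mul_one, hπ1, mul_one] at h17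
  rw [h16, map_sub, hπδ, h13, hπi] at h15
  exact h15

end YW

end MPb07157
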