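import Pool.Agent.Lib.MP_b07157_agYW.Defs
import Pool.Agent.Lib.MP_b07157_agYL.Glue
import Pool.Agent.Lib.MP_b07157_agYG.KzG

/-!
# The series of a pair as a zeta function of `u^D (g(x, y) + u^e)`
-/

noncomputable section

namespace MPb07157

open MvPolynomial

namespace YW

open SI SI.LineQ SI.LineA PC YV

namespace GlueWA

theorem AK_succ (h : MvPolynomial (Fin 3) ℂ) {N k i : ℕ} (hk : k ≤ N) (hi : i ≤ N) :
    YL.AK h (N + 1) k i = {γ : Fin 3 × Fin (N + 1 + 1) → ℂ |
      leftPart γ ∈ YL.AK h N k i ∧ rightPart γ ∈ (Set.univ : Set (Fin 3 × Fin 1 → ℂ))} := by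
  ext γ
  unfold YL.AK
  simp only [Set.mem_ofPred_eq, Set.mem_univ, and_true]
  have hd : ∀ j, (PowerSeries.X : PowerSeries ℂ) ^ (N + 1) ∣
      arc γ j - arc (leftPart (A := N + 1) (B := 1) γ) j := by
    intro j
    rw [arc_split (A := N + 1) (B := 1)]
    simp
  refine and_congr ?_ (and_congr ?_ ?_)
  · exact Iff.rfl
  · exact order_congr (Nat.lt_succ_of_le hk) (hd 0)
  · exact order_congr (Nat.lt_succ_of_le hi) (aeval_congr_X_pow (N + 1) h _ _ hd)

theorem AKm_succ (h : MvPolynomial (Fin 3) ℂ) {N k i : ℕ} (hk : k ≤ N) (hi : i ≤ N) :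
    YL.AKm h (N + 1) k i = YL.AKm h N k i := by
  unfold YL.AKm
  rw [AK_succ h hk hi, clsM_mul_eq (cls_split (YL.isConstr_AK h N k i) IsConstr.univ), clsM_univ]
  simp only [Fintype.card_prod, Fintype.card_fin, mul_one]
  have e : (LU ^ (3 * (N + 1 + 1)))⁻¹ = (LU ^ (3 * (N + 1)))⁻¹ * (LU ^ 3)⁻¹ := by
    rw [← mul_inv, ← pow_add]
    congr 2
  rw [e, Units.val_mul]
  have e2 : (((LU ^ 3)⁻¹ : Motˣ) : Mot) * ((LU ^ 3 : Motˣ) : Mot) = 1 := Units.inv_mul _
  linear_combination ((((LU ^ (3 * (N + 1)))⁻¹ : Motˣ) : Mot) * clsM (YL.AK h N k i)) * e2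

/-- The measures do not depend on the level. -/
theorem AKm_level (h : MvPolynomial (Fin 3) ℂ) {N N' k i : ℕ} (hk : k ≤ N) (hi : i ≤ N)
    (hN : N ≤ N') : YL.AKm h N' k i = YL.AKm h N k i := by
  obtain ⟨r, rfl⟩ := Nat.exists_eq_add_of_le hN
  induction r with
  | zero => rfl
  | succ r ih =>
    rw [← ih (Nat.le_add_right _ _)]
    exact AKm_succ h (hk.trans (Nat.le_add_right _ _)) (hi.trans (Nat.le_add_right _ _))

end GlueWA

/-- As `YL.lineSer_eq_ZY` (`agYL/Glue.lean`): there the coefficients are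
`ell^(3 k) * Mk ... = ell^(2 k) * AKm ...`; here they are `li^(c k) * AKm h m k (m - D k)`
(`li = ell`, `YG.AKm` is `SI.LineQ.AKm` for three variables). Needed: the invariance of `AKm` under
`UEqV` (`YL.AKm_ueq`, `YG.KzGaux.AKm_congr`), `YL.AKm_susp`, the independence of the level of `AKm`
(for instance from the independence of the level of `SU.muJ`, or as for `Mk_level`). -/
theorem relSer_eq_ZY {h : MvPolynomial (Fin 3) ℂ} {g : MvPolynomial (Fin 2) ℂ} {c D e : ℕ}
    (hD : 0 < D) (he : 0 < e)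
    (hh : UEqV (n := 2) (h : MvPowerSeries (Fin 3) ℂ) (rename Fin.succ g + X 0 ^ e)) {K : ℕ}
    (hK : 1 ≤ K) : relSer (n := 2) h c D = YP.ZY (g : PC.P2) e D (c + 1) 1 0 K := by
  unfold relSer YP.ZY
  ext m
  rw [PowerSeries.coeff_mk, PowerSeries.coeff_mk, Finset.sum_comm]
  have hmN : m + 1 ≤ K * (m + 1) := Nat.le_mul_of_pos_left _ (by omega)
  obtain ⟨N, hN⟩ : ∃ N, K * (m + 1) = N + 1 := ⟨K * (m + 1) - 1, by omega⟩
  rw [hN] at hmN ⊢
  have hsub : Finset.Icc 1 m ⊆ Finset.Icc 1 (N + 1) := Finset.Icc_subset_Icc_right (by omega)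
  rw [Finset.sum_subset hsub]
  · refine Finset.sum_congr rfl fun j hj => ?_
    rw [Finset.mem_Icc] at hj
    by_cases hjm : D * j ≤ m
    · have hjm' : j ≤ m := le_trans (Nat.le_mul_of_pos_left _ hD) hjm
      have hc : ∀ k, (0 * k < e * j ∧ D * j ≤ m) := fun k =>
        ⟨by rw [Nat.zero_mul]; exact Nat.mul_pos he hj.1, hjm⟩
      rw [if_pos hjm]
      have h1 : ∀ k ∈ Finset.Icc 1 (N + 1), (if 0 * k < e * j ∧ D * j ≤ m then
          P1aux.Lp ((1 - 1) * k + (c + 1 - 1) * j) *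
            SU.muJ (g : PC.P2) (YP.eo e) (N + 1) (m - D * j)
              (Start 2 1 (N + 1) ∩ Xo (N + 1) k) (SU.Ug (YP.eo e) (N + 1) (e * j)) else 0) =
          ell ^ (c * j) *
            SU.muJ (g : PC.P2) (YP.eo e) (N + 1) (m - D * j)
              (Start 2 1 (N + 1) ∩ Xo (N + 1) k) (SU.Ug (YP.eo e) (N + 1) (e * j)) := by
        intro k _
        rw [if_pos (hc k), YL.Lp_eq_ell]
        congr 2
        rw [Nat.add_sub_cancel, Nat.sub_self, Nat.zero_mul, Nat.zero_add]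
      rw [Finset.sum_congr rfl h1, ← Finset.mul_sum, SU.L1aux.sum_muJ _ _ (by omega)
        (SU.isConstr_Ug _ _ _)]
      have h2 := YL.AKm_susp g (N := N) (k := j) (i := m - D * j) he hj.1 (by omega)
      have hu : YL.UEq (h : MvPowerSeries (Fin 3) ℂ) (rename Fin.succ g + X 0 ^ e) := hh
      have h3 := YL.AKm_ueq hu (N := m) (k := j) (i := m - D * j) hj.1 (by omega) (by omega)
      have h4 := GlueWA.AKm_level (rename Fin.succ g + X 0 ^ e) (N := m) (N' := N) (k := j)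
        (i := m - D * j) (by omega) (by omega) (by omega)
      have h5 : YG.AKm (n := 2) h m j (m - D * j) = YL.AKm h m j (m - D * j) := rfl
      have h6 : li = ell := rfl
      rw [h5, h3, ← h4, h2, h6]
    · rw [if_neg hjm]
      symm
      refine Finset.sum_eq_zero fun k _ => if_neg fun h => hjm h.2
  · intro j hj hj'
    rw [Finset.mem_Icc] at hj hj'
    refine if_neg fun h => hj' ⟨hj.1, le_trans (Nat.le_mul_of_pos_left _ hD) h⟩

end YW

end MPb07157
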