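import Pool.Agent.Lib.MP_b07157_agYW.Core
import Pool.Agent.Lib.MP_b07157_agYW.ExW
import Pool.Agent.Lib.MP_b07157_agYW.GlueW
import Pool.Agent.Lib.MP_b07157_agYM.IsoN

/-!
# Weighted Lê–Yomdin surface germs: arbitrary transversal types
-/

noncomputable section

namespace MPb07157

open MvPolynomial

namespace YW

open PC SU SI YV

variable {n : ℕ}

/-! ### The sections -/

/-- The form vanishes at its critical points. -/
theorem eval_of_crit {F : MvPolynomial (Fin n) ℂ} {a : Fin n → ℕ} {D : ℕ}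
    (hF : F.IsWeightedHomogeneous a D) (hD : 0 < D) {q : Fin n → ℂ}
    (hq : ∀ j, eval q (pderiv j F) = 0) : eval q F = 0 := by
  have h2 := congrArg (eval q) hF.sum_weight_X_mul_pderiv
  rw [map_sum, map_nsmul, Finset.sum_eq_zero (fun l _ => by
    rw [map_nsmul, map_mul, hq l, mul_zero, smul_zero])] at h2
  have h3 : (D : ℂ) ≠ 0 := by exact_mod_cast hD.ne'
  rw [nsmul_eq_mul] at h2
  exact (mul_eq_zero.1 h2.symm).resolve_left h3

/-- The sections are isolated singularities. -/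
theorem isoSing_gchW {F : MvPolynomial (Fin (n + 1)) ℂ} {a : Fin (n + 1) → ℕ} {D : ℕ}
    (ha : ∀ i, 0 < a i) (hF : F.IsWeightedHomogeneous a D)
    (hfin : ∃ P : Finset (Fin (n + 1) → ℂ), ∀ q, q ≠ 0 → (∀ j, eval q (pderiv j F) = 0) →
      ∃ p ∈ P, ∃ t : ℂ, q = sc a t p) (q : Fin (n + 1) → ℂ) (j₀ : Fin (n + 1)) :
    ∃ N : ℕ, ∀ i, (MvPowerSeries.X i : MvPowerSeries (Fin n) ℂ) ^ N ∈
      Ideal.span {(gch F q j₀ : MvPowerSeries (Fin n) ℂ)} ⊔
        YM.JI (gch F q j₀ : MvPowerSeries (Fin n) ℂ) := by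
  classical
  obtain ⟨P, hP⟩ := hfin
  set g := gch F q j₀ with hg
  set I : Ideal (MvPolynomial (Fin n) ℂ) :=
    Ideal.span {g} ⊔ Ideal.span (Set.range fun l => pderiv l g) with hI
  have h1 : I.map (coeToMvPowerSeries.ringHom (σ := Fin n) (R := ℂ)) =
      Ideal.span {(g : MvPowerSeries (Fin n) ℂ)} ⊔ YM.JI (g : MvPowerSeries (Fin n) ℂ) := by
    rw [hI, Ideal.map_sup, Ideal.map_span, Ideal.map_span, Set.image_singleton, ← Set.range_comp,
      YM.JI]
    simp only [coeToMvPowerSeries.ringHom_apply, MvPowerSeries.pderiv_coe]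
    rfl
  rw [← h1]
  refine YM.exists_powers_of_finite I
    (P.biUnion fun p => ((Polynomial.X ^ a j₀ - Polynomial.C (p j₀)⁻¹ : Polynomial ℂ).roots.toFinset).image
      fun t l => sc a t p (j₀.succAbove l) - q (j₀.succAbove l)) fun x hx => ?_
  set y : Fin (n + 1) → ℂ :=
    j₀.insertNth (α := fun _ => ℂ) 1 fun i => x i + q (j₀.succAbove i) with hy
  have hyj : y j₀ = 1 := by rw [hy, Fin.insertNth_apply_same]
  have hys : ∀ l, y (j₀.succAbove l) = x l + q (j₀.succAbove l) := fun l => by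
    rw [hy, Fin.insertNth_apply_succAbove]
  have hy0 : y ≠ 0 := fun h => by
    rw [h] at hyj
    exact zero_ne_one hyj
  have hFy : eval y F = 0 := by
    rw [hy, ← YM.eval_gchN]
    exact hx _ (Ideal.mem_sup_left (Ideal.mem_span_singleton_self _))
  have hdl : ∀ l, eval y (pderiv (j₀.succAbove l) F) = 0 := by
    intro l
    rw [hy, ← YM.eval_gchN, ← YM.pderiv_gchN]
    exact hx _ (Ideal.mem_sup_right (Ideal.subset_span ⟨l, rfl⟩))
  have hd0 : eval y (pderiv j₀ F) = 0 := by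
    have h2 := congrArg (eval y) hF.sum_weight_X_mul_pderiv
    rw [map_sum, map_nsmul, hFy, smul_zero, Fin.sum_univ_succAbove _ j₀,
      Finset.sum_eq_zero (fun l _ => by rw [map_nsmul, map_mul, hdl l, mul_zero, smul_zero]),
      add_zero, map_nsmul, map_mul, eval_X, hyj, one_mul, nsmul_eq_mul] at h2
    exact (mul_eq_zero.1 h2).resolve_left (by exact_mod_cast (ha j₀).ne')
  have hall : ∀ j, eval y (pderiv j F) = 0 := by
    intro j
    rcases Fin.eq_self_or_eq_succAbove j₀ j with rfl | ⟨m, rfl⟩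
    · exact hd0
    · exact hdl m
  obtain ⟨p, hp, t, hc⟩ := hP y hy0 hall
  have htp : t ^ a j₀ * p j₀ = 1 := by
    have h2 : y j₀ = sc a t p j₀ := by rw [hc]
    rw [← hyj, h2]
    rfl
  have hp0 : p j₀ ≠ 0 := right_ne_zero_of_mul (htp.trans_ne one_ne_zero)
  refine Finset.mem_biUnion.2 ⟨p, hp, Finset.mem_image.2 ⟨t, ?_, ?_⟩⟩
  · rw [Multiset.mem_toFinset, Polynomial.mem_roots (Polynomial.X_pow_sub_C_ne_zero (ha j₀) _),
      Polynomial.IsRoot, Polynomial.eval_sub, Polynomial.eval_pow, Polynomial.eval_X,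
      Polynomial.eval_C, sub_eq_zero]
    exact eq_inv_of_mul_eq_one_left htp
  · funext l
    rw [← hc, hys l, add_sub_cancel_right]

/-- The sections of surfaces. -/
theorem isoSing_surf {F : MvPolynomial (Fin 3) ℂ} {a : Fin 3 → ℕ} {D : ℕ}
    (ha : ∀ i, 0 < a i) (hF : F.IsWeightedHomogeneous a D)
    (hfin : ∃ P : Finset (Fin 3 → ℂ), ∀ q, q ≠ 0 → (∀ j, eval q (pderiv j F) = 0) →
      ∃ p ∈ P, ∃ t : ℂ, q = sc a t p) (q : Fin 3 → ℂ) (j₀ : Fin 3) :
    IsoSing (gch F q j₀ : P2) := by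
  obtain ⟨N, hN⟩ := isoSing_gchW (n := 2) ha hF hfin q j₀
  refine ⟨N, fun i => ?_⟩
  refine (sup_le ?_ ?_ : _ ≤ Ideal.span {(gch F q j₀ : P2),
    MvPowerSeries.pderiv ℂ 0 (gch F q j₀ : P2), MvPowerSeries.pderiv ℂ 1 (gch F q j₀ : P2)}) (hN i)
  · rw [Ideal.span_le, Set.singleton_subset_iff]
    exact Ideal.subset_span (by simp)
  · unfold YM.JI
    rw [Ideal.span_le]
    rintro _ ⟨j, rfl⟩
    fin_cases j
    · exact Ideal.subset_span (by simp)
    · exact Ideal.subset_span (by simp)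

/-! ### Nodes -/

/-- A node with `f_{D+e}(q) ≠ 0` is semi-quasi-homogeneous. -/
theorem relAtW_node {f : MvPolynomial (Fin 3) ℂ} {a : Fin 3 → ℕ} {D e : ℕ} (he : 0 < e)
    (hmid : ∀ v ∈ f.support, MPb07157.wt a v = D ∨ D + e ≤ MPb07157.wt a v)
    {q : Fin 3 → ℂ} {j₀ : Fin 3} (hq : q j₀ = 1) (hne : eval q (LF f a (D + e)) ≠ 0)
    (hb : 2 * ∑ j, a j < 3 * D + e) (hnode : IsNode (gch (LF f a D) q j₀ : P2)) :
    RelAtW (n := 2) f a D q := by
  obtain ⟨V, hV0, hV⟩ := exists_str_mid (n := 2) he hmid hq hne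
  obtain ⟨E, hE⟩ := SU.NdH.exists_equiv_node hnode
  have hw : ∀ c : Fin 2 → ℂ, c ≠ 0 → ∃ j, eval c (pderiv j (weightedHomogeneousComponent
      (fun _ : Fin 2 => 1) 2 (X 0 * X 1 : MvPolynomial (Fin 2) ℂ))) ≠ 0 := by
    intro c hc
    have h1 : IsWeightedHomogeneous (fun _ : Fin 2 => 1) (X 0 * X 1 : MvPolynomial (Fin 2) ℂ) 2 :=
      (isWeightedHomogeneous_X ℂ (fun _ : Fin 2 => 1) 0).mul
        (isWeightedHomogeneous_X ℂ (fun _ : Fin 2 => 1) 1)
    rw [h1.weightedHomogeneousComponent_same]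
    by_cases h0 : c 0 = 0
    · refine ⟨0, ?_⟩
      rw [Derivation.leibniz, pderiv_X_self, pderiv_X_of_ne (by decide), smul_zero, zero_add,
        smul_eq_mul, mul_one, eval_X]
      intro h2
      apply hc
      funext i
      fin_cases i
      · exact h0
      · exact h2
    · refine ⟨1, ?_⟩
      rw [Derivation.leibniz, pderiv_X_self, pderiv_X_of_ne (by decide), smul_zero, add_zero,
        smul_eq_mul, mul_one, eval_X]
      exact h0
  have hge : ∀ v ∈ (X 0 * X 1 : MvPolynomial (Fin 2) ℂ).support,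
      2 ≤ MPb07157.wt (fun _ : Fin 2 => 1) v := by
    intro v hv
    have h1 : IsWeightedHomogeneous (fun _ : Fin 2 => 1) (X 0 * X 1 : MvPolynomial (Fin 2) ℂ) 2 :=
      (isWeightedHomogeneous_X ℂ (fun _ : Fin 2 => 1) 0).mul
        (isWeightedHomogeneous_X ℂ (fun _ : Fin 2 => 1) 1)
    have h2 := h1 (mem_support_iff.1 hv)
    rw [ly_weight] at h2
    exact h2.ge
  have H := rs_of_ly (n := 2) (w := fun _ => 1) (N := 2) he (fun _ => one_pos)
    (fun _ => by norm_num) (by norm_num) hge hw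
  have hsc : sc a 1 q = q := rw_sc_one q
  have hU : UEqV (n := 2) ((rename Fin.succ (gch (LF f a D) q j₀) + X 0 ^ e * V :
      MvPolynomial (Fin 3) ℂ) : MvPowerSeries (Fin 3) ℂ) (rename Fin.succ (X 0 * X 1) + X 0 ^ e) :=
    ueqV_of_form (n := 2) he hV0 ⟨E, 1, by rw [Units.val_one, one_mul, hE]⟩
  rw [← hsc] at hq hV
  refine ⟨j₀, 1, one_ne_zero, hq, _, _, _, _, hV, ?_, H, ?_⟩
  · rw [hsc]
    exact hU
  · intro j
    show (∑ j, a j) * 2 * (e * 2) + e * 1 * (D * 2 + e * 2) <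
      D * 2 * (∑ _i : Fin 2, e * 1) + e * 2 * (D * 2 + e * 2)
    rw [Finset.sum_const, Finset.card_univ, Fintype.card_fin, smul_eq_mul]
    have h1 : 2 * e * (2 * ∑ j, a j) < 2 * e * (3 * D + e) :=
      Nat.mul_lt_mul_of_pos_left hb (by omega)
    nlinarith

/-! ### The main case -/

/-- The critical orbits with `f_{D+e}(q) ≠ 0`. -/
theorem surfW_case {f : MvPolynomial (Fin 3) ℂ} {a : Fin 3 → ℕ} {D e : ℕ} (H : WC (n := 3) f a D)
    (he : 0 < e) (hmid : ∀ v ∈ f.support, MPb07157.wt a v = D ∨ D + e ≤ MPb07157.wt a v)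
    (hb1 : ∑ j, a j ≤ D + e) (hb2 : 2 * ∑ j, a j < 3 * D + e)
    {q : Fin 3 → ℂ} {j₀ : Fin 3} (hq : q j₀ = 1)
    (hcrit : ∀ j, eval q (pderiv j (LF f a D)) = 0) (hne : eval q (LF f a (D + e)) ≠ 0) {s₀ : ℚ}
    (h : ((∑ j, a j : ℕ) : ℚ) + D * s₀ ≠ 0) (h1 : s₀ ≠ -1) (hreg : orbSer f a D q ∉ regularAt s₀)
    {b : Polynomial ℂ} (hb : InPs (f : MvPowerSeries (Fin 3) ℂ) 1
      (b.map (MvPowerSeries.C (σ := Fin 3) (R := ℂ)))) : b.eval (s₀ : ℂ) = 0 := by
  have hD := H.hD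
  have hq0 : q ≠ 0 := by
    rintro rfl
    exact zero_ne_one hq
  have hfree := H.free q hq0 hcrit
  by_cases hnode : IsNode (gch (LF f a D) q j₀ : P2)
  · exact relAtW_case (n := 2) H.ha H.haD hfree (relAtW_node he hmid hq hne hb2 hnode) h h1 hreg hb
  have hiso := isoSing_surf H.ha rw_LF_hom H.fin q j₀
  have hg0 := ne_zero_of_isoSing hiso
  have hc' : MvPowerSeries.constantCoeff
      ((gch (LF f a D) q j₀ : MvPolynomial (Fin 2) ℂ) : PC.P2) = 0 := by
    have hc : eval 0 (gch (LF f a D) q j₀) = 0 := by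
      rw [pole_eval_gch _ q j₀ hq]
      exact eval_of_crit rw_LF_hom hD hcrit
    rw [← MvPowerSeries.coeff_zero_eq_constantCoeff_apply, MvPolynomial.coeff_coe,
      ← MvPolynomial.constantCoeff_eq, ← hc, MvPolynomial.eval_zero]
  obtain ⟨V, hV0, hV⟩ := exists_str_mid (n := 2) he hmid hq hne
  have hU := ueqV_of_form (n := 2) he hV0 (G := gch (LF f a D) q j₀)
    ⟨AlgEquiv.refl, 1, by rw [Units.val_one, one_mul]; rfl⟩
  have hser := orbSer_eq (n := 2) H.ha H.haD hq hfree hV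
  have hcc : (∑ j, a j - 1) + 1 = ∑ j, a j := by
    have h2 : a 0 ≤ ∑ j, a j :=
      Finset.single_le_sum (fun _ _ => Nat.zero_le _) (Finset.mem_univ 0)
    have h3 := H.ha 0
    omega
  obtain ⟨K, hK⟩ := exists_nat_gt (-s₀)
  have hK1 : 1 ≤ K + 1 := by omega
  have hK2 : -s₀ < ((K + 1 : ℕ) : ℚ) := by
    push_cast
    linarith
  rw [hser, relSer_eq_ZY hD he hU hK1, hcc] at hreg
  have heQ : (0 : ℚ) < e := by exact_mod_cast he
  have hDQ : (0 : ℚ) < D := by exact_mod_cast hD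
  set s₁ : ℚ := (((D : ℚ) + e) * s₀ + (∑ j, a j : ℕ)) / e with hs₁
  have hP : YP.Par e D (∑ j, a j) s₀ s₁ := by
    refine ⟨he, hD, ?_, ?_, h1, ?_⟩
    · have h3 := H.ha 0
      omega
    · rw [hs₁, mul_div_cancel₀ _ heQ.ne']
    · intro h4
      apply h
      linarith
  by_cases hout : s₁ ≤ -1 ∨ 0 ≤ s₁
  · exact absurd (YP.first_out hg0 hc' hnode hP hout hK1 hK2) hreg
  push Not at hout
  obtain ⟨h5, h6⟩ := hout
  by_contra hb0
  obtain ⟨ξ, U, J, hch⟩ := exists_chartW (n := 2) H.ha hV hU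
  have hex := ex_W hD he (by rw [hcc]; exact hb1) hch (s₀ := s₀) (by rw [hcc]; exact h5)
    (by rw [hcc]; exact h6) hb hb0
  rw [hcc] at hex
  exact hreg (YP.first hg0 hc' hP hex
    (fun θ h0 i B hJ hB0 hB => PC.axis_ne hiso h0 hJ hB0 hB h5.ne') hK1 hK2)

end YW

end MPb07157
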