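import Pool.Agent.Lib.MP_b07157_agM.WDefs
import Pool.Agent.Lib.MP_b07157_agYA.Tc
import Pool.Agent.Lib.MP_b07157_agYV.Conv
import Pool.Agent.Lib.MP_b07157_agYW.Surf

/-!
# Germs with weighted tangent cones
-/

noncomputable section

namespace MPb07157

open MvPolynomial

namespace YW

open SI YV

variable {k : ℕ}

theorem LF_eq (f : MvPolynomial (Fin k) ℂ) (a : Fin k → ℕ) (D : ℕ) :
    LF f a D = weightedHomogeneousComponent a D f := ly_inForm_face f a D

theorem wc_of_wTanCone {f : MvPolynomial (Fin (k + 1)) ℂ} {a : Fin (k + 1) → ℕ} {D e : ℕ}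
    (hf : WTanCone f a D e) : WC f a D := by
  refine ⟨hf.ha, hf.haD, lt_of_le_of_lt (Nat.zero_le _) (hf.haD 0), fun v hv => ?_, ?_, ?_, ?_⟩
  · rcases hf.low v hv with h | h
    · exact h.ge
    · exact le_trans (Nat.le_add_right D e) h
  · rw [LF_eq]
    exact hf.ne
  · rw [LF_eq]
    obtain ⟨P, hP⟩ := hf.fin
    exact ⟨P, fun q hq hs => hP q ⟨hq, hs⟩⟩
  · rw [LF_eq]
    exact fun q hq hs => hf.free q ⟨hq, hs⟩

theorem relAtW_of_wRelSqPt {f : MvPolynomial (Fin (k + 1)) ℂ} {a : Fin (k + 1) → ℕ} {D : ℕ}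
    (ha : ∀ i, 0 < a i) {q : Fin (k + 1) → ℂ} (h : WRelSqPt f a D q) : RelAtW f a D q := by
  obtain ⟨j₀, t, ht, h, G, w, N, E, u, v, h1, h2, h3, h4, h5⟩ := h
  have ht0 : t ≠ 0 := by
    rintro rfl
    rw [zero_pow (ha j₀).ne', zero_mul] at ht
    exact zero_ne_one ht
  refine ⟨j₀, t, ht0, ht, h, G, w, N, h1, ⟨E, u, v, h3, h4⟩, rs_of_relSqG h2, ?_⟩
  rcases h5 with h5 | h5
  · exact numW_of_le h2.hwN (fun j => h2.hw j.succ) h5
  · exact h5

theorem relAtW_of_wSqPt {f : MvPolynomial (Fin (k + 1)) ℂ} {a : Fin (k + 1) → ℕ} {D e : ℕ}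
    (hk : 0 < k) (ha : ∀ i, 0 < a i) (he : 0 < e)
    (hmid : ∀ v ∈ f.support, MPb07157.wt a v = D ∨ D + e ≤ MPb07157.wt a v)
    {q : Fin (k + 1) → ℂ} (h : WSqPt f a D e q) : RelAtW f a D q := by
  obtain ⟨hne, j₀, t, ht, G, w, N, E, u, H, h1, h2⟩ := h
  have ht0 : t ≠ 0 := by
    rintro rfl
    rw [zero_pow (ha j₀).ne', zero_mul] at ht
    exact zero_ne_one ht
  have hN : 0 < N := lt_of_le_of_lt (Nat.zero_le _) (H.hwN ⟨0, hk⟩)
  have hne' : eval (sc a t q) (LF f a (D + e)) ≠ 0 := by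
    rw [rw_eval_sc rw_LF_hom, LF_eq]
    exact mul_ne_zero (pow_ne_zero _ ht0) hne
  have H' := rs_of_ly (e := e) he H.hw H.hwN hN H.ge H.iso
  obtain ⟨V, hV0, hV⟩ := exists_str_mid he hmid (q := sc a t q) (j₀ := j₀) ht hne'
  refine ⟨j₀, t, ht0, ht, _, _, _, _, hV, ueqV_of_form he hV0 (G := G) ⟨E, u, ?_⟩, H', ?_⟩
  · rw [LF_eq]
    exact h1
  · rcases h2 with h2 | h2
    · exact numW_of_le H'.hwN (fun j => H'.hw j.succ) h2
    · intro j
      have h3 := h2 j
      show (∑ j, a j) * N * (e * N) + e * w j * (D * N + e * N) <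
        D * N * (∑ j, e * w j) + e * N * (D * N + e * N)
      rw [← Finset.mul_sum]
      have h4 : 0 < N * e := Nat.mul_pos hN he
      have h5 := Nat.mul_lt_mul_of_pos_left h3 h4
      calc (∑ j, a j) * N * (e * N) + e * w j * (D * N + e * N)
          = N * e * ((∑ j, a j) * N + (D + e) * w j) := by ring
        _ < N * e * (D * ∑ j, w j + (D + e) * N) := h5
        _ = _ := by ring

end YW

open YW in
/-- **Germs with weighted tangent cones.** -/
theorem SmcLoc.of_wTanCone {k : ℕ} {f : MvPolynomial (Fin (k + 1)) ℂ} {a : Fin (k + 1) → ℕ}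
    {D e : ℕ} (hf : WTanCone f a D e) : SmcLoc f := by
  have H := wc_of_wTanCone hf
  intro s₀ _ hp b hb
  refine smc_wc H hb (fun q j₀ hq hcrit h h1 hreg => ?_) (fun _ => ?_) hp
  · have hq0 : q ≠ 0 := by
      rintro rfl
      exact zero_ne_one hq
    have hbps := inPs_of_form hb
    have hfree := H.free q hq0 hcrit
    have hS : SingPt (weightedHomogeneousComponent a D f) q := ⟨hq0, by rwa [← LF_eq]⟩
    have hk : 0 < k := lt_of_lt_of_le two_pos hf.hk
    rcases hf.sing q hS with h2 | h2 | ⟨hk2, h3, h4, h5⟩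
    · exact relAtW_case H.ha H.haD hfree (relAtW_of_wSqPt hk H.ha hf.he hf.low h2) h h1 hreg hbps
    · exact relAtW_case H.ha H.haD hfree (relAtW_of_wRelSqPt H.ha h2) h h1 hreg hbps
    · subst hk2
      exact surfW_case H hf.he hf.low h3 h4 hq hcrit (by rw [LF_eq]; exact h5) h h1 hreg hbps
  · rcases hf.root with h | h | h
    · exact Or.inl h
    · exact Or.inr (Or.inl h)
    · exact Or.inr (Or.inr (by rw [LF_eq]; exact h))

end MPb07157
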