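import Pool.Agent.Lib.MP_b07157_agI.Lc
import Pool.Agent.Lib.MP_b07157_ag.NewtDefs

/-!
# The root `-|a|/D` of a germ with log canonical threshold `|a|/D`
-/

noncomputable section

namespace MPb07157.Lct

open MeasureTheory Filter Topology MvPolynomial Pointwise
open scoped ComplexConjugate ContDiff

variable {n : ℕ}

/-- The polydisc `|x_i| < 2^(-a_i j)`. -/
def lwU (a : Fin n → ℕ) (j : ℕ) : Set (Fin n → ℂ) :=
  Set.univ.pi fun i => Metric.ball (0 : ℂ) ((1 / 2 : ℝ) ^ (a i * j))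

theorem lw_mem {a : Fin n → ℕ} {j : ℕ} {x : Fin n → ℂ} :
    x ∈ lwU a j ↔ ∀ i, ‖x i‖ < (1 / 2 : ℝ) ^ (a i * j) := by
  simp [lwU, Set.mem_pi]

theorem lw_meas (a : Fin n → ℕ) (j : ℕ) : MeasurableSet (lwU a j) :=
  MeasurableSet.univ_pi fun _ => Metric.isOpen_ball.measurableSet

theorem lw_volume (a : Fin n → ℕ) (j : ℕ) :
    volume (lwU a j) = ENNReal.ofReal (((1 / 2 : ℝ) ^ (2 * ∑ i, a i)) ^ j) *
      (NNReal.pi : ENNReal) ^ n := by
  unfold lwU
  rw [volume_pi_pi]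
  simp only [Complex.volume_ball]
  rw [Finset.prod_mul_distrib, Finset.prod_const, Finset.card_univ, Fintype.card_fin]
  congr 1
  rw [Finset.prod_congr rfl fun i _ => (ENNReal.ofReal_pow (by positivity) 2).symm,
    ← ENNReal.ofReal_prod_of_nonneg fun i _ => by positivity]
  congr 1
  rw [Finset.prod_congr rfl fun i _ => (pow_mul (1 / 2 : ℝ) (a i * j) 2).symm,
    Finset.prod_pow_eq_pow_sum, ← pow_mul]
  congr 1
  rw [Finset.mul_sum, Finset.sum_mul]
  exact Finset.sum_congr rfl fun i _ => by ring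

theorem lw_mono {a : Fin n → ℕ} {j l : ℕ} (h : j ≤ l) : lwU a l ⊆ lwU a j := by
  intro x hx
  rw [lw_mem] at hx ⊢
  intro i
  exact (hx i).trans_le (pow_le_pow_of_le_one (by norm_num) (by norm_num)
    (Nat.mul_le_mul_left _ h))

/-- A polynomial with terms of weight at least `D` is bounded by `C 2^(-D j)` on the polydisc. -/
theorem lw_norm_le {f : MvPolynomial (Fin n) ℂ} {a : Fin n → ℕ} {D : ℕ}
    (hlow : ∀ v ∈ f.support, D ≤ MPb07157.wt a v) :
    ∃ C : ℝ, 0 < C ∧ ∀ j, ∀ x ∈ lwU a j, ‖eval x f‖ ≤ C * ((1 / 2 : ℝ) ^ j) ^ D := by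
  refine ⟨(∑ v ∈ f.support, ‖coeff v f‖) + 1, by positivity, fun j x hx => ?_⟩
  rw [lw_mem] at hx
  have hj0 : (0 : ℝ) ≤ (1 / 2 : ℝ) ^ j := by positivity
  have hj1 : (1 / 2 : ℝ) ^ j ≤ 1 := pow_le_one₀ (by norm_num) (by norm_num)
  rw [eval_eq']
  calc ‖∑ v ∈ f.support, coeff v f * ∏ i, x i ^ v i‖
      ≤ ∑ v ∈ f.support, ‖coeff v f * ∏ i, x i ^ v i‖ := norm_sum_le _ _
    _ ≤ ∑ v ∈ f.support, ‖coeff v f‖ * ((1 / 2 : ℝ) ^ j) ^ D := by
        refine Finset.sum_le_sum fun v hv => ?_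
        rw [norm_mul, norm_prod]
        refine mul_le_mul_of_nonneg_left ?_ (norm_nonneg _)
        calc ∏ i, ‖x i ^ v i‖ ≤ ∏ i, ((1 / 2 : ℝ) ^ j) ^ (a i * v i) := by
              refine Finset.prod_le_prod (fun _ _ => norm_nonneg _) fun i _ => ?_
              rw [norm_pow, pow_mul, ← pow_mul (1 / 2 : ℝ) j (a i), mul_comm j (a i)]
              exact pow_le_pow_left₀ (norm_nonneg _) (hx i).le _
          _ = ((1 / 2 : ℝ) ^ j) ^ MPb07157.wt a v := by
              rw [Finset.prod_pow_eq_pow_sum]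
              rfl
          _ ≤ ((1 / 2 : ℝ) ^ j) ^ D := pow_le_pow_of_le_one hj0 hj1 (hlow v hv)
    _ = (∑ v ∈ f.support, ‖coeff v f‖) * ((1 / 2 : ℝ) ^ j) ^ D := by rw [Finset.sum_mul]
    _ ≤ _ := by
        have := pow_nonneg hj0 D
        nlinarith

/-- If `f` has terms of weight at least `D`, then `|f|^{-2|a|/D}` is not integrable at the
origin. -/
theorem not_integrableOn_of_lowW {f : MvPolynomial (Fin n) ℂ} {a : Fin n → ℕ}
    (ha : ∀ i, 0 < a i) {D : ℕ} (hD : 0 < D) (hn : 0 < n) (hf : f ≠ 0)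
    (hlow : ∀ v ∈ f.support, D ≤ MPb07157.wt a v) {r : ℝ} (hr : 0 < r) :
    ¬ IntegrableOn (fun x => NN f x ^ (-(((∑ i, a i : ℕ) : ℝ) / D)))
      (Metric.ball (0 : Fin n → ℂ) r) := by
  intro hint
  obtain ⟨C, hC0, hC⟩ := lw_norm_le hlow
  set A : ℕ := ∑ i, a i with hA
  have hA0 : 0 < A := Finset.sum_pos (fun i _ => ha i) ⟨⟨0, hn⟩, Finset.mem_univ _⟩
  have hD' : (0 : ℝ) < D := by exact_mod_cast hD
  have hA' : (0 : ℝ) < A := by exact_mod_cast hA0
  set c : ℝ := (A : ℝ) / D with hc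
  have hc0 : 0 < c := by positivity
  obtain ⟨j₁, hj₁⟩ := exists_pow_lt_of_lt_one hr (show (1 / 2 : ℝ) < 1 by norm_num)
  set S : ℕ → Set (Fin n → ℂ) := fun j => lwU a (j₁ + j) \ lwU a (j₁ + j + 1) with hS
  have hSm : ∀ j, MeasurableSet (S j) := fun j => (lw_meas _ _).diff (lw_meas _ _)
  have hSd : Pairwise (Function.onFun Disjoint S) := by
    have key : ∀ i j, i < j → Disjoint (S i) (S j) := by
      intro i j hij
      rw [Set.disjoint_left]
      intro x hx hx'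
      exact hx.2 (lw_mono (by omega) hx'.1)
    intro i j hij
    rcases lt_or_gt_of_ne hij with h | h
    · exact key i j h
    · exact (key j i h).symm
  have hSsub : ∀ j, S j ⊆ Metric.ball (0 : Fin n → ℂ) r := by
    intro j x hx
    have h1 := lw_mem.1 hx.1
    rw [mem_ball_zero_iff]
    refine lt_of_le_of_lt ?_ hj₁
    rw [pi_norm_le_iff_of_nonneg (by positivity)]
    intro i
    refine (h1 i).le.trans (pow_le_pow_of_le_one (by norm_num) (by norm_num) ?_)
    have := ha i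
    nlinarith
  set q : ℝ := (1 / 2 : ℝ) ^ (2 * A) with hq
  have hq0 : 0 < q := by positivity
  have hq1 : q < 1 := pow_lt_one₀ (by norm_num) (by norm_num) (by omega)
  have hvol : ∀ j, volume (S j) = ENNReal.ofReal (q ^ (j₁ + j) * (1 - q)) *
      (NNReal.pi : ENNReal) ^ n := by
    intro j
    have hfin : volume (lwU a (j₁ + j + 1)) ≠ ⊤ := by
      rw [lw_volume]
      exact ENNReal.mul_ne_top ENNReal.ofReal_ne_top (ENNReal.pow_ne_top ENNReal.coe_ne_top)
    simp only [hS]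
    rw [measure_sdiff (lw_mono (by omega)) (lw_meas _ _).nullMeasurableSet hfin, lw_volume,
      lw_volume, ← ENNReal.sub_mul (fun _ _ => ENNReal.pow_ne_top ENNReal.coe_ne_top),
      ← ENNReal.ofReal_sub _ (by positivity)]
    congr 2
    rw [← hA, ← hq]
    ring
  have hlow2 : ∀ j, ∫⁻ x in S j, ENNReal.ofReal ((C ^ 2) ^ (-c) * (q ^ (j₁ + j))⁻¹) ≤
      ∫⁻ x in S j, ‖NN f x ^ (-c)‖ₑ := by
    intro j
    refine lintegral_mono_ae ?_
    filter_upwards [ae_restrict_of_ae (s := S j) (Alp.ae_eval_ne_zero hf),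
      ae_restrict_mem (hSm j)] with x hx hxS
    have hNN : 0 < NN f x := Complex.normSq_pos.2 hx
    rw [Real.enorm_of_nonneg (Real.rpow_nonneg (NN_nonneg f x) _)]
    apply ENNReal.ofReal_le_ofReal
    have h2 : NN f x ≤ C ^ 2 * ((1 / 2 : ℝ) ^ (j₁ + j)) ^ (2 * D) := by
      have h3 := hC _ x hxS.1
      unfold NN
      rw [Complex.normSq_eq_norm_sq]
      calc ‖eval x f‖ ^ 2 ≤ (C * ((1 / 2 : ℝ) ^ (j₁ + j)) ^ D) ^ 2 :=
            pow_le_pow_left₀ (norm_nonneg _) h3 2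
        _ = _ := by ring
    have h4 : (C ^ 2 * ((1 / 2 : ℝ) ^ (j₁ + j)) ^ (2 * D)) ^ (-c) ≤ NN f x ^ (-c) :=
      Real.rpow_le_rpow_of_nonpos hNN h2 (by linarith)
    refine le_trans (le_of_eq ?_) h4
    rw [Real.mul_rpow (by positivity) (by positivity)]
    congr 1
    rw [← Real.rpow_natCast ((1 / 2 : ℝ) ^ (j₁ + j)) (2 * D), ← Real.rpow_mul (by positivity),
      show ((2 * D : ℕ) : ℝ) * -c = -((2 * A : ℕ) : ℝ) by
        rw [hc]
        push_cast
        field_simp,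
      Real.rpow_neg (by positivity), Real.rpow_natCast, hq, ← pow_mul, ← pow_mul,
      mul_comm (j₁ + j) (2 * A)]
  have hterm : ∀ j, ∫⁻ x in S j, ENNReal.ofReal ((C ^ 2) ^ (-c) * (q ^ (j₁ + j))⁻¹) =
      ENNReal.ofReal ((C ^ 2) ^ (-c) * (1 - q)) * (NNReal.pi : ENNReal) ^ n := by
    intro j
    rw [setLIntegral_const, hvol, ← mul_assoc, ← ENNReal.ofReal_mul (by positivity)]
    congr 2
    field_simp
  have hne : ENNReal.ofReal ((C ^ 2) ^ (-c) * (1 - q)) * (NNReal.pi : ENNReal) ^ n ≠ 0 := by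
    refine mul_ne_zero ?_ (pow_ne_zero _ ?_)
    · rw [Ne, ENNReal.ofReal_eq_zero, not_le]
      have h1 : 0 < 1 - q := by linarith
      positivity
    · exact_mod_cast NNReal.pi_pos.ne'
  have htop : ∫⁻ x in ⋃ j, S j, ‖NN f x ^ (-c)‖ₑ = ⊤ := by
    rw [lintegral_iUnion hSm hSd, ← top_le_iff,
      ← ENNReal.tsum_const_eq_top_of_ne_zero (α := ℕ) hne]
    exact ENNReal.tsum_le_tsum fun j => by
      rw [← hterm j]
      exact hlow2 j
  have h1 : ∫⁻ x in ⋃ j, S j, ‖NN f x ^ (-c)‖ₑ < ⊤ :=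
    (hint.mono_set (Set.iUnion_subset hSsub)).2
  exact h1.ne htop

/-- **The root `-|a|/D`** of the local Bernstein–Sato polynomial of a germ with terms of weight at
least `D` for the weights `a_i > 0`, and log canonical threshold at least `|a|/D`. As `root_order`
(`agI/Lc.lean`, the case `a_i = 1`), from `root_of_lct_form`: `|f(x)| ≤ C r(x)^D` near the origin,
`r(x) = max |x_i|^(1/a_i)`, and `r^(-2|a|)` is not integrable at the origin: compare the domain
`r(x) < ρ` and its image under `x_i ↦ 2^(-a_i) x_i` (volumes: factor `2^(-2|a|)`), as in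
`not_integrableOn_norm`. -/
theorem root_weight {f : MvPolynomial (Fin n) ℂ} {a : Fin n → ℕ} (ha : ∀ i, 0 < a i) {D : ℕ}
    (hD : 0 < D) (hn : 0 < n) (hf : f ≠ 0) (hlow : ∀ v ∈ f.support, D ≤ MPb07157.wt a v)
    (hlct : HasLct f (((∑ i, a i : ℕ) : ℝ) / D))
    {b : Polynomial ℂ} (hb : InDnForm f 1 (b.map (MvPowerSeries.C (σ := Fin n) (R := ℂ)))) :
    b.eval (((-(((∑ i, a i : ℕ) : ℚ) / D) : ℚ)) : ℂ) = 0 := by
  have hA0 : 0 < ∑ i, a i := Finset.sum_pos (fun i _ => ha i) ⟨⟨0, hn⟩, Finset.mem_univ _⟩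
  have hc : (0 : ℝ) < ((∑ i, a i : ℕ) : ℝ) / D := by
    have h1 : (0 : ℝ) < ((∑ i, a i : ℕ) : ℝ) := by exact_mod_cast hA0
    have h2 : (0 : ℝ) < D := by exact_mod_cast hD
    exact div_pos h1 h2
  obtain ⟨r, hr, hint⟩ := hlct
  have h := root_of_lct_form hb hr hc ?_ ?_
  · rw [← h]
    push_cast
    rfl
  · intro t ht ht0
    have h1 := hint (-t) (by linarith) (by linarith)
    refine h1.congr_fun (fun x _ => ?_) Metric.isOpen_ball.measurableSet
    simp only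
    rw [norm_eval_eq, ← Real.rpow_mul (NN_nonneg f x)]
    congr 1
    ring
  · intro r' hr'
    exact not_integrableOn_of_lowW ha hD hn hf hlow hr'

end MPb07157.Lct
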