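import Pool.Agent.Lib.MP_b07157_agYW.Defs
import Pool.Agent.Lib.MP_b07157_agYV.ChV

/-!
# The chart in the coordinates of the normal form
-/

noncomputable section

namespace MPb07157

open MvPolynomial

namespace YW

open YV YG YG.ChGaux

/-- The chart as a family of power series. -/
theorem coe_chW {n : ℕ} (a : Fin (n + 1) → ℕ) (q : Fin (n + 1) → ℂ) (j₀ i : Fin (n + 1)) :
    ((chW a q j₀ i : MvPolynomial (Fin (n + 1)) ℂ) : MvPowerSeries (Fin (n + 1)) ℂ) =
      MvPowerSeries.X 0 ^ a i * chS q j₀ i := by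
  unfold chW chS
  rw [MvPolynomial.coe_mul, MvPolynomial.coe_pow, MvPolynomial.coe_X]
  refine congrArg (fun y => MvPowerSeries.X 0 ^ a i * y) ?_
  refine Fin.succAboveCases j₀ ?_ (fun l => ?_) i
  · rw [Fin.insertNth_apply_same, Fin.insertNth_apply_same, MvPolynomial.coe_one]
  · rw [Fin.insertNth_apply_succAbove, Fin.insertNth_apply_succAbove, MvPolynomial.coe_add,
      MvPolynomial.coe_X, MvPolynomial.coe_C]
    rfl

/-- The Jacobian determinant of `chW`: the row `j₀` is `(a_{j₀} x_0^(a_{j₀} - 1), 0, …, 0)`, the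
complementary minor is the determinant of the diagonal matrix of the `x_0^(a_i)`. As
`YG.ChGaux.det_chS` (`agYG/ChG.lean`). -/
theorem det_chW {n : ℕ} (a : Fin (n + 1) → ℕ) (ha : ∀ i, 0 < a i) (q : Fin (n + 1) → ℂ)
    (j₀ : Fin (n + 1)) :
    (Matrix.of fun i j : Fin (n + 1) => MvPowerSeries.pderiv ℂ j
      (chW a q j₀ i : MvPowerSeries (Fin (n + 1)) ℂ)).det =
      MvPowerSeries.X 0 ^ (∑ j, a j - 1) *
        ((-1) ^ (j₀ : ℕ) * MvPowerSeries.C ((a j₀ : ℕ) : ℂ)) := by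
  have h1 : chS q j₀ j₀ = 1 := by
    unfold chS
    rw [Fin.insertNth_apply_same]
  have hrow : ∀ j, MvPowerSeries.pderiv ℂ j
      (chW a q j₀ j₀ : MvPowerSeries (Fin (n + 1)) ℂ) =
      (a j₀ : ℕ) • (MvPowerSeries.X 0 ^ (a j₀ - 1) *
        (if j = 0 then (1 : MvPowerSeries (Fin (n + 1)) ℂ) else 0)) := by
    intro j
    rw [coe_chW, h1, mul_one, Derivation.leibniz_pow, pderiv_X, smul_eq_mul]
  rw [Matrix.det_succ_row _ j₀, Finset.sum_eq_single 0]
  · have h2 : (Matrix.of fun i j : Fin (n + 1) => MvPowerSeries.pderiv ℂ j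
        (chW a q j₀ i : MvPowerSeries (Fin (n + 1)) ℂ)).submatrix
          j₀.succAbove (0 : Fin (n + 1)).succAbove =
        Matrix.diagonal fun l : Fin n =>
          (MvPowerSeries.X 0 ^ a (j₀.succAbove l) : MvPowerSeries (Fin (n + 1)) ℂ) := by
      ext1 l m
      rw [Matrix.submatrix_apply, Matrix.of_apply, Fin.zero_succAbove, coe_chW]
      have h3 : chS q j₀ (j₀.succAbove l) =
          MvPowerSeries.X l.succ + algebraMap ℂ _ (q (j₀.succAbove l)) := by
        unfold chS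
        rw [Fin.insertNth_apply_succAbove]
      rw [h3, Derivation.leibniz, map_add, Derivation.map_algebraMap, add_zero, pderiv_X,
        Derivation.leibniz_pow, pderiv_X, if_neg (Fin.succ_ne_zero m), smul_zero, smul_zero,
        smul_zero, add_zero, smul_eq_mul, Matrix.diagonal_apply]
      by_cases h4 : l = m
      · rw [if_pos h4, if_pos (congrArg Fin.succ h4.symm), mul_one]
      · rw [if_neg h4, if_neg (fun h5 => h4 (Fin.succ_injective _ h5).symm), mul_zero]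
    have h3 : ∑ j, a j - 1 = (a j₀ - 1) + ∑ l, a (j₀.succAbove l) := by
      rw [Fin.sum_univ_succAbove _ j₀]
      have h4 := ha j₀
      omega
    rw [h2, Matrix.det_diagonal, Finset.prod_pow_eq_pow_sum, Matrix.of_apply, hrow, if_pos rfl,
      mul_one, Fin.val_zero, add_zero, h3, pow_add, nsmul_eq_mul, map_natCast]
    ring
  · intro j _ hj
    rw [Matrix.of_apply, hrow, if_neg hj, mul_zero, smul_zero, mul_zero, zero_mul]
  · intro h
    exact absurd (Finset.mem_univ _) h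

/-- As `YV.exists_chartV` (`agYV/ChV.lean`) and `YG.exists_chartG` (`agYG/ChG.lean`):
`ξ_i = E⁻¹(chW_i)`, `E⁻¹(x_0) = x_0 w'` with a unit `w'`. -/
theorem exists_chartW {n : ℕ} {f : MvPolynomial (Fin (n + 1)) ℂ} {a : Fin (n + 1) → ℕ}
    (ha : ∀ i, 0 < a i) {D : ℕ} {q : Fin (n + 1) → ℂ} {j₀ : Fin (n + 1)}
    {h G : MvPolynomial (Fin (n + 1)) ℂ} (hh : aeval (chW a q j₀) f = X 0 ^ D * h)
    (he : UEqV (h : MvPowerSeries (Fin (n + 1)) ℂ) G) :
    ∃ (ξ : Fin (n + 1) → MvPowerSeries (Fin (n + 1)) ℂ) (U J : MvPowerSeries (Fin (n + 1)) ℂ),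
      IsChartW f D (∑ j, a j - 1) G ξ U J := by
  obtain ⟨E, u, w, h1, h2⟩ := he
  have hcc : ∀ {x : MvPowerSeries (Fin (n + 1)) ℂ}, IsUnit x →
      MvPowerSeries.constantCoeff x ≠ 0 := by
    intro x hx
    exact (hx.map (MvPowerSeries.constantCoeff (σ := Fin (n + 1)) (R := ℂ))).ne_zero
  -- the image of the first variable
  obtain ⟨w', hw', hw1⟩ : ∃ w' : MvPowerSeries (Fin (n + 1)) ℂ, IsUnit w' ∧
      E.symm (MvPowerSeries.X 0) = MvPowerSeries.X 0 * w' := by
    refine ⟨E.symm (↑(w⁻¹) : MvPowerSeries (Fin (n + 1)) ℂ), (w⁻¹).isUnit.map E.symm, ?_⟩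
    have h3 : (MvPowerSeries.X 0 : MvPowerSeries (Fin (n + 1)) ℂ) =
        E.symm (MvPowerSeries.X 0) * E.symm (w : MvPowerSeries (Fin (n + 1)) ℂ) := by
      rw [← map_mul, ← h2, AlgEquiv.symm_apply_apply]
    have h4 : E.symm (w : MvPowerSeries (Fin (n + 1)) ℂ) *
        E.symm (↑(w⁻¹) : MvPowerSeries (Fin (n + 1)) ℂ) = 1 := by
      rw [← map_mul, Units.mul_inv, map_one]
    calc E.symm (MvPowerSeries.X 0) = E.symm (MvPowerSeries.X 0) *
          (E.symm (w : MvPowerSeries (Fin (n + 1)) ℂ) *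
            E.symm (↑(w⁻¹) : MvPowerSeries (Fin (n + 1)) ℂ)) := by rw [h4, mul_one]
      _ = _ := by rw [← mul_assoc, ← h3]
  have hC : E.symm (MvPowerSeries.C ((a j₀ : ℕ) : ℂ)) = MvPowerSeries.C ((a j₀ : ℕ) : ℂ) := by
    rw [map_natCast, map_natCast]
  refine ⟨fun i => E.symm ((chW a q j₀ i : MvPolynomial (Fin (n + 1)) ℂ) :
      MvPowerSeries (Fin (n + 1)) ℂ),
    w' ^ D * E.symm (u : MvPowerSeries (Fin (n + 1)) ℂ),
    w' ^ (∑ j, a j - 1) * ((-1) ^ (j₀ : ℕ) * MvPowerSeries.C ((a j₀ : ℕ) : ℂ)) *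
      (Matrix.of fun k j : Fin (n + 1) => MvPowerSeries.pderiv ℂ j
        (E.symm (MvPowerSeries.X k : MvPowerSeries (Fin (n + 1)) ℂ))).det, ?_, ?_, ?_, ?_, ?_⟩
  · exact hcc ((hw'.pow D).mul (u.isUnit.map E.symm))
  · refine hcc (((hw'.pow _).mul ((IsUnit.pow _ ?_).mul ?_)).mul (isUnit_det E.symm))
    · exact isUnit_one.neg
    · exact (IsUnit.mk0 _ (Nat.cast_ne_zero.2 (ha j₀).ne')).map _
  · intro i
    show MvPowerSeries.constantCoeff (E.symm _) = 0
    rw [coe_chW, map_mul, map_pow, hw1, mul_pow, map_mul, map_mul, map_pow,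
      MvPowerSeries.constantCoeff_X, zero_pow (ha i).ne', zero_mul, zero_mul]
  · rw [MvPowerSeries.subst_coe]
    have h5 := congrArg (fun p : MvPolynomial (Fin (n + 1)) ℂ =>
      (p : MvPowerSeries (Fin (n + 1)) ℂ)) hh
    have h6 : ((aeval (chW a q j₀) f : MvPolynomial (Fin (n + 1)) ℂ) :
        MvPowerSeries (Fin (n + 1)) ℂ) =
        aeval (fun i => ((chW a q j₀ i : MvPolynomial (Fin (n + 1)) ℂ) :
          MvPowerSeries (Fin (n + 1)) ℂ)) f := by
      have h7 : (MvPolynomial.coeToMvPowerSeries.ringHom (R := ℂ) (σ := Fin (n + 1))).comp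
          ((aeval (chW a q j₀) : MvPolynomial (Fin (n + 1)) ℂ →ₐ[ℂ]
            MvPolynomial (Fin (n + 1)) ℂ) : MvPolynomial (Fin (n + 1)) ℂ →+* _) =
          ((aeval (fun i => ((chW a q j₀ i : MvPolynomial (Fin (n + 1)) ℂ) :
            MvPowerSeries (Fin (n + 1)) ℂ)) :
            MvPolynomial (Fin (n + 1)) ℂ →ₐ[ℂ] MvPowerSeries (Fin (n + 1)) ℂ) :
              MvPolynomial (Fin (n + 1)) ℂ →+* _) := by
        refine MvPolynomial.ringHom_ext (fun c => ?_) (fun i => ?_)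
        · rw [RingHom.comp_apply, RingHom.coe_coe, RingHom.coe_coe, aeval_C, aeval_C]
          rw [MvPolynomial.algebraMap_eq, MvPolynomial.coeToMvPowerSeries.ringHom_apply,
            MvPolynomial.coe_C]
          rfl
        · rw [RingHom.comp_apply, RingHom.coe_coe, RingHom.coe_coe, aeval_X, aeval_X,
            MvPolynomial.coeToMvPowerSeries.ringHom_apply]
      exact congrArg (fun φ : MvPolynomial (Fin (n + 1)) ℂ →+*
        MvPowerSeries (Fin (n + 1)) ℂ => φ f) h7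
    have h9 := congrArg E.symm (h6.symm.trans h5)
    have h10 := MvPolynomial.comp_aeval_apply
      (fun i => ((chW a q j₀ i : MvPolynomial (Fin (n + 1)) ℂ) : MvPowerSeries (Fin (n + 1)) ℂ))
      (E.symm : MvPowerSeries (Fin (n + 1)) ℂ →ₐ[ℂ] MvPowerSeries (Fin (n + 1)) ℂ) f
    have h11 : aeval (fun i => E.symm ((chW a q j₀ i : MvPolynomial (Fin (n + 1)) ℂ) :
        MvPowerSeries (Fin (n + 1)) ℂ)) f =
        E.symm (aeval (fun i => ((chW a q j₀ i : MvPolynomial (Fin (n + 1)) ℂ) :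
          MvPowerSeries (Fin (n + 1)) ℂ)) f) := h10.symm
    rw [h11, h9]
    show E.symm ((X 0 ^ D * h : MvPolynomial (Fin (n + 1)) ℂ) :
      MvPowerSeries (Fin (n + 1)) ℂ) = _
    rw [MvPolynomial.coe_mul, MvPolynomial.coe_pow, MvPolynomial.coe_X, h1, map_mul, map_pow, hw1,
      map_mul, AlgEquiv.symm_apply_apply]
    ring
  · have h5 := det_equiv E.symm (fun i => ((chW a q j₀ i : MvPolynomial (Fin (n + 1)) ℂ) :
      MvPowerSeries (Fin (n + 1)) ℂ))
    rw [h5, det_chW a ha q j₀, map_mul, map_mul, map_pow, map_pow, map_neg, map_one, hw1, hC]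
    ring

end YW

end MPb07157
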