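import Pool.Agent.Lib.MP_b07157_agYW.Defs

/-!
# Representatives of the critical orbits
-/

noncomputable section

namespace MPb07157

open MvPolynomial

namespace YW

open YV

variable {n : ℕ} {f : MvPolynomial (Fin n) ℂ} {a : Fin n → ℕ} {D : ℕ}

/-! ### Orbits -/

theorem rw_sc_one (c : Fin n → ℂ) : sc a 1 c = c := by
  funext i
  simp [sc]

theorem rw_sc_sc (s t : ℂ) (c : Fin n → ℂ) : sc a s (sc a t c) = sc a (s * t) c := by
  funext i
  simp only [sc, mul_pow]
  ring

theorem rw_orb_self (c : Fin n → ℂ) : c ∈ orb a c := ⟨1, one_ne_zero, (rw_sc_one c).symm⟩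

theorem rw_orb_symm {c q : Fin n → ℂ} (h : c ∈ orb a q) : q ∈ orb a c := by
  obtain ⟨t, ht, rfl⟩ := h
  exact ⟨t⁻¹, inv_ne_zero ht, by rw [rw_sc_sc, inv_mul_cancel₀ ht, rw_sc_one]⟩

theorem rw_orb_trans {c q p : Fin n → ℂ} (h : c ∈ orb a q) (h' : q ∈ orb a p) : c ∈ orb a p := by
  obtain ⟨t, ht, rfl⟩ := h
  obtain ⟨s, hs, rfl⟩ := h'
  exact ⟨t * s, mul_ne_zero ht hs, by rw [rw_sc_sc]⟩

theorem rw_LF_hom : (LF f a D).IsWeightedHomogeneous a D := by
  unfold LF inForm
  refine Submodule.sum_mem (weightedHomogeneousSubmodule ℂ a D) fun v hv => ?_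
  rw [mem_weightedHomogeneousSubmodule]
  refine isWeightedHomogeneous_monomial a v _ ?_
  have h1 : MPb07157.wt a v = D := (Finset.mem_filter.1 hv).2
  rw [← h1, Finsupp.weight_apply, Finsupp.sum_fintype _ _ (fun i => by simp)]
  unfold MPb07157.wt
  exact Finset.sum_congr rfl fun j _ => by rw [smul_eq_mul, mul_comm]

theorem rw_eval_sc {p : MvPolynomial (Fin n) ℂ} {e : ℕ} (hp : p.IsWeightedHomogeneous a e)
    (t : ℂ) (q : Fin n → ℂ) : eval (sc a t q) p = t ^ e * eval q p := by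
  classical
  rw [eval_eq', eval_eq', Finset.mul_sum]
  refine Finset.sum_congr rfl fun v hv => ?_
  have h1 : ∑ i, a i * v i = e := by
    have h2 := hp (mem_support_iff.1 hv)
    rw [Finsupp.weight_apply, Finsupp.sum_fintype _ _ (fun i => by simp)] at h2
    rw [← h2]
    exact Finset.sum_congr rfl fun j _ => by rw [smul_eq_mul, mul_comm]
  have h3 : ∏ i, sc a t q i ^ v i = t ^ e * ∏ i, q i ^ v i := by
    simp only [sc, mul_pow, ← pow_mul]
    rw [Finset.prod_mul_distrib, Finset.prod_pow_eq_pow_sum, h1]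
  rw [h3]
  ring

theorem rw_crit (H : WC f a D) {q c : Fin n → ℂ}
    (hq : ∀ j, eval q (pderiv j (LF f a D)) = 0) (hc : c ∈ orb a q) :
    ∀ j, eval c (pderiv j (LF f a D)) = 0 := by
  intro j
  obtain ⟨t, -, rfl⟩ := hc
  have h1 : (pderiv j (LF f a D)).IsWeightedHomogeneous a (D - a j) := by
    refine IsWeightedHomogeneous.pderiv rw_LF_hom ?_
    have := H.haD j
    omega
  rw [rw_eval_sc h1, hq j, mul_zero]

theorem rw_ne_zero {q c : Fin n → ℂ} (hc : c ∈ orb a q) (hc0 : c ≠ 0) : q ≠ 0 := by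
  rintro rfl
  obtain ⟨t, -, rfl⟩ := hc
  apply hc0
  funext i
  simp [sc]

/-- Representatives of the critical orbits. -/
theorem exists_repsW (H : WC f a D) :
    ∃ P : Finset (Fin n → ℂ), (∀ q ∈ P, (∃ j, q j = 1) ∧ ∀ j, eval q (pderiv j (LF f a D)) = 0) ∧
      (∀ p ∈ P, ∀ q ∈ P, p ≠ q → Disjoint (orb a p) (orb a q)) ∧
      ∀ c, c ≠ 0 → (∀ j, eval c (pderiv j (LF f a D)) = 0) → ∃ q ∈ P, c ∈ orb a q := by
  classical
  have key : ∀ P : Finset (Fin n → ℂ), ∃ P' : Finset (Fin n → ℂ),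
      (∀ q ∈ P', (∃ j, q j = 1) ∧ ∀ j, eval q (pderiv j (LF f a D)) = 0) ∧
      (∀ p ∈ P', ∀ q ∈ P', p ≠ q → Disjoint (orb a p) (orb a q)) ∧
      ∀ c, c ≠ 0 → (∀ j, eval c (pderiv j (LF f a D)) = 0) → (∃ p ∈ P, c ∈ orb a p) →
        ∃ q ∈ P', c ∈ orb a q := by
    intro P
    induction P using Finset.induction_on with
    | empty =>
      refine ⟨∅, fun q hq => absurd hq (Finset.notMem_empty q),
        fun q hq => absurd hq (Finset.notMem_empty q), ?_⟩
      rintro q - - ⟨p, hp, -⟩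
      exact absurd hp (Finset.notMem_empty p)
    | insert x P hx ih =>
      obtain ⟨P', h1, h2, h3⟩ := ih
      by_cases hc : ∃ q, q ≠ 0 ∧ (∀ j, eval q (pderiv j (LF f a D)) = 0) ∧ q ∈ orb a x ∧
          ∀ p ∈ P', q ∉ orb a p
      · obtain ⟨q, hq0, hqS, hqx, hqP⟩ := hc
        obtain ⟨j, hj⟩ := Function.ne_iff.1 hq0
        simp only [Pi.zero_apply] at hj
        obtain ⟨t, ht⟩ := IsAlgClosed.exists_pow_nat_eq (q j)⁻¹ (H.ha j)
        have ht0 : t ≠ 0 := by
          rintro rfl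
          rw [zero_pow (H.ha j).ne'] at ht
          exact inv_ne_zero hj ht.symm
        set b : Fin n → ℂ := sc a t q with hb
        have hbj : b j = 1 := by
          rw [hb]
          simp only [sc]
          rw [ht, inv_mul_cancel₀ hj]
        have hbq : b ∈ orb a q := ⟨t, ht0, hb⟩
        have hbS := rw_crit H hqS hbq
        have hdis : ∀ p ∈ P', Disjoint (orb a b) (orb a p) := by
          intro p hp
          rw [Set.disjoint_left]
          intro y hyb hyp
          exact hqP p hp (rw_orb_trans (rw_orb_symm hbq) (rw_orb_trans (rw_orb_symm hyb) hyp))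
        refine ⟨insert b P', ?_, ?_, ?_⟩
        · intro y hy
          rcases Finset.mem_insert.1 hy with rfl | hy
          · exact ⟨⟨j, hbj⟩, hbS⟩
          · exact h1 y hy
        · intro y hy y' hy' hne
          rcases Finset.mem_insert.1 hy with rfl | hy
          · rcases Finset.mem_insert.1 hy' with rfl | hy'
            · exact absurd rfl hne
            · exact hdis y' hy'
          · rcases Finset.mem_insert.1 hy' with rfl | hy'
            · exact (hdis y hy).symm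
            · exact h2 y hy y' hy' hne
        · rintro c hc0 hcS ⟨p, hp, hcp⟩
          rcases Finset.mem_insert.1 hp with rfl | hp
          · exact ⟨b, Finset.mem_insert_self _ _,
              rw_orb_trans hcp (rw_orb_trans (rw_orb_symm hqx) (rw_orb_symm hbq))⟩
          · obtain ⟨p', hp', hc'⟩ := h3 c hc0 hcS ⟨p, hp, hcp⟩
            exact ⟨p', Finset.mem_insert_of_mem hp', hc'⟩
      · push Not at hc
        refine ⟨P', h1, h2, ?_⟩
        rintro c hc0 hcS ⟨p, hp, hcp⟩
        rcases Finset.mem_insert.1 hp with rfl | hp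
        · exact hc c hc0 hcS hcp
        · exact h3 c hc0 hcS ⟨p, hp, hcp⟩
  obtain ⟨P, hP⟩ := H.fin
  obtain ⟨P', h1, h2, h3⟩ := key P
  refine ⟨P', h1, h2, fun c hc0 hcS => h3 c hc0 hcS ?_⟩
  obtain ⟨p, hp, t, hct⟩ := hP c hc0 hcS
  refine ⟨p, hp, t, ?_, hct⟩
  rintro rfl
  apply hc0
  rw [hct]
  funext i
  simp [sc, zero_pow (H.ha i).ne']

/-! ### The orbits are constructible -/

theorem rw_bezout (a : Fin n → ℕ) (S : Finset (Fin n)) :
    ∃ u : Fin n → ℤ, ∑ i ∈ S, u i * a i = (S.gcd a : ℕ) := by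
  classical
  induction S using Finset.induction_on with
  | empty => exact ⟨fun _ => 0, by simp⟩
  | insert x S hx ih =>
    obtain ⟨u, hu⟩ := ih
    refine ⟨fun i => if i = x then Nat.gcdA (a x) (S.gcd a) else Nat.gcdB (a x) (S.gcd a) * u i, ?_⟩
    have h1 : ∑ i ∈ S, (if i = x then Nat.gcdA (a x) (S.gcd a) else
        Nat.gcdB (a x) (S.gcd a) * u i) * a i = Nat.gcdB (a x) (S.gcd a) * (S.gcd a : ℕ) := by
      rw [← hu, Finset.mul_sum]
      refine Finset.sum_congr rfl fun i hi => ?_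
      have hne : i ≠ x := by
        rintro rfl
        exact hx hi
      rw [if_neg hne]
      ring
    rw [Finset.sum_insert hx, h1, Finset.gcd_insert]
    simp only [if_true]
    have h2 := Nat.gcd_eq_gcd_ab (a x) (S.gcd a)
    have h3 : (GCDMonoid.gcd (a x) (S.gcd a) : ℕ) = Nat.gcd (a x) (S.gcd a) := rfl
    rw [h3, h2]
    ring

theorem rw_toNat {r : ℂ} (hr : r ≠ 0) (m : ℤ) : r ^ m.toNat = r ^ m * r ^ (-m).toNat := by
  have h1 : (m.toNat : ℤ) = m + ((-m).toNat : ℤ) := by omega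
  have h2 : r ^ (m.toNat : ℤ) = r ^ (m + ((-m).toNat : ℤ)) := by rw [h1]
  rw [zpow_add₀ hr, zpow_natCast, zpow_natCast] at h2
  exact h2

theorem isConstr_orb (ha : ∀ i, 0 < a i) {q : Fin n → ℂ} (hq : q ≠ 0) : IsConstr (orb a q) := by
  classical
  set S : Finset (Fin n) := Finset.univ.filter fun i => q i ≠ 0 with hS
  have hmS : ∀ i, i ∈ S ↔ q i ≠ 0 := fun i => by simp [hS]
  obtain ⟨u, hu⟩ := rw_bezout a S
  set g : ℕ := S.gcd a with hg
  have hgd : ∀ i ∈ S, g ∣ a i := fun i hi => Finset.gcd_dvd hi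
  have hg0 : 0 < g := by
    obtain ⟨i, hi⟩ := Function.ne_iff.1 hq
    simp only [Pi.zero_apply] at hi
    exact Nat.pos_of_dvd_of_pos (hgd i ((hmS i).2 hi)) (ha i)
  set b : Fin n → ℕ := fun i => a i / g with hb
  have hab : ∀ i ∈ S, a i = g * b i := fun i hi => (Nat.mul_div_cancel' (hgd i hi)).symm
  -- the equations of the orbit
  have h : orb a q = {c | (∀ i ∈ (Finset.univ : Finset (Fin n)), q i = 0 → c i = 0) ∧
      (∀ i ∈ (Finset.univ : Finset (Fin n)), q i ≠ 0 → c i ≠ 0) ∧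
      ∀ i ∈ S, ((q i)⁻¹ * c i) * ∏ j ∈ S, ((q j)⁻¹ * c j) ^ (-(u j * b i)).toNat -
        ∏ j ∈ S, ((q j)⁻¹ * c j) ^ (u j * b i).toNat = 0} := by
    ext c
    -- the third condition if all the coordinates are different from zero
    have key : (∀ j ∈ S, c j ≠ 0) → ∀ i, (((q i)⁻¹ * c i) * ∏ j ∈ S,
        ((q j)⁻¹ * c j) ^ (-(u j * b i)).toNat - ∏ j ∈ S, ((q j)⁻¹ * c j) ^ (u j * b i).toNat = 0 ↔
        (q i)⁻¹ * c i = (∏ j ∈ S, ((q j)⁻¹ * c j) ^ u j) ^ b i) := by
      intro hc i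
      have hr : ∀ j ∈ S, (q j)⁻¹ * c j ≠ 0 := fun j hj =>
        mul_ne_zero (inv_ne_zero ((hmS j).1 hj)) (hc j hj)
      have e1 : ∏ j ∈ S, ((q j)⁻¹ * c j) ^ (u j * b i).toNat =
          (∏ j ∈ S, ((q j)⁻¹ * c j) ^ u j) ^ b i *
            ∏ j ∈ S, ((q j)⁻¹ * c j) ^ (-(u j * b i)).toNat := by
        rw [← Finset.prod_pow, ← Finset.prod_mul_distrib]
        refine Finset.prod_congr rfl fun j hj => ?_
        rw [rw_toNat (hr j hj), zpow_mul, zpow_natCast]
      have e2 : ∏ j ∈ S, ((q j)⁻¹ * c j) ^ (-(u j * b i)).toNat ≠ 0 :=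
        Finset.prod_ne_zero_iff.2 fun j hj => pow_ne_zero _ (hr j hj)
      rw [e1, sub_eq_zero]
      constructor
      · intro h
        exact mul_right_cancel₀ e2 h
      · intro h
        rw [h]
    constructor
    · rintro ⟨t, ht, rfl⟩
      have hne : ∀ j ∈ S, sc a t q j ≠ 0 := fun j hj =>
        mul_ne_zero (pow_ne_zero _ ht) ((hmS j).1 hj)
      refine ⟨fun i _ hi => ?_, fun i _ hi => hne i ((hmS i).2 hi), fun i hi => ?_⟩
      · simp only [sc, hi, mul_zero]
      · rw [key hne]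
        have e1 : ∀ j ∈ S, (q j)⁻¹ * sc a t q j = t ^ a j := by
          intro j hj
          simp only [sc]
          rw [mul_left_comm, inv_mul_cancel₀ ((hmS j).1 hj), mul_one]
        have e2 : ∏ j ∈ S, ((q j)⁻¹ * sc a t q j) ^ u j = t ^ g := by
          have e3 : ∀ j ∈ S, ((q j)⁻¹ * sc a t q j) ^ u j = t ^ (u j * a j) := by
            intro j hj
            rw [e1 j hj, ← zpow_natCast, ← zpow_mul, mul_comm]
          rw [Finset.prod_congr rfl e3]
          have e4 : ∀ T : Finset (Fin n), ∏ j ∈ T, t ^ (u j * a j) = t ^ (∑ j ∈ T, u j * a j) := by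
            intro T
            induction T using Finset.induction_on with
            | empty => simp
            | insert x T hx ih =>
              rw [Finset.prod_insert hx, Finset.sum_insert hx, ih, zpow_add₀ ht]
          rw [e4 S, hu, zpow_natCast]
        rw [e1 i hi, e2, ← pow_mul, ← hab i hi]
    · rintro ⟨h1, h2, h3⟩
      have hne : ∀ j ∈ S, c j ≠ 0 := fun j hj => h2 j (Finset.mem_univ _) ((hmS j).1 hj)
      set ρ : ℂ := ∏ j ∈ S, ((q j)⁻¹ * c j) ^ u j with hρ
      have hρ0 : ρ ≠ 0 := Finset.prod_ne_zero_iff.2 fun j hj => zpow_ne_zero _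
        (mul_ne_zero (inv_ne_zero ((hmS j).1 hj)) (hne j hj))
      obtain ⟨t, ht⟩ := IsAlgClosed.exists_pow_nat_eq ρ hg0
      have ht0 : t ≠ 0 := by
        rintro rfl
        rw [zero_pow hg0.ne'] at ht
        exact hρ0 ht.symm
      refine ⟨t, ht0, ?_⟩
      funext i
      simp only [sc]
      by_cases hi : q i = 0
      · rw [h1 i (Finset.mem_univ _) hi, hi, mul_zero]
      · have hiS := (hmS i).2 hi
        have h4 := (key hne i).1 (h3 i hiS)
        rw [hab i hiS, pow_mul, ht, ← h4, mul_comm, mul_inv_cancel_left₀ hi]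
  rw [h]
  refine isConstr_setOf_and (isConstr_forall_mem _ _ fun i _ => ?_)
    (isConstr_setOf_and (isConstr_forall_mem _ _ fun i _ => ?_) (isConstr_forall_mem _ _ fun i _ => ?_))
  · refine isConstr_setOf_imp (isConstr_const _) ?_
    have := isConstr_eq_zero (X i : MvPolynomial (Fin n) ℂ)
    simpa using this
  · refine isConstr_setOf_imp (isConstr_const _) ?_
    have := isConstr_ne_zero (X i : MvPolynomial (Fin n) ℂ)
    simpa using this
  · have := isConstr_eq_zero ((C (q i)⁻¹ * X i) * ∏ j ∈ S, (C (q j)⁻¹ * X j) ^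
      (-(u j * b i)).toNat - ∏ j ∈ S, (C (q j)⁻¹ * X j) ^ (u j * b i).toNat :
        MvPolynomial (Fin n) ℂ)
    simpa only [map_sub, map_mul, map_prod, map_pow, eval_C, eval_X] using this

end YW

end MPb07157
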