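import Pool.Agent.Lib.MP_b07157_agYW.Defs
import Pool.Agent.Lib.MP_b07157_agYV.Per

/-!
# The smooth part
-/

noncomputable section

namespace MPb07157

open MvPolynomial

namespace YW

open YV

variable {n : ℕ} {f : MvPolynomial (Fin n) ℂ} {a : Fin n → ℕ} {D : ℕ}

private theorem smo_li (a : ℕ) : li ^ a * (LU : Mot) ^ a = 1 := by
  have h : li * (LU : Mot) = 1 := Units.inv_mul LU
  rw [← mul_pow, h, one_pow]

/-- The dependence of `Sq.aP` on the orders. -/
private theorem smo_core {m : ℕ} {f : MvPolynomial (Fin m) ℂ} {r r' : Fin m → ℕ} {M N' : ℕ}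
    {U : Set (Fin m → ℂ)} (hU : IsConstr U)
    (hx : clsM (Sq.XU f r M U) = clsM (Sq.XU f r' (M + N') U)) (i : ℕ) :
    (LU : Mot) ^ (∑ j, r' j) * Sq.aP f r' (M + N') U (i + N') =
      (LU : Mot) ^ (∑ j, r j) * Sq.aP f r M U i := by
  have h4 := Sq.clsM_YU f r M hU
  have h5 := Sq.clsM_YU f r' (M + N') hU
  rw [← hx, ← h4] at h5
  have h6 : ∀ a : ℕ, (LU : Mot) ^ a * (↑((LU ^ (m + a))⁻¹) : Mot) = ↑((LU ^ m)⁻¹) := by
    intro a
    rw [← Units.val_pow_eq_pow_val, ← Units.val_mul]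
    congr 1
    rw [pow_add, mul_inv, mul_comm (LU ^ m)⁻¹, ← mul_assoc, mul_inv_cancel, one_mul]
  unfold Sq.aP
  rw [← mul_assoc, ← mul_assoc, h6, h6, h5, ← hx]
  congr 1
  rcases lt_trichotomy i M with h7 | h7 | h7
  · rw [if_pos h7, if_pos (by omega)]
  · rw [if_neg (by omega), if_pos (by omega), if_neg (by omega), if_pos h7]
  · rw [if_neg (by omega), if_neg (by omega), if_neg (by omega), if_neg (by omega)]
    congr 2
    omega

theorem numW (ha : ∀ i, 0 < a i) {p : ℕ} (hp : 0 < p) :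
    NumR a D (Sq.Wt a) p (Sq.rP a p) (Sq.dP a p) (Sq.MP a D p) (Sq.KP a D p) Finset.univ := by
  have h := Sq.num_P (N := D) ha hp
  exact ⟨h.hp, h.hr, fun j _ => h.hd j, h.hM, h.hK⟩

theorem guW (f : MvPolynomial (Fin n) ℂ) (a : Fin n → ℕ) (D p : ℕ) :
    Gu f a D (Sq.dP a p) Finset.univ (UW f a D p) := by
  refine ⟨?_, ?_, ?_⟩
  · have h1 : IsConstr {c : Fin n → ℂ | ∃ j ∈ (Finset.univ : Finset (Fin n)),
        eval (Sq.pr (Sq.dP a p) c) (pderiv j (LF f a D)) ≠ 0} :=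
      isConstr_exists_mem _ _ fun j _ => isConstr_setOf_not (Sq.isConstr_pr _ _)
    have h2 := isConstr_setOf_and (Sq.isConstr_Ud (Sq.dP a p)) h1
    have h3 : UW f a D p = {c | c ∈ Sq.Ud (Sq.dP a p) ∧ c ∈ {c : Fin n → ℂ |
        ∃ j ∈ (Finset.univ : Finset (Fin n)),
          eval (Sq.pr (Sq.dP a p) c) (pderiv j (LF f a D)) ≠ 0}} := by
      ext c
      simp only [UW, Set.mem_ofPred_eq, Finset.mem_univ, true_and]
    rw [h3]
    exact h2
  · rintro c ⟨-, j, hj⟩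
    exact ⟨j, Finset.mem_univ j, hj⟩
  · rintro c ⟨⟨i, hi, hci⟩, j', hj'⟩ j - hj t
    have hpr : Sq.pr (Sq.dP a p) (Function.update c j t) = Sq.pr (Sq.dP a p) c := by
      funext l
      unfold Sq.pr
      by_cases hl : Sq.dP a p l = 0
      · rw [if_pos hl, if_pos hl, Function.update_of_ne]
        rintro rfl
        exact hj hl
      · rw [if_neg hl, if_neg hl]
    refine ⟨⟨i, hi, ?_⟩, j', ?_⟩
    · rw [Function.update_of_ne]
      · exact hci
      · rintro rfl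
        exact hj hi
    · rw [hpr]
      exact hj'

/-- For the fractional orders the part of weight `D` is smooth at all leading coefficients: if
`pr c`, `c ∈ Ud`, is a critical point, then `W ∣ a_i p` for all `i` with `(pr c)_i ≠ 0`, so
`W / gcd(W, p)` divides these `a_i`, and it is one by `WC.free`. -/
theorem UW_eq_Ud (H : WC0 f a D) {p : ℕ} (hp : ¬ Sq.Wt a ∣ p) :
    UW f a D p = Sq.Ud (Sq.dP a p) := by
  have hW := Sq.Wt_pos H.ha
  ext c
  refine ⟨fun h => h.1, fun h => ⟨h, ?_⟩⟩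
  by_contra hcon
  push Not at hcon
  have hfree := H.free _ (Sq.pr_ne_zero h) hcon
  apply hp
  have hg : 0 < Nat.gcd (Sq.Wt a) p := Nat.gcd_pos_of_pos_left p hW
  have h1 := hfree (Sq.Wt a / Nat.gcd (Sq.Wt a) p) (fun i hi => by
    have hd : Sq.dP a p i = 0 := by
      by_contra hne
      apply hi
      unfold Sq.pr
      rw [if_neg hne]
    have h2 := Sq.cei_spec hW (a i * p)
    have h3 : Sq.Wt a * Sq.rP a p i = a i * p := by
      unfold Sq.dP at hd
      unfold Sq.rP at hd ⊢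
      omega
    have h4 : Sq.Wt a ∣ a i * p := ⟨_, h3.symm⟩
    have h5 : Nat.Coprime (Sq.Wt a / Nat.gcd (Sq.Wt a) p) (p / Nat.gcd (Sq.Wt a) p) :=
      Nat.coprime_div_gcd_div_gcd hg
    have h6 : Sq.Wt a / Nat.gcd (Sq.Wt a) p ∣ a i * (p / Nat.gcd (Sq.Wt a) p) := by
      rw [← Nat.mul_div_assoc _ (Nat.gcd_dvd_right _ _)]
      exact Nat.div_dvd_div (Nat.gcd_dvd_left _ _) h4
    exact h5.dvd_of_dvd_mul_right h6)
  have h7 : Sq.Wt a = Nat.gcd (Sq.Wt a) p := by
    have h8 := Nat.div_mul_cancel (Nat.gcd_dvd_left (Sq.Wt a) p)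
    rw [h1, one_mul] at h8
    exact h8.symm
  rw [h7]
  exact Nat.gcd_dvd_right _ _

/-- `p = W k`. -/
theorem rP_mul (ha : ∀ i, 0 < a i) (k : ℕ) :
    Sq.rP a (Sq.Wt a * k) = (fun j => a j * k) ∧ Sq.dP a (Sq.Wt a * k) = 0 ∧
      Sq.MP a D (Sq.Wt a * k) = D * k := by
  have hW := Sq.Wt_pos ha
  have h1 : Sq.rP a (Sq.Wt a * k) = fun j => a j * k := by
    funext j
    unfold Sq.rP
    apply Sq.cei_eq hW
    · exact le_of_eq (by ring)
    · have h2 : Sq.Wt a * (a j * k) = a j * (Sq.Wt a * k) := by ring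
      omega
  refine ⟨h1, ?_, ?_⟩
  · funext j
    unfold Sq.dP
    rw [h1]
    have h2 : Sq.Wt a * (a j * k) = a j * (Sq.Wt a * k) := by ring
    simp only [Pi.zero_apply]
    omega
  · unfold Sq.MP
    apply Sq.cei_eq hW
    · exact le_of_eq (by ring)
    · have h2 : Sq.Wt a * (D * k) = Sq.Wt a * k * D := by ring
      omega

/-- As `Sq.AP_add` (`agI/SqP3.lean`), with `NumR.clsM_XU`. -/
theorem aW_add (H : WC0 f a D) {p : ℕ} (hp : 0 < p) (m : ℕ) :
    aW f a D (p + Sq.Wt a) (m + D) = li ^ (∑ j, a j) * aW f a D p m := by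
  have h2 := numW (D := D) H.ha (p := p + Sq.Wt a) (by omega)
  rw [Sq.KP_add H.ha, Sq.dP_add H.ha] at h2
  have h3 := (numW (D := D) H.ha hp).clsM_XU h2 (fun j => Iff.rfl) H.low (guW f a D p)
  rw [Sq.MP_add H.ha] at h3
  have h4 := smo_core (guW f a D p).con h3 m
  have h5 : ∑ j, Sq.rP a (p + Sq.Wt a) j = ∑ j, a j + ∑ j, Sq.rP a p j := by
    rw [← Finset.sum_add_distrib]
    exact Finset.sum_congr rfl fun j _ => by rw [Sq.rP_add H.ha, add_comm]
  have hU : UW f a D (p + Sq.Wt a) = UW f a D p := by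
    unfold UW
    rw [Sq.dP_add H.ha]
  rw [h5] at h4
  unfold aW
  rw [Sq.MP_add H.ha, hU]
  have h6 := congrArg (fun x => li ^ (∑ j, a j + ∑ j, Sq.rP a p j) * x) h4
  rw [← mul_assoc, smo_li, one_mul] at h6
  rw [h6, pow_add li (∑ j, a j), mul_assoc, ← mul_assoc (li ^ ∑ j, Sq.rP a p j), smo_li, one_mul]

theorem aW_lt (H : WC0 f a D) (p : ℕ) {m : ℕ} (hm : m < D) : aW f a D (p + Sq.Wt a) m = 0 := by
  unfold aW Sq.aP
  rw [Sq.MP_add H.ha, if_pos (by omega), mul_zero]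

/-- The series of the smooth part: `mem_of_per` with `b p = mk (aW f a D (p + 1))`. -/
theorem smooth_mem (H : WC0 f a D) {s₀ : ℚ} (h1 : s₀ ≠ -1)
    (h2 : ((∑ j, a j : ℕ) : ℚ) + D * s₀ ≠ 0) :
    (PowerSeries.mk fun m => ∑ p ∈ Finset.range (Sq.Wt a * m), aW f a D (p + 1) m) ∈
      regularAt s₀ := by
  refine mem_of_per (b := fun p => PowerSeries.mk (aW f a D (p + 1))) (W := Sq.Wt a) (D := D)
    (E := ∑ j, a j) (fun p => ?_) (fun m => ⟨Sq.Wt a * m, fun P hP => ?_⟩) H.hD h2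
    (fun p _ => Sq.mk_aP_mem h1 _ _ _ _)
  · ext m
    rw [mul_assoc, PowerSeries.coeff_C_mul, mul_comm (PowerSeries.X ^ D),
      PowerSeries.coeff_mul_X_pow', PowerSeries.coeff_mk]
    have e1 : p + Sq.Wt a + 1 = p + 1 + Sq.Wt a := by omega
    rw [e1]
    split_ifs with hm
    · rw [PowerSeries.coeff_mk, ← aW_add H (Nat.succ_pos p)]
      congr 1
      omega
    · rw [mul_zero]
      exact aW_lt H _ (by omega)
  · simp only [PowerSeries.coeff_mk]
    refine Finset.sum_subset (Finset.range_subset_range.2 hP) fun p _ hp => ?_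
    rw [Finset.mem_range, not_lt] at hp
    have h3 := Sq.cei_spec (Sq.Wt_pos H.ha) ((p + 1) * D)
    have h4 : m < Sq.MP a D (p + 1) := by
      by_contra hcon
      push Not at hcon
      have h5 : Sq.Wt a * Sq.MP a D (p + 1) ≤ Sq.Wt a * m := Nat.mul_le_mul_left _ hcon
      have h6 : (p + 1) * 1 ≤ (p + 1) * D := Nat.mul_le_mul_left _ H.hD
      unfold Sq.MP at h5
      omega
    unfold aW Sq.aP
    rw [if_pos h4, mul_zero]

end YW

end MPb07157
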