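import Pool.Agent.Lib.MP_b07157_agYW.DecW

/-!
# The poles come from the critical orbits
-/

noncomputable section

namespace MPb07157

open MvPolynomial

namespace YW

open YV

variable {n : ℕ} {f : MvPolynomial (Fin n) ℂ} {a : Fin n → ℕ} {D : ℕ}

/-- **The poles come from the critical orbits.** -/
theorem exists_pole_orb (H : WC f a D) {s₀ : ℚ} (h1 : s₀ ≠ -1)
    (h2 : ((∑ j, a j : ℕ) : ℚ) + D * s₀ ≠ 0) (hp : IsPole (Zmot0 f) s₀) :
    ∃ q : Fin n → ℂ, (∃ j, q j = 1) ∧ (∀ j, eval q (pderiv j (LF f a D)) = 0) ∧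
      orbSer f a D q ∉ regularAt s₀ := by
  obtain ⟨P, hP1, hP2, hP3⟩ := exists_repsW H
  by_contra hcon
  push Not at hcon
  apply hp
  have key : Zmot0 f = (PowerSeries.mk fun m =>
      ∑ p ∈ Finset.range (Sq.Wt a * m), aW f a D (p + 1) m) + ∑ q ∈ P, orbSer f a D q := by
    ext m
    rw [map_add, map_sum, PowerSeries.coeff_mk]
    unfold Zmot0 orbSer
    simp only [PowerSeries.coeff_mk]
    exact Zcoeff0_eq_W H hP1 hP2 hP3 m
  rw [key]
  exact add_mem (smooth_mem H.toWC0 h1 h2) (sum_mem fun q hq => hcon q (hP1 q hq).1 (hP1 q hq).2)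

end YW

end MPb07157
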