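import Pool.Agent.Lib.MP_b07157_agYW.Defs
import Pool.Agent.Lib.MP_b07157_agYV.LY
import Pool.Agent.Lib.MP_b07157_agYG.ChG

/-!
# The strict transform in the weighted chart
-/

noncomputable section

namespace MPb07157

open MvPolynomial

namespace YW

open SI YG YV

variable {n : ℕ}

/-- Monomials in the chart. -/
theorem aeval_chW_monomial (a : Fin (n + 1) → ℕ) (q : Fin (n + 1) → ℂ) (j₀ : Fin (n + 1))
    (v : Fin (n + 1) →₀ ℕ) (c : ℂ) :
    aeval (chW a q j₀) (monomial v c) =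
      X 0 ^ MPb07157.wt a v * rename Fin.succ (gch (monomial v c) q j₀) := by
  rw [YG.ChGaux.rename_gch, aeval_monomial, aeval_monomial]
  unfold chW MPb07157.wt
  rw [Finsupp.prod_fintype _ _ (fun i => pow_zero _),
    Finsupp.prod_fintype _ _ (fun i => pow_zero _)]
  simp only [mul_pow, ← pow_mul]
  rw [Finset.prod_mul_distrib, Finset.prod_pow_eq_pow_sum]
  ring

/-- `f` is divisible by `x_0^D` in the chart. -/
theorem exists_str {f : MvPolynomial (Fin (n + 1)) ℂ} {a : Fin (n + 1) → ℕ} {D : ℕ}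
    (low : ∀ v ∈ f.support, D ≤ MPb07157.wt a v) (q : Fin (n + 1) → ℂ) (j₀ : Fin (n + 1)) :
    ∃ h : MvPolynomial (Fin (n + 1)) ℂ, aeval (chW a q j₀) f = X 0 ^ D * h := by
  refine ⟨∑ v ∈ f.support, X 0 ^ (MPb07157.wt a v - D) *
    rename Fin.succ (gch (monomial v (coeff v f)) q j₀), ?_⟩
  conv_lhs => rw [f.as_sum, map_sum]
  rw [Finset.mul_sum]
  refine Finset.sum_congr rfl fun v hv => ?_
  rw [aeval_chW_monomial, ← mul_assoc, ← pow_add, Nat.add_sub_cancel' (low v hv)]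

theorem gch_sum {ι : Type*} (s : Finset ι) (F : ι → MvPolynomial (Fin (n + 1)) ℂ)
    (q : Fin (n + 1) → ℂ) (j₀ : Fin (n + 1)) :
    gch (∑ i ∈ s, F i) q j₀ = ∑ i ∈ s, gch (F i) q j₀ := by
  unfold gch
  exact map_sum _ _ _

/-- The strict transform if there are no terms of weight strictly between `D` and `D + e`. -/
theorem exists_str_mid {f : MvPolynomial (Fin (n + 1)) ℂ} {a : Fin (n + 1) → ℕ} {D e : ℕ}
    (he : 0 < e)
    (hmid : ∀ v ∈ f.support, MPb07157.wt a v = D ∨ D + e ≤ MPb07157.wt a v)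
    {q : Fin (n + 1) → ℂ} {j₀ : Fin (n + 1)} (hq : q j₀ = 1) (hne : eval q (LF f a (D + e)) ≠ 0) :
    ∃ V : MvPolynomial (Fin (n + 1)) ℂ, eval 0 V ≠ 0 ∧
      aeval (chW a q j₀) f = X 0 ^ D *
        (rename Fin.succ (gch (LF f a D) q j₀) + X 0 ^ e * V) := by
  classical
  refine ⟨∑ v ∈ f.support, if D + e ≤ MPb07157.wt a v then
    X 0 ^ (MPb07157.wt a v - (D + e)) *
      rename Fin.succ (gch (monomial v (coeff v f)) q j₀) else 0, ?_, ?_⟩
  · have h1 : eval q (LF f a (D + e)) = ∑ v ∈ f.support, if MPb07157.wt a v = D + e then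
        eval q (monomial v (coeff v f)) else 0 := by
      unfold LF inForm face
      rw [map_sum, Finset.sum_filter]
    rw [h1] at hne
    rw [map_sum]
    refine fun h0 => hne ?_
    refine Eq.trans (Finset.sum_congr rfl fun v _ => ?_) h0
    by_cases h2 : D + e ≤ MPb07157.wt a v
    · rw [if_pos h2]
      by_cases h3 : MPb07157.wt a v = D + e
      · rw [if_pos h3, h3, Nat.sub_self, pow_zero, one_mul, eval_rename]
        have e1 : (0 : Fin (n + 1) → ℂ) ∘ Fin.succ = 0 := rfl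
        rw [e1, pole_eval_gch _ q j₀ hq]
      · rw [if_neg h3, map_mul, map_pow, eval_X, Pi.zero_apply, zero_pow (by omega), zero_mul]
    · rw [if_neg h2, if_neg (by omega), map_zero]
  · have h1 : rename Fin.succ (gch (LF f a D) q j₀) = ∑ v ∈ f.support,
        if MPb07157.wt a v = D then rename Fin.succ (gch (monomial v (coeff v f)) q j₀) else 0 := by
      unfold LF inForm face
      rw [gch_sum, map_sum, Finset.sum_filter]
    rw [h1]
    conv_lhs => rw [f.as_sum, map_sum]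
    rw [mul_add, Finset.mul_sum, Finset.mul_sum, Finset.mul_sum, ← Finset.sum_add_distrib]
    refine Finset.sum_congr rfl fun v hv => ?_
    rw [aeval_chW_monomial]
    rcases hmid v hv with h2 | h2
    · rw [if_pos h2, if_neg (by omega), h2]
      ring
    · rw [if_neg (by omega), if_pos h2, mul_zero, zero_add, ← mul_assoc, ← mul_assoc, ← pow_add,
        ← pow_add]
      congr 2
      omega

/-- `h = A(y) + x^e V(x, y)`, `V(0) ≠ 0`, `A = u E(G)`: in the coordinates `E(y)`,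
`x (V/u)^(1/e)` it is `u (G + x^e)`. -/
theorem ueqV_of_form {A : MvPolynomial (Fin n) ℂ} {V : MvPolynomial (Fin (n + 1)) ℂ} {e : ℕ}
    (he : 0 < e) (hV0 : eval 0 V ≠ 0) {G : MvPolynomial (Fin n) ℂ}
    (hG : ∃ (E : MvPowerSeries (Fin n) ℂ ≃ₐ[ℂ] MvPowerSeries (Fin n) ℂ)
      (u : (MvPowerSeries (Fin n) ℂ)ˣ),
      (A : MvPowerSeries (Fin n) ℂ) = u * E (G : MvPowerSeries (Fin n) ℂ)) :
    UEqV ((rename Fin.succ A + X 0 ^ e * V : MvPolynomial (Fin (n + 1)) ℂ) :
      MvPowerSeries (Fin (n + 1)) ℂ) (rename Fin.succ G + X 0 ^ e) := by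
  obtain ⟨E, u, hu⟩ := hG
  have hVu : MvPowerSeries.constantCoeff (V : MvPowerSeries (Fin (n + 1)) ℂ) ≠ 0 := by
    have e1 : MvPowerSeries.constantCoeff (V : MvPowerSeries (Fin (n + 1)) ℂ) = eval 0 V := by
      rw [← MvPowerSeries.coeff_zero_eq_constantCoeff_apply, MvPolynomial.coeff_coe,
        eval_zero, constantCoeff_eq]
    rw [e1]
    exact hV0
  set U : (MvPowerSeries (Fin (n + 1)) ℂ)ˣ := Units.map (lyR n : MvPowerSeries (Fin n) ℂ →*
    MvPowerSeries (Fin (n + 1)) ℂ) u with hU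
  have hUv : (U : MvPowerSeries (Fin (n + 1)) ℂ) = lyR n (u : MvPowerSeries (Fin n) ℂ) := rfl
  set W : MvPowerSeries (Fin (n + 1)) ℂ := (V : MvPowerSeries (Fin (n + 1)) ℂ) *
    ((U⁻¹ : (MvPowerSeries (Fin (n + 1)) ℂ)ˣ) : MvPowerSeries (Fin (n + 1)) ℂ) with hW
  have hW0 : MvPowerSeries.constantCoeff W ≠ 0 := by
    rw [hW, map_mul]
    refine mul_ne_zero hVu ?_
    have h1 : IsUnit ((U⁻¹ : (MvPowerSeries (Fin (n + 1)) ℂ)ˣ) : MvPowerSeries (Fin (n + 1)) ℂ) :=
      Units.isUnit _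
    rw [MvPowerSeries.isUnit_iff_constantCoeff] at h1
    exact h1.ne_zero
  obtain ⟨c, hc⟩ := IsAlgClosed.exists_pow_nat_eq (MvPowerSeries.constantCoeff W) he
  obtain ⟨H, hH1, hH2⟩ := ARL.exists_root (R := ℂ) (N := e) he
    (U := W * MvPowerSeries.C (MvPowerSeries.constantCoeff W)⁻¹) (by
      rw [map_mul, MvPowerSeries.constantCoeff_C, mul_inv_cancel₀ hW0])
  have hc0 : c ≠ 0 := by
    rintro rfl
    rw [zero_pow he.ne'] at hc
    exact hW0 hc.symm
  set r : MvPowerSeries (Fin (n + 1)) ℂ := MvPowerSeries.C c * H with hr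
  have hr0 : MvPowerSeries.constantCoeff r ≠ 0 := by
    rw [hr, map_mul, MvPowerSeries.constantCoeff_C, hH1, mul_one]
    exact hc0
  have hre : r ^ e = W := by
    rw [hr, mul_pow, hH2, ← map_pow, hc, mul_left_comm, ← map_mul, mul_inv_cancel₀ hW0, map_one,
      mul_one]
  obtain ⟨F, hF1, hF2⟩ := ly_ext E hr0
  have hru : IsUnit r := by
    rw [MvPowerSeries.isUnit_iff_constantCoeff]
    exact isUnit_iff_ne_zero.2 hr0
  refine ⟨F, U, hru.unit, ?_, ?_⟩
  · have h1 : ((rename Fin.succ G + X 0 ^ e : MvPolynomial (Fin (n + 1)) ℂ) :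
        MvPowerSeries (Fin (n + 1)) ℂ) =
        ((rename Fin.succ G : MvPolynomial (Fin (n + 1)) ℂ) : MvPowerSeries (Fin (n + 1)) ℂ) +
          MvPowerSeries.X 0 ^ e := by
      rw [MvPolynomial.coe_add, MvPolynomial.coe_pow, MvPolynomial.coe_X]
    have h2 : ((rename Fin.succ A + X 0 ^ e * V :
        MvPolynomial (Fin (n + 1)) ℂ) : MvPowerSeries (Fin (n + 1)) ℂ) =
        ((rename Fin.succ A :
          MvPolynomial (Fin (n + 1)) ℂ) : MvPowerSeries (Fin (n + 1)) ℂ) +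
          MvPowerSeries.X 0 ^ e * (V : MvPowerSeries (Fin (n + 1)) ℂ) := by
      rw [MvPolynomial.coe_add, MvPolynomial.coe_mul, MvPolynomial.coe_pow, MvPolynomial.coe_X]
    rw [h1, h2, map_add, map_pow, hF1, hF2, ← lyR_coe, hu, map_mul, ← hUv, mul_add, mul_pow,
      hre, hW]
    congr 1
    have h3 : (U : MvPowerSeries (Fin (n + 1)) ℂ) *
        ((U⁻¹ : (MvPowerSeries (Fin (n + 1)) ℂ)ˣ) : MvPowerSeries (Fin (n + 1)) ℂ) = 1 :=
      Units.mul_inv U
    linear_combination (-(MvPowerSeries.X 0 ^ e * (V : MvPowerSeries (Fin (n + 1)) ℂ))) * h3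
  · rw [hF2, IsUnit.unit_spec]

end YW

end MPb07157
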