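import Pool.Agent.Lib.MP_b07157_agYW.OrbA
import Pool.Agent.Lib.MP_b07157_agYG.ChartG

/-!
# The arcs near an orbit in the chart
-/

noncomputable section

namespace MPb07157

open MvPolynomial

namespace YW

open YV

variable {n : ℕ} {f : MvPolynomial (Fin (n + 1)) ℂ} {a : Fin (n + 1) → ℕ} {D : ℕ}
  {q : Fin (n + 1) → ℂ} {j₀ : Fin (n + 1)}

/-- **The arcs near an orbit with trivial isotropy group in the chart.** `(u, y)`, `ord u = k`,
`ord y_l > 0`, is mapped to `x_i = u^(a_i) (q_i + y_l)`, `x_{j₀} = u^(a_{j₀})`; then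
`f(x) = u^D h(u, y)`. For jets of length `L + 1 > D k + i` the map
`(u, y) ↦ (x, the last (a_{j₀} - 1) k coefficients of u, the last a_i k coefficients of y_l)` is
bijective: `u` is determined by `x_{j₀} = u^(a_{j₀})` up to a root of unity `ζ`, and then by the
leading coefficients `c_i = (u_k)^(a_i) q_i` of `x`, because `ζ^(a_i) = 1` for all `i` with
`q_i ≠ 0` implies `ζ = 1` (`Free`); `u^m - u'^m` has the order `(m - 1) k + ord (u - u')` if `u`,
`u'` have the same leading term. Roots of power series with constant coefficient one exist. Compare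
`YG.Mk_eq_AKm` (`agYG/ChartG.lean`), where all `a_i = 1`; `cls_bijOn`, `prodSum`, `polyMap`. -/
theorem orbM_eq (ha : ∀ i, 0 < a i) (haD : ∀ i, a i < D) (hq : q j₀ = 1) (hfree : Free a q)
    {h : MvPolynomial (Fin (n + 1)) ℂ} (hh : aeval (chW a q j₀) f = X 0 ^ D * h) {k i L : ℕ}
    (hk : 0 < k) (hL : D * k + i ≤ L) :
    orbM f a L k (D * k + i) q = li ^ ((∑ j, a j - 1) * k) * YG.AKm h L k i := by
  have hak : ∀ j, a j * k + k ≤ L := by
    intro j
    have h1 : (a j + 1) * k ≤ D * k := Nat.mul_le_mul_right k (haD j)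
    rw [Nat.succ_mul] at h1
    omega
  have hr : ∀ j, a j * k < L + 1 := fun j => by have := hak j; omega
  have hq0 : q ≠ 0 := by
    rintro rfl
    exact zero_ne_one hq
  have hf : ∀ j, OrbA.fr a j₀ k j ≤ L + 1 := by
    intro j
    refine Fin.cases ?_ (fun s => ?_) j
    · have h1 : OrbA.fr a j₀ k 0 ≤ a j₀ * k := Nat.mul_le_mul_right _ (Nat.sub_le _ _)
      have h2 := hak j₀
      omega
    · rw [OrbA.fr_succ]
      have h2 := hak (j₀.succAbove s)
      omega
  set S : Set (Fin (n + 1) × Fin (L + 1) → ℂ) :=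
    arcs f (L + 1) (D * k + i) ∩ Sq.LA (L + 1) (fun j => a j * k) (orb a q) with hS
  have hSc : IsConstr S := (isConstr_arcs _ _ _).inter (Sq.isConstr_LA hr (isConstr_orb ha hq0))
  have hA : IsConstr (YG.AK h L k i) := YG.ChartK.isConstr_AK' h L k i
  have hb : Set.BijOn (polyMap (OrbA.ph a q j₀ k L)) (YG.AK h L k i)
      (prodSum (Set.univ : Set (OrbA.Tp a j₀ k L → ℂ)) S) := by
    refine ⟨fun γ hγ => ⟨Set.mem_univ _, OrbA.mapsTo hak hq hh hL hγ⟩,
      fun γ hγ γ' hγ' he => OrbA.injOn ha hak hq hfree hγ hγ' he, fun z hz => ?_⟩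
    obtain ⟨γ, h1, h2⟩ := OrbA.surj ha hak hk hq hh hL hz.2
    exact ⟨γ, h1, h2⟩
  have hc : cls (YG.AK h L k i) = MPb07157.L ^ ((∑ j, a j - 1) * k) * cls S := by
    rw [cls_bijOn hA (isConstr_prodSum IsConstr.univ hSc) _ hb, cls_prodSum IsConstr.univ hSc,
      cls_univ_eq, OrbA.card_Tp ha hf]
  have hl : ∀ c : ℕ, li ^ c * (LU : Mot) ^ c = 1 := by
    intro c
    rw [← mul_pow, li, ← Units.val_mul, inv_mul_cancel, Units.val_one, one_pow]
  unfold orbM YG.AKm clsM
  rw [hc, map_mul, map_pow, ← LU_val, ← hS]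
  linear_combination (-(((LU ^ ((n + 1) * (L + 1)))⁻¹ : Motˣ) : Mot) * algebraMap K0 Mot (cls S)) *
    hl ((∑ j, a j - 1) * k)

/-- The series of the orbit. -/
theorem orbSer_eq (ha : ∀ i, 0 < a i) (haD : ∀ i, a i < D) (hq : q j₀ = 1) (hfree : Free a q)
    {h : MvPolynomial (Fin (n + 1)) ℂ} (hh : aeval (chW a q j₀) f = X 0 ^ D * h) :
    orbSer f a D q = relSer h (∑ j, a j - 1) D := by
  ext m
  unfold orbSer relSer
  rw [PowerSeries.coeff_mk, PowerSeries.coeff_mk]
  refine Finset.sum_congr rfl fun k hk => ?_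
  rw [Finset.mem_Icc] at hk
  by_cases hkm : D * k ≤ m
  · rw [if_pos hkm, if_pos hkm]
    have h1 := orbM_eq ha haD hq hfree hh (k := k) (i := m - D * k) (L := m) (by omega) (by omega)
    rw [← h1]
    congr 1
    omega
  · rw [if_neg hkm, if_neg hkm]

end YW

end MPb07157
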