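import Pool.Agent.Lib.MP_b07157_agYV.PoleB
import Pool.Agent.Lib.MP_b07157_agYW.Defs

/-!
# The series of the arcs of the second kind
-/

noncomputable section

namespace MPb07157

open MvPolynomial

namespace YW

open SI YG YV

variable {n : ℕ}

/-- The series of the second kind of arcs. -/
def SB (G : MvPolynomial (Fin (n + 1)) ℂ) (w : Fin (n + 1) → ℕ) (N d c : ℕ) : PowerSeries Mot :=
  PowerSeries.mk fun m => ∑ k ∈ Finset.Icc 1 m, if d * k ≤ m then
    ∑ p ∈ Finset.range (Sq.Wt w * m), if w 0 * (p + 1) < Sq.Wt w * k then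
      li ^ ((c + 1) * k) * bB G w N (p + 1) (m - d * k) else 0 else 0

/-- As `YV.SB_mem` (`agYV/PoleB.lean`). -/
theorem SB_mem {G : MvPolynomial (Fin (n + 1)) ℂ} {w : Fin (n + 1) → ℕ} {N d c : ℕ} (hd : 0 < d)
    (H : Rs G w N) {s₀ : ℚ} (h1 : s₀ ≠ -1) (h2 : ((c + 1 : ℕ) : ℚ) + d * s₀ ≠ 0)
    (h3 : (nuc c w : ℚ) + (De w d N : ℕ) * s₀ ≠ 0) : SB G w N d c ∈ regularAt s₀ := by
  obtain ⟨g, hg1, hg2, hg3⟩ := YV.exists_geo hd h2
  have hW : 0 < Sq.Wt w := Sq.Wt_pos H.hw
  have hw0 := H.hw 0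
  refine mem_of_per (W := Sq.Wt w) (D := De w d N) (E := nuc c w)
    (b := fun p => PowerSeries.C (li ^ ((c + 1) * (w 0 * (p + 1) / Sq.Wt w + 1))) *
      PowerSeries.X ^ (d * (w 0 * (p + 1) / Sq.Wt w + 1)) * g *
      PowerSeries.mk (bB G w N (p + 1))) ?_ ?_ ?_ h3 ?_
  · intro p
    have h4 : w 0 * (p + Sq.Wt w + 1) / Sq.Wt w = w 0 * (p + 1) / Sq.Wt w + w 0 := by
      have h5 : w 0 * (p + Sq.Wt w + 1) = w 0 * (p + 1) + w 0 * Sq.Wt w := by ring
      rw [h5, Nat.add_mul_div_right _ _ hW]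
    have h6 : PowerSeries.mk (bB G w N (p + Sq.Wt w + 1)) =
        PowerSeries.C (li ^ (∑ j : Fin n, w j.succ)) * PowerSeries.X ^ N *
          PowerSeries.mk (bB G w N (p + 1)) := by
      ext i
      rw [mul_assoc, PowerSeries.coeff_C_mul, PowerSeries.coeff_X_pow_mul', PowerSeries.coeff_mk]
      have h7 : p + Sq.Wt w + 1 = p + 1 + Sq.Wt w := by ring
      rw [h7]
      by_cases h8 : N ≤ i
      · rw [if_pos h8, PowerSeries.coeff_mk]
        have h9 := bB_add H (p := p + 1) (by omega) (i - N)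
        rw [Nat.sub_add_cancel h8] at h9
        exact h9
      · rw [if_neg h8, mul_zero]
        exact bB_lt H (p + 1) (by omega)
    rw [h4, h6]
    have h7 : (li : Mot) ^ (nuc c w) = li ^ ((c + 1) * w 0) * li ^ (∑ j : Fin n, w j.succ) := by
      rw [← pow_add]; rfl
    have h8 : (li : Mot) ^ ((c + 1) * (w 0 * (p + 1) / Sq.Wt w + w 0 + 1)) =
        li ^ ((c + 1) * (w 0 * (p + 1) / Sq.Wt w + 1)) * li ^ ((c + 1) * w 0) := by
      rw [← pow_add]; congr 1; ring
    have h9 : (PowerSeries.X : PowerSeries Mot) ^ (d * (w 0 * (p + 1) / Sq.Wt w + w 0 + 1)) =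
        PowerSeries.X ^ (d * (w 0 * (p + 1) / Sq.Wt w + 1)) * PowerSeries.X ^ (d * w 0) := by
      rw [← pow_add]; congr 1; ring
    have h10 : (PowerSeries.X : PowerSeries Mot) ^ (De w d N) =
        PowerSeries.X ^ (d * w 0) * PowerSeries.X ^ N := by
      rw [← pow_add]; rfl
    rw [h7, h8, h9, h10, map_mul, map_mul]
    ring
  · intro m
    refine ⟨Sq.Wt w * m, fun P hP => ?_⟩
    have h4 : ∀ p, PowerSeries.coeff m (PowerSeries.C (li ^ ((c + 1) *
        (w 0 * (p + 1) / Sq.Wt w + 1))) * PowerSeries.X ^ (d * (w 0 * (p + 1) / Sq.Wt w + 1)) * g *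
          PowerSeries.mk (bB G w N (p + 1))) = ∑ k ∈ Finset.Icc 1 m, if d * k ≤ m then
        (if w 0 * (p + 1) < Sq.Wt w * k then li ^ ((c + 1) * k) * bB G w N (p + 1) (m - d * k)
          else 0) else 0 := by
      intro p
      rw [coeff_geo_mul hd (Nat.succ_pos _) hg3]
      refine Finset.sum_congr rfl fun k _ => ?_
      rw [if_congr (kB_le hW) rfl rfl]
    simp only [h4]
    rw [Finset.sum_comm]
    unfold SB
    rw [PowerSeries.coeff_mk]
    refine Finset.sum_congr rfl fun k hk => ?_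
    rw [Finset.mem_Icc] at hk
    by_cases h5 : d * k ≤ m
    · simp only [if_pos h5]
      refine Finset.sum_subset (Finset.range_subset_range.2 hP) fun p _ hp => ?_
      rw [Finset.mem_range, not_lt] at hp
      rw [if_neg]
      have h6 : Sq.Wt w * k ≤ Sq.Wt w * m := Nat.mul_le_mul_left _ hk.2
      have h7 : 1 * (p + 1) ≤ w 0 * (p + 1) := Nat.mul_le_mul_right _ hw0
      omega
    · simp only [if_neg h5, Finset.sum_const_zero]
  · have : 0 < d * w 0 := Nat.mul_pos hd hw0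
    unfold De
    omega
  · intro p _
    refine mul_mem (mul_mem (mul_mem (C_mem_regularAt s₀ _)
      (pow_mem (X_mem_regularAt s₀) _)) hg1) (bB_mem h1 G w N (p + 1))

end YW

end MPb07157
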