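import Pool.Agent.Lib.MP_b07157_agYV.Mea
import Pool.Agent.Lib.MP_b07157_agYW.PolA
import Pool.Agent.Lib.MP_b07157_agYW.PolB
import Pool.Agent.Lib.MP_b07157_agYG.KzG

/-!
# The poles of the series of a pair
-/

noncomputable section

namespace MPb07157

open MvPolynomial

namespace YW

open SI YG YV

variable {n : ℕ}

/-- **The poles of the series of a pair** `(x_0^d h, x_0^c)`, `h` semi-quasi-homogeneous relative to
`x_0 = 0`. -/
theorem relSer_mem {h G : MvPolynomial (Fin (n + 1)) ℂ} {c d : ℕ} (hd : 0 < d)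
    (hG : UEqV (h : MvPowerSeries (Fin (n + 1)) ℂ) G) {w : Fin (n + 1) → ℕ} {N : ℕ}
    (H : Rs G w N) {s₀ : ℚ} (h1 : s₀ ≠ -1) (h2 : ((c + 1 : ℕ) : ℚ) + d * s₀ ≠ 0)
    (h3 : (nuc c w : ℚ) + (De w d N : ℕ) * s₀ ≠ 0) : relSer h c d ∈ regularAt s₀ := by
  obtain ⟨E, u, v, e1, e2⟩ := hG
  have key : relSer h c d = SA G w N d c + SB G w N d c := by
    ext m
    rw [map_add, relSer, SA, SB, PowerSeries.coeff_mk, PowerSeries.coeff_mk,
      PowerSeries.coeff_mk, ← Finset.sum_add_distrib]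
    refine Finset.sum_congr rfl fun k hk => ?_
    rw [Finset.mem_Icc] at hk
    by_cases hkm : d * k ≤ m
    · rw [if_pos hkm, if_pos hkm, if_pos hkm,
        KzGaux.AKm_congr (G := G) (E := E) (u := u) (w := v) (fun x _ => by rw [e1]) e2 hk.2
          (Nat.sub_le _ _),
        AKm_eq H (P := Sq.Wt w * m) (by omega) hk.2
        (Nat.sub_le _ _) (Nat.mul_le_mul_left _ hk.2), mul_add, Finset.mul_sum]
      congr 1
      refine Finset.sum_congr rfl fun p _ => ?_
      by_cases hp : w 0 * (p + 1) < Sq.Wt w * k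
      · rw [if_pos hp, if_pos hp, aB_eq H (Nat.succ_pos p) hp, ← mul_assoc, ← pow_add]
        congr 2
        ring
      · rw [if_neg hp, if_neg hp, mul_zero]
    · rw [if_neg hkm, if_neg hkm, if_neg hkm, add_zero]
  rw [key]
  exact add_mem (SA_mem hd H h1 h3) (SB_mem hd H h1 h2 h3)

end YW

end MPb07157
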