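import Pool.Agent.Lib.MP_b07157_agYW.ResW
import Pool.Agent.Lib.MP_b07157_agYV.LamV
import Pool.Agent.Lib.MP_b07157_agYV.KosV
import Pool.Agent.Lib.MP_b07157_agYV.DescV
import Pool.Agent.Lib.MP_b07157_agYV.SmV

/-!
# The root at a semi-quasi-homogeneous critical orbit
-/

noncomputable section

namespace MPb07157

open MvPolynomial

namespace YW

open PC SU SI YV

variable {n : ℕ} {f : MvPolynomial (Fin (n + 1)) ℂ} {d c : ℕ} {G : MvPolynomial (Fin (n + 1)) ℂ}
  {ξ : Fin (n + 1) → MvPowerSeries (Fin (n + 1)) ℂ} {U D : MvPowerSeries (Fin (n + 1)) ℂ}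
  {w : Fin (n + 1) → ℕ} {N : ℕ}

/-- The root if `gT^s` is not a sum of derivatives. -/
theorem root_of_nonExW (hc : IsChartW f d c G ξ U D) (H : Rs G w N) {s : ℂ}
    (hs : s * ((De w d N : ℕ) : ℂ) = -((nuc c w : ℕ) : ℂ)) (hne : NonEx (gT G w N) (-s))
    {b : Polynomial ℂ} (hb : InPs (f : MvPowerSeries (Fin (n + 1)) ℂ) 1
      (b.map (MvPowerSeries.C (σ := Fin (n + 1)) (R := ℂ)))) : b.eval s = 0 := by
  by_contra hb0
  have hDN : 0 < De w d N := by
    have h1 := H.hw 0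
    have h2 := H.hw0
    unfold De
    omega
  obtain ⟨B, _, _, δ', T, Q, l, hQ, hT, hδ, hl, hl1⟩ := exists_lamV (gT_ne_zero H) hne
  obtain ⟨r, hr⟩ := residueW hc H.hw H.ge hDN hs hb hb0 δ' hQ hT hδ
  have h := congrArg l hr
  rw [map_sum, hl1, Finset.sum_eq_zero fun a _ => hl a (r a)] at h
  exact one_ne_zero h

/-- **The root at a semi-quasi-homogeneous critical orbit.** -/
theorem rootW (hc : IsChartW f d c G ξ U D) (H : Rs G w N)
    (hnr : ∀ j : Fin n, (c + 1) * w 0 * N + w j.succ * De w d N <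
      d * w 0 * (∑ i : Fin n, w i.succ) + N * De w d N)
    {s₀ : ℚ} (hs : (nuc c w : ℚ) + (De w d N : ℕ) * s₀ = 0) (h1 : s₀ ≠ -1)
    {b : Polynomial ℂ} (hb : InPs (f : MvPowerSeries (Fin (n + 1)) ℂ) 1
      (b.map (MvPowerSeries.C (σ := Fin (n + 1)) (R := ℂ)))) : b.eval (s₀ : ℂ) = 0 := by
  have hw0 := H.hw 0
  have hDN : 0 < De w d N := by
    have h2 := H.hw0
    unfold De
    omega
  have hnu : 0 < nuc c w := by
    unfold nuc
    have : 0 < (c + 1) * w 0 := Nat.mul_pos (Nat.succ_pos c) hw0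
    omega
  have hDNQ : (0 : ℚ) < (De w d N : ℕ) := by exact_mod_cast hDN
  have hnuQ : (0 : ℚ) < (nuc c w : ℕ) := by exact_mod_cast hnu
  have hs' : (s₀ : ℂ) * ((De w d N : ℕ) : ℂ) = -((nuc c w : ℕ) : ℂ) := by
    have h2 := congrArg (fun x : ℚ => (x : ℂ)) hs
    push_cast at h2
    linear_combination h2
  have hneg : s₀ < 0 := by
    by_contra hcon
    push Not at hcon
    have h2 : 0 ≤ (De w d N : ℚ) * s₀ := mul_nonneg hDNQ.le hcon
    linarith
  have hs1 : (s₀ : ℂ) + 1 ≠ 0 := by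
    intro h2
    apply h1
    have h3 : ((s₀ + 1 : ℚ) : ℂ) = 0 := by
      push_cast
      exact h2
    have h4 : s₀ + 1 = 0 := by exact_mod_cast h3
    linarith
  refine root_of_nonExW hc H hs' (nonEx_of_level (smooth_gT H) (fun m h2 => ?_) hs1
    (no_level (fun j => H.hw j.succ) H.hwN (gT_le H) (gT_top H) hs1 fun i m h2 => ?_)) hb
  · have h3 : s₀ = (m : ℚ) := by exact_mod_cast h2
    rw [h3] at hneg
    exact absurd hneg (not_lt.2 (Nat.cast_nonneg m))
  · -- the nonresonance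
    have h3 : (m : ℚ) - w i.succ + ∑ j : Fin n, (w j.succ : ℚ) + (s₀ + 1) * N = 0 := by
      have h4 : (((m : ℚ) - w i.succ + ∑ j : Fin n, (w j.succ : ℚ) + (s₀ + 1) * N : ℚ) : ℂ) = 0 := by
        push_cast
        exact h2
      exact_mod_cast h4
    have h5 := hnr i
    have h6 : (((c + 1) * w 0 * N + w i.succ * De w d N : ℕ) : ℚ) <
        ((d * w 0 * (∑ i : Fin n, w i.succ) + N * De w d N : ℕ) : ℚ) := by exact_mod_cast h5
    have hDe : ((De w d N : ℕ) : ℚ) = d * w 0 + N := by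
      unfold De
      push_cast
      ring
    have hnu' : ((nuc c w : ℕ) : ℚ) = (c + 1) * w 0 + ∑ j : Fin n, (w j.succ : ℚ) := by
      unfold nuc
      push_cast
      ring
    push_cast at h6
    rw [hDe] at h6 hs hDNQ
    rw [hnu'] at hs
    have hm : (0 : ℚ) ≤ m := Nat.cast_nonneg m
    set S : ℚ := ∑ j : Fin n, (w j.succ : ℚ) with hS
    have h7 : (m : ℚ) * (d * w 0 + N) + ((d : ℚ) * w 0 * S + N * (d * w 0 + N) -
        ((c + 1) * w 0 * N + w i.succ * (d * w 0 + N))) = 0 := by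
      linear_combination ((d : ℚ) * w 0 + N) * h3 - (N : ℚ) * hs
    have h8 : 0 ≤ (m : ℚ) * (d * w 0 + N) := mul_nonneg hm hDNQ.le
    linarith

end YW

end MPb07157
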