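import Pool.Agent.Lib.MP_b07157_agYV.Core
import Pool.Agent.Lib.MP_b07157_agYW.ChW
import Pool.Agent.Lib.MP_b07157_agYW.Dec
import Pool.Agent.Lib.MP_b07157_agYW.LYW
import Pool.Agent.Lib.MP_b07157_agYW.LctW
import Pool.Agent.Lib.MP_b07157_agYW.Orb
import Pool.Agent.Lib.MP_b07157_agYW.Pol
import Pool.Agent.Lib.MP_b07157_agYW.RootW

/-!
# Weighted tangent cones: the main theorem
-/

noncomputable section

namespace MPb07157

open MvPolynomial

namespace YW

open PC SU SI YV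

variable {n : ℕ}

/-- The numerical condition: there is no resonance. -/
def NumW (w : Fin (n + 1) → ℕ) (N D b : ℕ) : Prop :=
  ∀ j : Fin n, b * w 0 * N + w j.succ * De w D N <
    D * w 0 * (∑ i : Fin n, w i.succ) + N * De w D N

/-- There is no resonance if `b ≤ D`. -/
theorem numW_of_le {w : Fin (n + 1) → ℕ} {N D b : ℕ}
    (hwN : ∀ j : Fin n, w j.succ < N) (hw : ∀ j : Fin n, 0 < w j.succ) (h : b ≤ D) :
    NumW w N D b := by
  intro j
  have h1 : w j.succ ≤ ∑ i : Fin n, w i.succ :=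
    Finset.single_le_sum (f := fun i : Fin n => w i.succ) (fun _ _ => Nat.zero_le _)
      (Finset.mem_univ j)
  have h2 := hwN j
  have h3 : b * w 0 * N ≤ D * w 0 * N :=
    Nat.mul_le_mul_right _ (Nat.mul_le_mul_right _ h)
  have h4 : D * w 0 * w j.succ ≤ D * w 0 * ∑ i : Fin n, w i.succ := Nat.mul_le_mul_left _ h1
  have h5 : w j.succ * N < N * N := Nat.mul_lt_mul_of_pos_right h2 (by omega)
  unfold De
  nlinarith

/-- The critical orbit of `q` is semi-quasi-homogeneous, relative to the exceptional divisor. -/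
def RelAtW (f : MvPolynomial (Fin (n + 1)) ℂ) (a : Fin (n + 1) → ℕ) (D : ℕ)
    (q : Fin (n + 1) → ℂ) : Prop :=
  ∃ (j₀ : Fin (n + 1)) (t : ℂ), t ≠ 0 ∧ sc a t q j₀ = 1 ∧
    ∃ (h G : MvPolynomial (Fin (n + 1)) ℂ) (w : Fin (n + 1) → ℕ) (N : ℕ),
      aeval (chW a (sc a t q) j₀) f = X 0 ^ D * h ∧
      UEqV (h : MvPowerSeries (Fin (n + 1)) ℂ) G ∧ Rs G w N ∧ NumW w N D (∑ j, a j)

theorem orb_sc (a : Fin n → ℕ) (q : Fin n → ℂ) {t : ℂ} (ht : t ≠ 0) :
    orb a (sc a t q) = orb a q := by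
  ext c
  constructor
  · rintro ⟨s, hs, rfl⟩
    exact ⟨s * t, mul_ne_zero hs ht, by rw [rw_sc_sc]⟩
  · rintro ⟨s, hs, rfl⟩
    exact ⟨s * t⁻¹, mul_ne_zero hs (inv_ne_zero ht), by
      rw [rw_sc_sc, mul_assoc, inv_mul_cancel₀ ht, mul_one]⟩

theorem orbSer_sc (f : MvPolynomial (Fin n) ℂ) (a : Fin n → ℕ) (D : ℕ) (q : Fin n → ℂ) {t : ℂ}
    (ht : t ≠ 0) : orbSer f a D (sc a t q) = orbSer f a D q := by
  unfold orbSer orbM
  rw [orb_sc a q ht]

theorem free_sc {a : Fin n → ℕ} {q : Fin n → ℂ} {t : ℂ} (ht : t ≠ 0) (h : Free a q) :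
    Free a (sc a t q) := fun m hm => h m fun i hi => hm i (mul_ne_zero (pow_ne_zero _ ht) hi)

/-- The critical orbits. -/
theorem relAtW_case {f : MvPolynomial (Fin (n + 1)) ℂ} {a : Fin (n + 1) → ℕ} {D : ℕ}
    (ha : ∀ i, 0 < a i) (haD : ∀ i, a i < D) {q : Fin (n + 1) → ℂ} (hfree : Free a q)
    (hrel : RelAtW f a D q) {s₀ : ℚ}
    (h : ((∑ j, a j : ℕ) : ℚ) + D * s₀ ≠ 0) (h1 : s₀ ≠ -1) (hreg : orbSer f a D q ∉ regularAt s₀)
    {b : Polynomial ℂ} (hb : InPs (f : MvPowerSeries (Fin (n + 1)) ℂ) 1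
      (b.map (MvPowerSeries.C (σ := Fin (n + 1)) (R := ℂ)))) : b.eval (s₀ : ℂ) = 0 := by
  obtain ⟨j₀, t, ht, hqj, h', G, w, N, hh, hG, H, hnum⟩ := hrel
  have hD : 0 < D := lt_of_le_of_lt (Nat.zero_le _) (haD 0)
  have hser := orbSer_eq ha haD hqj (free_sc ht hfree) hh
  rw [← orbSer_sc f a D q ht, hser] at hreg
  have hc : (∑ j, a j - 1) + 1 = ∑ j, a j := by
    have h2 : a 0 ≤ ∑ j, a j :=
      Finset.single_le_sum (fun _ _ => Nat.zero_le _) (Finset.mem_univ 0)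
    have h3 := ha 0
    omega
  by_cases h3 : (nuc (∑ j, a j - 1) w : ℚ) + (De w D N : ℕ) * s₀ = 0
  · obtain ⟨ξ, U, J, hch⟩ := exists_chartW ha hh hG
    refine rootW hch H (fun j => ?_) h3 h1 hb
    rw [hc]
    exact hnum j
  · refine absurd (relSer_mem hD hG H h1 ?_ h3) hreg
    rw [hc]
    exact h

/-- **Germs with a weighted tangent cone.** -/
theorem smc_wc {f : MvPolynomial (Fin (n + 1)) ℂ} {a : Fin (n + 1) → ℕ} {D : ℕ} (H : WC f a D)
    {s₀ : ℚ} {b : Polynomial ℂ}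
    (hb : InDnForm f 1 (b.map (MvPowerSeries.C (σ := Fin (n + 1)) (R := ℂ))))
    (hcase : ∀ (q : Fin (n + 1) → ℂ) (j₀ : Fin (n + 1)), q j₀ = 1 →
      (∀ j, eval q (pderiv j (LF f a D)) = 0) → ((∑ j, a j : ℕ) : ℚ) + D * s₀ ≠ 0 → s₀ ≠ -1 →
      orbSer f a D q ∉ regularAt s₀ → b.eval (s₀ : ℂ) = 0)
    (hroot : s₀ = -(((∑ j, a j : ℕ) : ℚ) / D) → ∑ j, a j = D ∨
      Lct.HasLct f (((∑ j, a j : ℕ) : ℝ) / D) ∨ NonEx (LF f a D) (((∑ j, a j : ℕ) : ℂ) / D))
    (hp : IsPole (Zmot0 f) s₀) : b.eval (s₀ : ℂ) = 0 := by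
  classical
  have hD := H.hD
  have hDQ : (0 : ℚ) < D := by exact_mod_cast hD
  have hf0 : f ≠ 0 := by
    rintro rfl
    apply H.ne
    unfold LF
    rw [ly_inForm_face, map_zero]
  have h00 : (0 : Fin (n + 1) →₀ ℕ) ∉ f.support := by
    intro h
    have h1 := H.low 0 h
    unfold MPb07157.wt at h1
    simp at h1
    omega
  by_cases hs1 : s₀ = -1
  · subst hs1
    exact neg_one_root hf0 h00 b hb
  by_cases hs2 : s₀ = -(((∑ j, a j : ℕ) : ℚ) / D)
  · rcases hroot hs2 with hc | hc | hc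
    · exfalso
      apply hs1
      rw [hs2, hc, div_self hDQ.ne']
    · rw [hs2]
      exact Lct.root_weight H.ha hD (Nat.succ_pos n) hf0 H.low hc hb
    · have e1 : f = LF f a D + (f - LF f a D) := by ring
      rw [e1] at hb
      have h1 := root_of_initial H.ha H.haD hD H.ne rw_LF_hom
        (h := f - LF f a D) (fun v hv => ?_) (α := ((∑ j, a j : ℕ) : ℂ) / D) ?_ hc hb
      · rw [hs2]
        push_cast at h1 ⊢
        exact h1
      · rw [mem_support_iff, coeff_sub] at hv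
        unfold LF at hv
        rw [ly_inForm_face, coeff_weightedHomogeneousComponent, ly_weight] at hv
        by_cases h2 : MPb07157.wt a v = D
        · rw [if_pos h2, sub_self] at hv
          exact absurd rfl hv
        · rw [if_neg h2, sub_zero] at hv
          exact lt_of_le_of_ne (H.low v (mem_support_iff.2 hv)) (Ne.symm h2)
      · have h2 : (D : ℂ) ≠ 0 := by exact_mod_cast hD.ne'
        rw [div_mul_cancel₀ _ h2]
        push_cast
        rfl
  have hcand : ((∑ j, a j : ℕ) : ℚ) + D * s₀ ≠ 0 := by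
    intro h
    apply hs2
    rw [← neg_div, eq_div_iff hDQ.ne']
    linarith
  obtain ⟨q, ⟨j, hqj⟩, hcrit, hreg⟩ := exists_pole_orb H hs1 hcand hp
  exact hcase q j hqj hcrit hcand hs1 hreg

end YW

end MPb07157
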