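import Pool.Agent.Lib.MP_b07157_agYW.Smo
import Pool.Agent.Lib.MP_b07157_agYW.RepW

/-!
# The decomposition of the zeta function
-/

noncomputable section

namespace MPb07157

open MvPolynomial

namespace YW

open YV

variable {n : ℕ} {f : MvPolynomial (Fin n) ℂ} {a : Fin n → ℕ} {D : ℕ}

/-- The coefficients below the weights of all terms vanish. -/
private theorem dw_coeff_lt {N : ℕ} {r : Fin n → ℕ} {M : ℕ}
    (h : ∀ v ∈ f.support, M ≤ MPb07157.wt r v) {γ : Fin n × Fin N → ℂ} (hγ : Vn r γ) {k : ℕ}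
    (hk : k < M) : PowerSeries.coeff k (Fv f γ) = 0 := by
  classical
  by_cases hf : f = 0
  · subst hf
    unfold Fv
    rw [map_zero, map_zero]
  · obtain ⟨v, hv, hmin⟩ := f.support.exists_min_image (MPb07157.wt r)
      (MvPolynomial.support_nonempty.2 hf)
    have h1 : IsMinWt f r (MPb07157.wt r v) := ⟨hmin, v, hv, rfl⟩
    exact coeff_Fv_of_lt h1 hγ (by have := h v hv; omega)

/-- The arcs of weighted order `p` with leading coefficients in `U`. -/
private def dwP (f : MvPolynomial (Fin n) ℂ) (a : Fin n → ℕ) (m p : ℕ) (U : Set (Fin n → ℂ)) :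
    Set (Fin n × Fin (m + 1) → ℂ) := arcs f (m + 1) m ∩ Sq.LA (m + 1) (Sq.rP a p) U

private theorem dwP_empty (H : WC f a D) {p m : ℕ} (hp : 0 < p) (hm : m < Sq.MP a D p)
    (U : Set (Fin n → ℂ)) : dwP f a m p U = ∅ := by
  rw [Set.eq_empty_iff_forall_notMem]
  rintro γ ⟨h1, h2, -⟩
  rw [mem_arcs_iff] at h1
  exact h1.1 (dw_coeff_lt (fun v hv => (numW (D := D) H.ha hp).le (H.low v hv)) h2 hm)

private theorem dwP_hr (H : WC f a D) {p m : ℕ} (hm : ¬ m < Sq.MP a D p) :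
    ∀ j, Sq.rP a p j < m + 1 := fun j => by
  have := Sq.rP_le_MP (fun j => (H.haD j).le) (N := D) p j
  omega

private theorem dwP_constr (H : WC f a D) {p m : ℕ} (hp : 0 < p) {U : Set (Fin n → ℂ)}
    (hU : IsConstr U) : IsConstr (dwP f a m p U) := by
  by_cases hm : m < Sq.MP a D p
  · rw [dwP_empty H hp hm]
    exact IsConstr.empty
  · exact (isConstr_arcs _ _ _).inter (Sq.isConstr_LA (dwP_hr H hm) hU)

private theorem dwP_disj {p m : ℕ} {U V : Set (Fin n → ℂ)} (h : Disjoint U V) :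
    Disjoint (dwP f a m p U) (dwP f a m p V) := by
  rw [Set.disjoint_left] at h ⊢
  rintro γ ⟨-, -, h1⟩ ⟨-, -, h2⟩
  exact h h1 h2

private theorem dw_clsM_empty {σ : Type} [Fintype σ] : clsM (∅ : Set (σ → ℂ)) = 0 := by
  unfold clsM
  rw [cls_empty, map_zero]

/-- The measure of the smooth part. -/
private theorem dwP_UW (H : WC f a D) {p : ℕ} (hp : 0 < p) (m : ℕ) :
    ↑((LU ^ (n * (m + 1)))⁻¹) * clsM (dwP f a m p (UW f a D p)) = aW f a D p m := by
  by_cases hm : m < Sq.MP a D p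
  · rw [dwP_empty H hp hm, dw_clsM_empty, mul_zero]
    unfold aW Sq.aP
    rw [if_pos hm, mul_zero]
  · have hG := guW f a D p
    have hN := numW (D := D) H.ha hp
    rcases (UW f a D p).eq_empty_or_nonempty with h0 | hne
    · have h1 : dwP f a m p (∅ : Set (Fin n → ℂ)) = ∅ := by
        rw [Set.eq_empty_iff_forall_notMem]
        rintro γ ⟨-, -, h4⟩
        exact h4
      have h2 : Sq.YU f (Sq.rP a p) (Sq.MP a D p) (∅ : Set (Fin n → ℂ)) = ∅ := by
        rw [Set.eq_empty_iff_forall_notMem]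
        rintro c ⟨h, -⟩
        exact h
      have h3 : Sq.XU f (Sq.rP a p) (Sq.MP a D p) (∅ : Set (Fin n → ℂ)) = ∅ := by
        rw [Set.eq_empty_iff_forall_notMem]
        rintro c ⟨h, -⟩
        exact h
      unfold aW Sq.aP
      rw [h0, h1, h2, h3]
      simp only [dw_clsM_empty, mul_zero, zero_mul, ite_self]
    · exact Sq.measure_LA (hN.isMinWt H.low hG hne) (dwP_hr H hm) hG.con
        (fun c hc _ => hN.nd H.low hG hc) (by omega)

private theorem dw_orb_ne {q : Fin n → ℂ} (hq : ∃ j, q j = 1) {c : Fin n → ℂ}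
    (hc : c ∈ orb a q) : c ≠ 0 := by
  obtain ⟨j, hj⟩ := hq
  obtain ⟨t, ht, rfl⟩ := hc
  intro h
  have h1 := congrFun h j
  simp only [sc, hj, mul_one, Pi.zero_apply] at h1
  exact pow_ne_zero _ ht h1

/-- The leading coefficients of weighted order `p`. -/
private theorem dw_split (H : WC f a D) {P : Finset (Fin n → ℂ)}
    (hP1 : ∀ q ∈ P, (∃ j, q j = 1) ∧ ∀ j, eval q (pderiv j (LF f a D)) = 0)
    (hP2 : ∀ p ∈ P, ∀ q ∈ P, p ≠ q → Disjoint (orb a p) (orb a q))
    (hP3 : ∀ c, c ≠ 0 → (∀ j, eval c (pderiv j (LF f a D)) = 0) → ∃ q ∈ P, c ∈ orb a q)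
    {p : ℕ} (hp : 0 < p) (m : ℕ) :
    clsM (dwP f a m p (Sq.Ud (Sq.dP a p))) = clsM (dwP f a m p (UW f a D p)) +
      if Sq.Wt a ∣ p then ∑ q ∈ P, clsM (dwP f a m p (orb a q)) else 0 := by
  classical
  split_ifs with hd
  · obtain ⟨k, rfl⟩ := hd
    obtain ⟨-, h2, -⟩ := rP_mul (D := D) H.ha k
    have hpr : ∀ c : Fin n → ℂ, Sq.pr (Sq.dP a (Sq.Wt a * k)) c = c := by
      intro c
      funext j
      unfold Sq.pr
      rw [h2, if_pos (by simp)]
    have hUd : ∀ c : Fin n → ℂ, c ∈ Sq.Ud (Sq.dP a (Sq.Wt a * k)) ↔ c ≠ 0 := by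
      intro c
      constructor
      · rintro ⟨i, -, hi⟩ h
        rw [h] at hi
        exact hi rfl
      · intro h
        obtain ⟨i, hi⟩ := Function.ne_iff.1 h
        exact ⟨i, by rw [h2]; rfl, hi⟩
    have hset : dwP f a m (Sq.Wt a * k) (Sq.Ud (Sq.dP a (Sq.Wt a * k))) =
        dwP f a m (Sq.Wt a * k) (UW f a D (Sq.Wt a * k)) ∪
          ⋃ q ∈ P, dwP f a m (Sq.Wt a * k) (orb a q) := by
      ext γ
      simp only [Set.mem_union, Set.mem_iUnion, exists_prop]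
      constructor
      · rintro ⟨h3, h4, h5⟩
        by_cases h6 : ∃ j, eval (Sq.pr (Sq.dP a (Sq.Wt a * k)) (lead0 (Sq.rP a (Sq.Wt a * k)) γ))
            (pderiv j (LF f a D)) ≠ 0
        · exact Or.inl ⟨h3, h4, h5, h6⟩
        · push Not at h6
          rw [hpr] at h6
          obtain ⟨q, hq, hq'⟩ := hP3 _ ((hUd _).1 h5) h6
          exact Or.inr ⟨q, hq, h3, h4, hq'⟩
      · rintro (⟨h3, h4, h5⟩ | ⟨q, hq, h3, h4, h5⟩)
        · exact ⟨h3, h4, h5.1⟩
        · exact ⟨h3, h4, (hUd _).2 (dw_orb_ne (hP1 q hq).1 h5)⟩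
    have hcU := dwP_constr H (m := m) hp (guW f a D (Sq.Wt a * k)).con
    have hcq : ∀ q ∈ P, IsConstr (dwP f a m (Sq.Wt a * k) (orb a q)) := fun q hq =>
      dwP_constr H hp (isConstr_orb H.ha (dw_orb_ne (a := a) (hP1 q hq).1 (rw_orb_self q)))
    unfold clsM
    rw [hset, cls_union hcU (isConstr_biUnion _ _ hcq), map_add, cls_biUnion _ _ hcq, map_sum]
    · intro q hq q' hq' hne
      exact dwP_disj (hP2 q hq q' hq' hne)
    · rw [Set.disjoint_iUnion₂_right]
      intro q hq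
      apply dwP_disj
      rw [Set.disjoint_left]
      rintro c ⟨-, j, hj⟩ hc
      rw [hpr] at hj
      exact hj (rw_crit H (hP1 q hq).2 hc j)
  · rw [UW_eq_Ud H.toWC0 hd, add_zero]

/-- The arcs through the origin by the weighted order. -/
private theorem dw_arcs (H : WC f a D) (m : ℕ) :
    {γ ∈ arcs f (m + 1) m | ∀ i, γ (i, 0) = 0} = ⋃ p ∈ Finset.range (Sq.Wt a * m),
      dwP f a m (p + 1) (Sq.Ud (Sq.dP a (p + 1))) := by
  have hf0 : coeff 0 f = 0 := by
    by_contra hcon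
    have h1 := H.low 0 (mem_support_iff.2 hcon)
    unfold MPb07157.wt at h1
    simp only [Finsupp.coe_zero, Pi.zero_apply, mul_zero, Finset.sum_const_zero] at h1
    have := H.hD
    omega
  ext γ
  simp only [Set.mem_ofPred_eq, Set.mem_iUnion, Finset.mem_range, exists_prop]
  constructor
  · rintro ⟨h1, h2⟩
    have hne : ∃ q, γ q ≠ 0 := by
      by_contra hcon
      push Not at hcon
      have h3 := ((mem_arcs_iff _ _ _ _).1 h1).1
      apply h3
      have h4 : arc γ = fun _ => 0 := by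
        funext i
        ext k
        rw [coeff_arc]
        split_ifs
        · rw [hcon]
          simp
        · simp
      unfold Fv
      rw [h4]
      have h5 : (aeval (fun _ : Fin n => (0 : PowerSeries ℂ))) f =
          algebraMap ℂ (PowerSeries ℂ) (constantCoeff f) := by
        rw [aeval_zero']
      rw [h5, constantCoeff_eq, hf0, map_zero, map_zero]
    obtain ⟨p, hp, h3⟩ := Sq.exists_p H.ha hne h2
    obtain ⟨q, rfl⟩ : ∃ q, p = q + 1 := ⟨p - 1, by omega⟩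
    refine ⟨q, ?_, h1, h3⟩
    have h5 : Sq.MP a D (q + 1) ≤ m := by
      by_contra hcon
      push Not at hcon
      have h6 := dwP_empty H hp hcon (Sq.Ud (Sq.dP a (q + 1)))
      have h7 : γ ∈ dwP f a m (q + 1) (Sq.Ud (Sq.dP a (q + 1))) := ⟨h1, h3⟩
      rw [h6] at h7
      exact h7
    have h6 := (numW (D := D) H.ha hp).hM
    have h7 : Sq.Wt a * Sq.MP a D (q + 1) ≤ Sq.Wt a * m := Nat.mul_le_mul_left _ h5
    have h8 : (q + 1) * 1 ≤ (q + 1) * D := Nat.mul_le_mul_left _ H.hD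
    omega
  · rintro ⟨p, -, h1, h2⟩
    refine ⟨h1, fun i => ?_⟩
    by_contra hcon
    have h3 := ((Sq.mem_LA_P H.ha).1 h2).1 i 0 hcon
    simp only [Fin.val_zero, mul_zero] at h3
    have h4 := Nat.mul_pos (H.ha i) (Nat.succ_pos p)
    simp only [Nat.succ_eq_add_one] at h4
    omega

/-- The orders which are multiples of `W`. -/
private theorem dw_sum {W m : ℕ} (hW : 0 < W) (g : ℕ → Mot) (hg : ∀ p, ¬ W ∣ p → g p = 0) :
    ∑ p ∈ Finset.range (W * m), g (p + 1) = ∑ k ∈ Finset.Icc 1 m, g (W * k) := by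
  classical
  have h1 : ∑ p ∈ Finset.range (W * m), g (p + 1) = ∑ p ∈ Finset.Icc 1 (W * m), g p := by
    rw [Finset.range_eq_Ico, Finset.sum_Ico_add' g 0 (W * m) 1]
    rfl
  rw [h1]
  have h2 : ∑ k ∈ Finset.Icc 1 m, g (W * k) = ∑ p ∈ (Finset.Icc 1 m).image (W * ·), g p := by
    rw [Finset.sum_image]
    intro x _ y _ hxy
    exact Nat.eq_of_mul_eq_mul_left hW hxy
  rw [h2]
  symm
  apply Finset.sum_subset
  · intro p hp
    obtain ⟨k, hk, rfl⟩ := Finset.mem_image.1 hp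
    rw [Finset.mem_Icc] at hk ⊢
    exact ⟨Nat.mul_pos hW hk.1, Nat.mul_le_mul_left _ hk.2⟩
  · intro p hp hp'
    apply hg
    rintro ⟨k, rfl⟩
    apply hp'
    rw [Finset.mem_Icc] at hp
    refine Finset.mem_image.2 ⟨k, Finset.mem_Icc.2 ⟨?_, ?_⟩, rfl⟩
    · exact Nat.pos_of_mul_pos_left hp.1
    · exact Nat.le_of_mul_le_mul_left hp.2 hW

/-- **The decomposition**: the arcs through the origin by the weighted order `p`
(`Sq.arcs_eq_P`, `Sq.exists_p`, `Sq.disjoint_LA_P`, `agI/SqP3.lean`); the leading coefficients with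
`pr c` not critical: `UW`, measure `aW` by `Sq.measure_LA` with `NumR.isMinWt`, `NumR.nd` (or both
sides zero); if `p` is not a multiple of `W` there are no other ones (`UW_eq_Ud`); for `p = W k` the
other ones are the orbits of the `q ∈ P`, `orbM` (zero for `m < D k`). -/
theorem Zcoeff0_eq_W (H : WC f a D) {P : Finset (Fin n → ℂ)}
    (hP1 : ∀ q ∈ P, (∃ j, q j = 1) ∧ ∀ j, eval q (pderiv j (LF f a D)) = 0)
    (hP2 : ∀ p ∈ P, ∀ q ∈ P, p ≠ q → Disjoint (orb a p) (orb a q))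
    (hP3 : ∀ c, c ≠ 0 → (∀ j, eval c (pderiv j (LF f a D)) = 0) → ∃ q ∈ P, c ∈ orb a q) (m : ℕ) :
    Zcoeff0 f m = ∑ p ∈ Finset.range (Sq.Wt a * m), aW f a D (p + 1) m +
      ∑ q ∈ P, ∑ k ∈ Finset.Icc 1 m, if D * k ≤ m then orbM f a m k m q else 0 := by
  classical
  unfold Zcoeff0
  have h1 : clsM {γ ∈ arcs f (m + 1) m | ∀ i, γ (i, 0) = 0} =
      ∑ p ∈ Finset.range (Sq.Wt a * m), clsM (dwP f a m (p + 1) (Sq.Ud (Sq.dP a (p + 1)))) := by
    rw [dw_arcs H m]
    unfold clsM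
    rw [cls_biUnion _ _ (fun p _ => dwP_constr H (Nat.succ_pos p) (Sq.isConstr_Ud _)), map_sum]
    intro p _ q _ hpq
    exact (Sq.disjoint_LA_P H.ha (by omega)).mono (fun _ hx => hx.2) (fun _ hx => hx.2)
  rw [h1, Finset.mul_sum]
  have h2 : ∀ p ∈ Finset.range (Sq.Wt a * m),
      ↑((LU ^ (n * (m + 1)))⁻¹) * clsM (dwP f a m (p + 1) (Sq.Ud (Sq.dP a (p + 1)))) =
      aW f a D (p + 1) m + ↑((LU ^ (n * (m + 1)))⁻¹) *
        if Sq.Wt a ∣ p + 1 then ∑ q ∈ P, clsM (dwP f a m (p + 1) (orb a q)) else 0 := by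
    intro p _
    rw [dw_split H hP1 hP2 hP3 (Nat.succ_pos p) m, mul_add, dwP_UW H (Nat.succ_pos p) m]
  rw [Finset.sum_congr rfl h2, Finset.sum_add_distrib]
  congr 1
  rw [dw_sum (Sq.Wt_pos H.ha) (fun p => ↑((LU ^ (n * (m + 1)))⁻¹) *
    if Sq.Wt a ∣ p then ∑ q ∈ P, clsM (dwP f a m p (orb a q)) else 0)
    (fun p hp => by rw [if_neg hp, mul_zero]), Finset.sum_comm]
  refine Finset.sum_congr rfl fun k hk => ?_
  rw [Finset.mem_Icc] at hk
  rw [if_pos (Dvd.intro k rfl), Finset.mul_sum]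
  refine Finset.sum_congr rfl fun q _ => ?_
  obtain ⟨h3, -, h4⟩ := rP_mul (D := D) H.ha k
  split_ifs with hm
  · unfold orbM dwP
    rw [h3]
  · rw [dwP_empty H (Nat.mul_pos (Sq.Wt_pos H.ha) hk.1) (by rw [h4]; omega), dw_clsM_empty,
      mul_zero]

end YW

end MPb07157
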