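import Pool.Agent.Lib.MP_b07157_agYW.RepW
import Pool.Agent.Lib.MP_b07157_agO.Ev
import Pool.Agent.Lib.MP_b07157_agI.Line

/-!
# The arcs near an orbit in the chart: the bijection
-/

noncomputable section

namespace MPb07157

open MvPolynomial

namespace YW

open YV SI.LineA

namespace OrbA

/-! ### Powers of power series of the same order -/

theorem dvd_of_pow {k m M : ℕ} (hm : 0 < m) (hkM : k ≤ M) {V V' : PowerSeries ℂ}
    (h0 : PowerSeries.constantCoeff V = PowerSeries.constantCoeff V')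
    (hV : PowerSeries.constantCoeff V ≠ 0)
    (h : (PowerSeries.X : PowerSeries ℂ) ^ (M + (m - 1) * k) ∣
      (PowerSeries.X ^ k * V) ^ m - (PowerSeries.X ^ k * V') ^ m) :
    (PowerSeries.X : PowerSeries ℂ) ^ M ∣ PowerSeries.X ^ k * V - PowerSeries.X ^ k * V' := by
  have e1 : M + (m - 1) * k = k * m + (M - k) := by
    obtain ⟨p, rfl⟩ : ∃ p, m = p + 1 := ⟨m - 1, by omega⟩
    rw [Nat.add_sub_cancel, mul_add, mul_one, mul_comm k p]
    omega
  have e2 : (PowerSeries.X ^ k * V) ^ m - (PowerSeries.X ^ k * V') ^ m =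
      PowerSeries.X ^ (k * m) * ((∑ i ∈ Finset.range m, V ^ i * V' ^ (m - 1 - i)) * (V - V')) := by
    rw [(Commute.all V V').geom_sum₂_mul, mul_pow, mul_pow, ← pow_mul]
    ring
  rw [e1, e2, pow_add] at h
  have h1 := (mul_dvd_mul_iff_left (pow_ne_zero _ PowerSeries.X_ne_zero)).1 h
  have hu : IsUnit (∑ i ∈ Finset.range m, V ^ i * V' ^ (m - 1 - i)) := by
    rw [PowerSeries.isUnit_iff_constantCoeff, map_sum]
    have h2 : ∀ i ∈ Finset.range m, PowerSeries.constantCoeff (V ^ i * V' ^ (m - 1 - i)) =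
        PowerSeries.constantCoeff V ^ (m - 1) := by
      intro i hi
      rw [Finset.mem_range] at hi
      rw [map_mul, map_pow, map_pow, ← h0, ← pow_add]
      congr 1
      omega
    rw [Finset.sum_congr rfl h2, Finset.sum_const, Finset.card_range, isUnit_iff_ne_zero,
      nsmul_eq_mul]
    exact mul_ne_zero (by exact_mod_cast hm.ne') (pow_ne_zero _ hV)
  have h3 := dvd_of_unit_mul hu h1
  have e3 : (PowerSeries.X : PowerSeries ℂ) ^ M = PowerSeries.X ^ k * PowerSeries.X ^ (M - k) := by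
    rw [← pow_add]
    congr 1
    omega
  rw [← mul_sub, e3]
  exact mul_dvd_mul_left _ h3

theorem pow_congr {k m M : ℕ} (hm : 0 < m) {U U' : PowerSeries ℂ}
    (h1 : (PowerSeries.X : PowerSeries ℂ) ^ k ∣ U) (h2 : (PowerSeries.X : PowerSeries ℂ) ^ k ∣ U')
    (h : (PowerSeries.X : PowerSeries ℂ) ^ M ∣ U - U') :
    (PowerSeries.X : PowerSeries ℂ) ^ (M + (m - 1) * k) ∣ U ^ m - U' ^ m := by
  rw [← (Commute.all U U').geom_sum₂_mul, pow_add, mul_comm (∑ i ∈ _, _)]
  refine mul_dvd_mul h (Finset.dvd_sum fun i hi => ?_)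
  rw [Finset.mem_range] at hi
  have e : (m - 1) * k = k * i + k * (m - 1 - i) := by
    rw [← mul_add, mul_comm]
    congr 1
    omega
  rw [e, pow_add, pow_mul, pow_mul]
  exact mul_dvd_mul (pow_dvd_pow_of_dvd h1 _) (pow_dvd_pow_of_dvd h2 _)

/-- The leading term. -/
theorem exists_lead {k : ℕ} {U : PowerSeries ℂ} (h : U.order = (k : ℕ∞)) :
    ∃ V, U = PowerSeries.X ^ k * V ∧ PowerSeries.constantCoeff V ≠ 0 := by
  obtain ⟨V, hV⟩ : (PowerSeries.X : PowerSeries ℂ) ^ k ∣ U := by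
    rw [PowerSeries.X_pow_dvd_iff]
    intro m hm
    exact ((PowerSeries.order_eq_nat).1 h).2 m hm
  refine ⟨V, hV, ?_⟩
  have h1 := ((PowerSeries.order_eq_nat).1 h).1
  rw [hV, PowerSeries.coeff_X_pow_mul', if_pos le_rfl, Nat.sub_self,
    PowerSeries.coeff_zero_eq_constantCoeff_apply] at h1
  exact h1

theorem order_X_mul {k : ℕ} {V : PowerSeries ℂ} (h : PowerSeries.constantCoeff V ≠ 0) :
    (PowerSeries.X ^ k * V).order = (k : ℕ∞) := by
  rw [PowerSeries.order_eq_nat]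
  refine ⟨?_, fun m hm => ?_⟩
  · rw [PowerSeries.coeff_X_pow_mul', if_pos le_rfl, Nat.sub_self,
      PowerSeries.coeff_zero_eq_constantCoeff_apply]
    exact h
  · rw [PowerSeries.coeff_X_pow_mul', if_neg (by omega)]

variable {n : ℕ} {f : MvPolynomial (Fin (n + 1)) ℂ} {a : Fin (n + 1) → ℕ} {D k i L : ℕ}
  {q : Fin (n + 1) → ℂ} {j₀ : Fin (n + 1)} {h : MvPolynomial (Fin (n + 1)) ℂ}

/-! ### The map -/

/-- The numbers of free coefficients. -/
def fr (a : Fin (n + 1) → ℕ) (j₀ : Fin (n + 1)) (k : ℕ) : Fin (n + 1) → ℕ :=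
  Fin.cases ((a j₀ - 1) * k) fun s => a (j₀.succAbove s) * k

theorem fr_zero : fr a j₀ k 0 = (a j₀ - 1) * k := rfl

theorem fr_succ (s : Fin n) : fr a j₀ k s.succ = a (j₀.succAbove s) * k := rfl

theorem sum_fr (ha : ∀ i, 0 < a i) : ∑ j, fr a j₀ k j = (∑ j, a j - 1) * k := by
  rw [Fin.sum_univ_succ, fr_zero]
  simp only [fr_succ]
  rw [Fin.sum_univ_succAbove _ j₀, ← Finset.sum_mul, ← add_mul]
  congr 1
  have := ha j₀
  omega

/-- The free coefficients. -/
abbrev Tp (a : Fin (n + 1) → ℕ) (j₀ : Fin (n + 1)) (k L : ℕ) : Type :=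
  {p : Fin (n + 1) × Fin (L + 1) // L + 1 ≤ (p.2 : ℕ) + fr a j₀ k p.1}

theorem card_Tp (ha : ∀ i, 0 < a i) (hf : ∀ j, fr a j₀ k j ≤ L + 1) :
    Fintype.card (Tp a j₀ k L) = (∑ j, a j - 1) * k := by
  classical
  have h1 : (Zpos (L + 1) fun j => L + 1 - fr a j₀ k j).card = ∑ j, (L + 1 - fr a j₀ k j) :=
    card_Zpos fun j => Nat.sub_le _ _
  have h2 : (Finset.univ.filter fun p : Fin (n + 1) × Fin (L + 1) =>
      ¬ (L + 1 ≤ (p.2 : ℕ) + fr a j₀ k p.1)) = Zpos (L + 1) fun j => L + 1 - fr a j₀ k j := by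
    ext p
    simp only [Zpos, Finset.mem_filter, Finset.mem_univ, true_and]
    omega
  have h3 := Finset.card_filter_add_card_filter_not (s := (Finset.univ :
    Finset (Fin (n + 1) × Fin (L + 1)))) (fun p => L + 1 ≤ (p.2 : ℕ) + fr a j₀ k p.1)
  rw [h2, h1, Finset.card_univ, Fintype.card_prod, Fintype.card_fin, Fintype.card_fin] at h3
  rw [Fintype.card_subtype, ← sum_fr ha (j₀ := j₀) (k := k)]
  have h4 : ∑ j, (L + 1 - fr a j₀ k j) + ∑ j, fr a j₀ k j = (n + 1) * (L + 1) := by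
    rw [← Finset.sum_add_distrib, Finset.sum_congr rfl fun j _ => Nat.sub_add_cancel (hf j)]
    simp
  omega

/-- The map: the free coefficients and the arc. -/
def ph (a : Fin (n + 1) → ℕ) (q : Fin (n + 1) → ℂ) (j₀ : Fin (n + 1)) (k L : ℕ) :
    Tp a j₀ k L ⊕ (Fin (n + 1) × Fin (L + 1)) → MvPolynomial (Fin (n + 1) × Fin (L + 1)) ℂ :=
  Sum.elim (fun p => X p.1) fun p => cA (chW a q j₀ p.1) (p.2 : ℕ)

theorem ph_inl (γ : Fin (n + 1) × Fin (L + 1) → ℂ) (p : Tp a j₀ k L) :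
    polyMap (ph a q j₀ k L) γ (Sum.inl p) = γ p.1 := by
  show eval γ (X p.1) = _
  rw [eval_X]

theorem ph_inr (γ : Fin (n + 1) × Fin (L + 1) → ℂ) (p : Fin (n + 1) × Fin (L + 1)) :
    polyMap (ph a q j₀ k L) γ (Sum.inr p) =
      PowerSeries.coeff (p.2 : ℕ) (aeval (arc γ) (chW a q j₀ p.1) : PowerSeries ℂ) :=
  eval_cA _ _ _

theorem ev_self (γ : Fin (n + 1) × Fin (L + 1) → ℂ) :
    (aeval (arc γ) (chW a q j₀ j₀) : PowerSeries ℂ) = arc γ 0 ^ a j₀ := by
  unfold chW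
  rw [Fin.insertNth_apply_same, map_mul, map_pow, aeval_X, map_one, mul_one]

theorem ev_above (γ : Fin (n + 1) × Fin (L + 1) → ℂ) (s : Fin n) :
    (aeval (arc γ) (chW a q j₀ (j₀.succAbove s)) : PowerSeries ℂ) =
      arc γ 0 ^ a (j₀.succAbove s) * (arc γ s.succ + PowerSeries.C (q (j₀.succAbove s))) := by
  unfold chW
  rw [Fin.insertNth_apply_succAbove, map_mul, map_pow, aeval_X, map_add, aeval_X, aeval_C]
  rfl

/-- The value of `f`. -/
theorem val (hh : aeval (chW a q j₀) f = X 0 ^ D * h) {γ w : Fin (n + 1) × Fin (L + 1) → ℂ}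
    (hw : ∀ j, (PowerSeries.X : PowerSeries ℂ) ^ (L + 1) ∣
      arc w j - aeval (arc γ) (chW a q j₀ j)) :
    (PowerSeries.X : PowerSeries ℂ) ^ (L + 1) ∣
      aeval (arc w) f - arc γ 0 ^ D * aeval (arc γ) h := by
  have h1 : (aeval (fun j => (aeval (arc γ) (chW a q j₀ j) : PowerSeries ℂ)) f : PowerSeries ℂ) =
      arc γ 0 ^ D * aeval (arc γ) h := by
    have h2 := congrArg (aeval (arc γ) : MvPolynomial (Fin (n + 1)) ℂ →ₐ[ℂ] PowerSeries ℂ) hh
    rw [map_mul, map_pow, aeval_X] at h2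
    rw [← h2, ← comp_aeval_apply]
  rw [← h1]
  exact aeval_congr_X_pow _ _ _ _ hw

theorem order_iff {U H : PowerSeries ℂ} (hU : U.order = (k : ℕ∞)) :
    (U ^ D * H).order = ((D * k + i : ℕ) : ℕ∞) ↔ H.order = (i : ℕ∞) := by
  rw [PowerSeries.order_mul, PowerSeries.order_pow, hU, nsmul_eq_mul, Nat.cast_add, Nat.cast_mul]
  constructor
  · intro h1
    rcases eq_or_ne H.order ⊤ with h3 | h3
    · rw [h3, add_top, ← Nat.cast_mul, ← Nat.cast_add] at h1
      exact absurd h1.symm (ENat.natCast_ne_top _)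
    · obtain ⟨m, hm⟩ := ENat.ne_top_iff_exists.1 h3
      rw [← hm] at h1 ⊢
      norm_cast at h1 ⊢
      omega
  · intro h1
    rw [h1]

/-- `ord x_j`. -/
theorem exists_lead_x (hq : q j₀ = 1) {γ : Fin (n + 1) × Fin (L + 1) → ℂ}
    (h0 : ∀ j, γ (j, 0) = 0) {V : PowerSeries ℂ} (hV : arc γ 0 = PowerSeries.X ^ k * V)
    (j : Fin (n + 1)) : ∃ T : PowerSeries ℂ,
      (aeval (arc γ) (chW a q j₀ j) : PowerSeries ℂ) = PowerSeries.X ^ (a j * k) * T ∧
      PowerSeries.constantCoeff T = PowerSeries.constantCoeff V ^ a j * q j := by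
  rcases Fin.eq_self_or_eq_succAbove j₀ j with rfl | ⟨s, rfl⟩
  · refine ⟨V ^ a j, ?_, ?_⟩
    · rw [ev_self, hV, mul_pow, ← pow_mul, mul_comm k]
    · rw [map_pow, hq, mul_one]
  · refine ⟨V ^ a (j₀.succAbove s) * (arc γ s.succ + PowerSeries.C (q (j₀.succAbove s))), ?_, ?_⟩
    · rw [ev_above, hV, mul_pow, ← pow_mul, mul_comm k, mul_assoc]
    · have h1 : PowerSeries.constantCoeff (arc γ s.succ) = 0 := by
        rw [← PowerSeries.coeff_zero_eq_constantCoeff_apply, coeff_arc, dif_pos (Nat.succ_pos L)]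
        exact h0 _
      rw [map_mul, map_pow, map_add, h1, zero_add, PowerSeries.constantCoeff_C]

theorem mapsTo (hak : ∀ j, a j * k + k ≤ L) (hq : q j₀ = 1)
    (hh : aeval (chW a q j₀) f = X 0 ^ D * h) (hL : D * k + i ≤ L)
    {γ : Fin (n + 1) × Fin (L + 1) → ℂ} (hγ : γ ∈ YG.AK h L k i) :
    (fun p => polyMap (ph a q j₀ k L) γ (Sum.inr p)) ∈
      arcs f (L + 1) (D * k + i) ∩ Sq.LA (L + 1) (fun j => a j * k) (orb a q) := by
  obtain ⟨h0, h1, h2⟩ := hγ
  obtain ⟨V, hV, hV0⟩ := exists_lead h1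
  have hr : ∀ j, a j * k < L + 1 := fun j => by have := hak j; omega
  set w : Fin (n + 1) × Fin (L + 1) → ℂ :=
    fun p => polyMap (ph a q j₀ k L) γ (Sum.inr p) with hw
  have hw' : ∀ j (l : Fin (L + 1)), w (j, l) =
      PowerSeries.coeff (l : ℕ) (aeval (arc γ) (chW a q j₀ j) : PowerSeries ℂ) :=
    fun j l => ph_inr γ (j, l)
  refine ⟨?_, ?_, ?_⟩
  · show (aeval (arc w) f : PowerSeries ℂ).order = _
    rw [order_congr (Nat.lt_succ_of_le hL) (val hh fun j => arc_congr fun l => hw' j l)]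
    exact (order_iff h1).2 h2
  · intro j l hl
    have hl' : (l : ℕ) < a j * k := hl
    obtain ⟨T, hT, -⟩ := exists_lead_x hq h0 hV j
    rw [hw', hT, PowerSeries.coeff_X_pow_mul', if_neg (by omega)]
  · rw [Sq.lead0_eq_of_lt hr]
    refine ⟨PowerSeries.constantCoeff V, hV0, ?_⟩
    funext j
    obtain ⟨T, hT, hT0⟩ := exists_lead_x hq h0 hV j
    rw [hw', hT, PowerSeries.coeff_X_pow_mul', if_pos le_rfl, Nat.sub_self,
      PowerSeries.coeff_zero_eq_constantCoeff_apply, hT0]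
    rfl

theorem eq_one_of_free (hfree : Free a q) {r : ℂ}
    (hr : ∀ j, q j ≠ 0 → r ^ a j = 1) : r = 1 := by
  have h1 := hfree (orderOf r) fun j hj => orderOf_dvd_of_pow_eq_one (hr j hj)
  exact orderOf_eq_one_iff.1 h1

theorem injOn (ha : ∀ i, 0 < a i) (hak : ∀ j, a j * k + k ≤ L) (hq : q j₀ = 1)
    (hfree : Free a q) {γ γ' : Fin (n + 1) × Fin (L + 1) → ℂ} (hγ : γ ∈ YG.AK h L k i)
    (hγ' : γ' ∈ YG.AK h L k i)
    (he : polyMap (ph a q j₀ k L) γ = polyMap (ph a q j₀ k L) γ') : γ = γ' := by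
  obtain ⟨h0, h1, -⟩ := hγ
  obtain ⟨h0', h1', -⟩ := hγ'
  obtain ⟨V, hV, hV0⟩ := exists_lead h1
  obtain ⟨V', hV', hV0'⟩ := exists_lead h1'
  have e1 : ∀ p : Tp a j₀ k L, γ p.1 = γ' p.1 := by
    intro p
    rw [← ph_inl (q := q) γ p, ← ph_inl (q := q) γ' p, he]
  have e2 : ∀ j, (PowerSeries.X : PowerSeries ℂ) ^ (L + 1) ∣
      aeval (arc γ) (chW a q j₀ j) - aeval (arc γ') (chW a q j₀ j) := by
    intro j
    refine dvd_of_coeff fun l hl => ?_
    have h2 := congrFun he (Sum.inr (j, ⟨l, hl⟩))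
    rwa [ph_inr, ph_inr] at h2
  -- the leading coefficients of `u`
  have e3 : PowerSeries.constantCoeff V = PowerSeries.constantCoeff V' := by
    have h2 : ∀ j, PowerSeries.constantCoeff V ^ a j * q j =
        PowerSeries.constantCoeff V' ^ a j * q j := by
      intro j
      obtain ⟨T, hT, hT0⟩ := exists_lead_x hq h0 hV j
      obtain ⟨T', hT', hT0'⟩ := exists_lead_x hq h0' hV' j
      have h3 := coeff_of_dvd (e2 j) (l := a j * k) (by have := hak j; omega)
      rw [hT, hT', PowerSeries.coeff_X_pow_mul', PowerSeries.coeff_X_pow_mul', if_pos le_rfl,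
        if_pos le_rfl, Nat.sub_self, PowerSeries.coeff_zero_eq_constantCoeff_apply,
        PowerSeries.coeff_zero_eq_constantCoeff_apply, hT0, hT0'] at h3
      exact h3
    have h3 : PowerSeries.constantCoeff V / PowerSeries.constantCoeff V' = 1 := by
      apply eq_one_of_free hfree
      intro j hj
      rw [div_pow, div_eq_one_iff_eq (pow_ne_zero _ hV0')]
      exact mul_right_cancel₀ hj (h2 j)
    exact (div_eq_one_iff_eq hV0').1 h3
  -- `u`
  have e4 : ∀ l : Fin (L + 1), γ (0, l) = γ' (0, l) := by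
    intro l
    by_cases hl : L + 1 ≤ (l : ℕ) + fr a j₀ k 0
    · exact e1 ⟨(0, l), hl⟩
    · have h2 := e2 j₀
      rw [ev_self, ev_self, hV, hV'] at h2
      have h3 : (PowerSeries.X : PowerSeries ℂ) ^ (L + 1) =
          PowerSeries.X ^ ((L + 1 - fr a j₀ k 0) + (a j₀ - 1) * k) := by
        congr 1
        rw [fr_zero]
        rw [fr_zero] at hl
        omega
      have h5 : k ≤ L + 1 - fr a j₀ k 0 := by
        have h6 := hak j₀
        have h7 : fr a j₀ k 0 ≤ a j₀ * k := Nat.mul_le_mul_right _ (Nat.sub_le _ _)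
        omega
      rw [h3] at h2
      have h4 := dvd_of_pow (ha j₀) h5 e3 hV0 h2
      rw [← hV, ← hV', PowerSeries.X_pow_dvd_iff] at h4
      have h8 := h4 l (by omega)
      rw [map_sub, sub_eq_zero, coeff_arc, coeff_arc, dif_pos l.isLt, dif_pos l.isLt] at h8
      exact h8
  have e5 : arc γ 0 = arc γ' 0 := by
    unfold arc
    exact Finset.sum_congr rfl fun l _ => by rw [e4]
  funext ⟨j, l⟩
  refine Fin.cases (e4 l) (fun s => ?_) j
  by_cases hl : L + 1 ≤ (l : ℕ) + fr a j₀ k s.succ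
  · exact e1 ⟨(s.succ, l), hl⟩
  · have h2 := e2 (j₀.succAbove s)
    rw [ev_above, ev_above, ← e5, ← mul_sub, add_sub_add_right_eq_sub, hV, mul_pow, ← pow_mul,
      mul_assoc] at h2
    rw [fr_succ] at hl
    have h3 : (PowerSeries.X : PowerSeries ℂ) ^ (L + 1) =
        PowerSeries.X ^ (k * a (j₀.succAbove s)) *
          PowerSeries.X ^ (L + 1 - a (j₀.succAbove s) * k) := by
      rw [← pow_add]
      congr 1
      rw [mul_comm k]
      omega
    rw [h3] at h2
    have h4 := (mul_dvd_mul_iff_left (pow_ne_zero _ PowerSeries.X_ne_zero)).1 h2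
    have h5 : IsUnit (V ^ a (j₀.succAbove s)) := by
      rw [PowerSeries.isUnit_iff_constantCoeff, map_pow, isUnit_iff_ne_zero]
      exact pow_ne_zero _ hV0
    have h6 := dvd_of_unit_mul h5 h4
    rw [PowerSeries.X_pow_dvd_iff] at h6
    have h8 := h6 l (by omega)
    rw [map_sub, sub_eq_zero, coeff_arc, coeff_arc, dif_pos l.isLt, dif_pos l.isLt] at h8
    exact h8

theorem surj (ha : ∀ i, 0 < a i) (hak : ∀ j, a j * k + k ≤ L) (hk : 0 < k) (hq : q j₀ = 1)
    (hh : aeval (chW a q j₀) f = X 0 ^ D * h) (hL : D * k + i ≤ L)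
    {z : Tp a j₀ k L ⊕ (Fin (n + 1) × Fin (L + 1)) → ℂ}
    (hz : (fun p => z (Sum.inr p)) ∈
      arcs f (L + 1) (D * k + i) ∩ Sq.LA (L + 1) (fun j => a j * k) (orb a q)) :
    ∃ γ ∈ YG.AK h L k i, polyMap (ph a q j₀ k L) γ = z := by
  set w : Fin (n + 1) × Fin (L + 1) → ℂ := fun p => z (Sum.inr p) with hw
  obtain ⟨h1, h2, h3⟩ := hz
  obtain ⟨t, ht, h4⟩ := h3
  set T : Fin (n + 1) → PowerSeries ℂ := tailS (fun j => a j * k) w with hT
  have hW : ∀ j, arc w j = PowerSeries.X ^ (a j * k) * T j := fun j => arc_eq_tail h2 j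
  have hT0 : ∀ j, PowerSeries.constantCoeff (T j) = t ^ a j * q j := by
    intro j
    rw [hT, constantCoeff_tailS, h4]
    rfl
  -- `u`
  obtain ⟨V, hV, hV0⟩ : ∃ V : PowerSeries ℂ, V ^ a j₀ = T j₀ ∧
      PowerSeries.constantCoeff V = t := by
    obtain ⟨g, hg⟩ := QO.exists_root (ha j₀) (T j₀) (by
      rw [hT0, hq, mul_one]
      exact pow_ne_zero _ ht)
    have hg0 : PowerSeries.constantCoeff g ^ a j₀ = t ^ a j₀ := by
      rw [← map_pow, hg, hT0, hq, mul_one]
    have hg1 : PowerSeries.constantCoeff g ≠ 0 := by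
      intro h5
      rw [h5, zero_pow (ha j₀).ne'] at hg0
      exact pow_ne_zero _ ht hg0.symm
    refine ⟨PowerSeries.C (t / PowerSeries.constantCoeff g) * g, ?_, ?_⟩
    · rw [mul_pow, ← map_pow, div_pow, hg0, div_self (pow_ne_zero _ ht), map_one, one_mul, hg]
    · rw [map_mul, PowerSeries.constantCoeff_C, div_mul_cancel₀ _ hg1]
  set u : PowerSeries ℂ := PowerSeries.X ^ k * V with hu
  have hfr0 : fr a j₀ k 0 + k = a j₀ * k := by
    rw [fr_zero, ← Nat.succ_mul]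
    congr 1
    have := ha j₀
    omega
  set M := L + 1 - fr a j₀ k 0 with hM
  have hkM : k < M := by
    have := hak j₀
    omega
  set g0 : Fin (L + 1) → ℂ := fun l => if hl : L + 1 ≤ (l : ℕ) + fr a j₀ k 0 then
    z (Sum.inl ⟨(0, l), hl⟩) else PowerSeries.coeff (l : ℕ) u with hg0
  set U : PowerSeries ℂ := ∑ l : Fin (L + 1), PowerSeries.C (g0 l) * PowerSeries.X ^ (l : ℕ) with hU
  have hUc : ∀ l : ℕ, PowerSeries.coeff l U = if hl : l < L + 1 then g0 ⟨l, hl⟩ else 0 :=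
    fun l => coeff_arc (fun p : Fin 1 × Fin (L + 1) => g0 p.2) 0 l
  have hUM : (PowerSeries.X : PowerSeries ℂ) ^ M ∣ U - u := by
    rw [PowerSeries.X_pow_dvd_iff]
    intro l hl
    have hl' : l < L + 1 := by omega
    rw [map_sub, sub_eq_zero, hUc, dif_pos hl', hg0]
    show (if hl : L + 1 ≤ l + fr a j₀ k 0 then z (Sum.inl ⟨(0, ⟨l, hl'⟩), hl⟩) else
      PowerSeries.coeff l u) = _
    rw [dif_neg (by omega)]
  have hVt : PowerSeries.constantCoeff V ≠ 0 := by
    rw [hV0]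
    exact ht
  have hUk : U.order = (k : ℕ∞) := by
    rw [order_congr hkM hUM]
    exact order_X_mul hVt
  obtain ⟨V₁, hV₁, hV₁0⟩ := exists_lead hUk
  have hV₁t : PowerSeries.constantCoeff V₁ = t := by
    rw [PowerSeries.X_pow_dvd_iff] at hUM
    have h5 := hUM k hkM
    rw [map_sub, sub_eq_zero, hV₁, hu, PowerSeries.coeff_X_pow_mul', PowerSeries.coeff_X_pow_mul',
      if_pos le_rfl, if_pos le_rfl, Nat.sub_self, PowerSeries.coeff_zero_eq_constantCoeff_apply,
      PowerSeries.coeff_zero_eq_constantCoeff_apply, hV0] at h5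
    exact h5
  -- `y`
  set y : Fin n → PowerSeries ℂ := fun s => (V₁ ^ a (j₀.succAbove s))⁻¹ * T (j₀.succAbove s) -
    PowerSeries.C (q (j₀.succAbove s)) with hy
  have hVp : ∀ m : ℕ, PowerSeries.constantCoeff (V₁ ^ m) ≠ 0 := by
    intro m
    rw [map_pow]
    exact pow_ne_zero _ hV₁0
  have hyT : ∀ s, T (j₀.succAbove s) =
      V₁ ^ a (j₀.succAbove s) * (y s + PowerSeries.C (q (j₀.succAbove s))) := by
    intro s
    rw [hy]
    simp only
    rw [sub_add_cancel, ← mul_assoc, PowerSeries.mul_inv_cancel _ (hVp _), one_mul]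
  have hy0 : ∀ s, PowerSeries.constantCoeff (y s) = 0 := by
    intro s
    have h5 := congrArg PowerSeries.constantCoeff (hyT s)
    rw [hT0, map_mul, map_pow, hV₁t, map_add, PowerSeries.constantCoeff_C] at h5
    have h6 := mul_left_cancel₀ (pow_ne_zero _ ht) h5
    linear_combination -h6
  set γ : Fin (n + 1) × Fin (L + 1) → ℂ := fun p => Fin.cases (motive := fun _ => ℂ) (g0 p.2)
    (fun s => if hl : L + 1 ≤ (p.2 : ℕ) + fr a j₀ k s.succ then z (Sum.inl ⟨(s.succ, p.2), hl⟩)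
      else PowerSeries.coeff (p.2 : ℕ) (y s)) p.1 with hγ
  have hγ0 : ∀ l, γ (0, l) = g0 l := fun l => rfl
  have hγs : ∀ (s : Fin n) (l : Fin (L + 1)), γ (s.succ, l) =
      if hl : L + 1 ≤ (l : ℕ) + fr a j₀ k s.succ then z (Sum.inl ⟨(s.succ, l), hl⟩)
      else PowerSeries.coeff (l : ℕ) (y s) := fun s l => rfl
  have hU0 : arc γ 0 = U := rfl
  have hys : ∀ s, (PowerSeries.X : PowerSeries ℂ) ^ (L + 1 - a (j₀.succAbove s) * k) ∣
      y s - arc γ s.succ := by
    intro s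
    rw [PowerSeries.X_pow_dvd_iff]
    intro l hl
    have hl' : l < L + 1 := by omega
    have hl2 : ¬ L + 1 ≤ ((⟨l, hl'⟩ : Fin (L + 1)) : ℕ) + fr a j₀ k s.succ := by
      rw [fr_succ]
      show ¬ L + 1 ≤ l + a (j₀.succAbove s) * k
      omega
    rw [map_sub, sub_eq_zero, coeff_arc, dif_pos hl', hγs, dif_neg hl2]
  have hc : ∀ j, (PowerSeries.X : PowerSeries ℂ) ^ (L + 1) ∣
      arc w j - aeval (arc γ) (chW a q j₀ j) := by
    intro j
    rcases Fin.eq_self_or_eq_succAbove j₀ j with rfl | ⟨s, rfl⟩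
    · have h5 : arc w j = u ^ a j := by
        rw [hW, ← hV, hu, mul_pow, ← pow_mul, mul_comm k]
      have h6 : (PowerSeries.X : PowerSeries ℂ) ^ (L + 1) = PowerSeries.X ^ (M + (a j - 1) * k) := by
        congr 1
        rw [hM, fr_zero]
        have h7 := hak j
        rw [fr_zero] at hfr0
        omega
      rw [ev_self, hU0, h5, h6]
      have h8 : (PowerSeries.X : PowerSeries ℂ) ^ M ∣ u - U := by
        rw [← neg_sub]
        exact (dvd_neg).2 hUM
      exact pow_congr (ha j) (Dvd.intro _ rfl) (Dvd.intro _ hV₁.symm) h8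
    · have h5 : arc w (j₀.succAbove s) - aeval (arc γ) (chW a q j₀ (j₀.succAbove s)) =
          PowerSeries.X ^ (a (j₀.succAbove s) * k) *
            (V₁ ^ a (j₀.succAbove s) * (y s - arc γ s.succ)) := by
        rw [ev_above, hU0, hW, hyT, hV₁, mul_pow, ← pow_mul, mul_comm k]
        ring
      have h6 : (PowerSeries.X : PowerSeries ℂ) ^ (L + 1) =
          PowerSeries.X ^ (a (j₀.succAbove s) * k) *
            PowerSeries.X ^ (L + 1 - a (j₀.succAbove s) * k) := by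
        rw [← pow_add]
        congr 1
        have := hak (j₀.succAbove s)
        omega
      rw [h5, h6]
      exact mul_dvd_mul_left _ (Dvd.dvd.mul_left (hys s) _)
  refine ⟨γ, ⟨?_, ?_, ?_⟩, ?_⟩
  · intro j
    refine Fin.cases ?_ (fun s => ?_) j
    · have h5 : ¬ L + 1 ≤ ((0 : Fin (L + 1)) : ℕ) + fr a j₀ k 0 := by
        rw [Fin.val_zero]
        omega
      rw [hγ0, hg0]
      simp only
      rw [dif_neg h5, Fin.val_zero, hu, PowerSeries.coeff_X_pow_mul', if_neg (by omega)]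
    · have h5 : ¬ L + 1 ≤ ((0 : Fin (L + 1)) : ℕ) + fr a j₀ k s.succ := by
        rw [Fin.val_zero, fr_succ]
        have := hak (j₀.succAbove s)
        omega
      rw [hγs, dif_neg h5, Fin.val_zero, PowerSeries.coeff_zero_eq_constantCoeff_apply, hy0]
  · rw [hU0]
    exact hUk
  · have h5 : (aeval (arc w) f : PowerSeries ℂ).order = ((D * k + i : ℕ) : ℕ∞) := h1
    rw [order_congr (Nat.lt_succ_of_le hL) (val hh hc), hU0] at h5
    exact (order_iff hUk).1 h5
  · funext p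
    rcases p with ⟨⟨j, l⟩, hl⟩ | ⟨j, l⟩
    · rw [ph_inl]
      revert hl
      refine Fin.cases (fun hl => ?_) (fun s hl => ?_) j
      · exact dif_pos hl
      · exact dif_pos hl
    · rw [ph_inr, ← coeff_of_dvd (hc j) l.isLt, coeff_arc, dif_pos l.isLt]

end OrbA

end YW

end MPb07157
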