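import Pool.Agent.Lib.MP_b07157_agYW.Defs
import Pool.Agent.Lib.MP_b07157_agYV.ResV

/-!
# The residue lemma
-/

noncomputable section

namespace MPb07157

open MvPolynomial TensorProduct

namespace YW

open PC SU SI YL YV

variable {n : ℕ}

open ResVA YG.ResNA in
/-- **The residue lemma.** As `YV.residueV` (`agYV/ResV.lean`), with `IsChartW` (the chart is
`x ↦ ξ(x)`, the Jacobian determinant is `x_0^c J`) instead of `IsChartV` (`x ↦ x_0 ξ(x)`, `x_0^n D`),
and `nuc c w` instead of `nu w`. -/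
theorem residueW {f : MvPolynomial (Fin (n + 1)) ℂ} {d c : ℕ} {G : MvPolynomial (Fin (n + 1)) ℂ}
    {ξ : Fin (n + 1) → MvPowerSeries (Fin (n + 1)) ℂ} {U D : MvPowerSeries (Fin (n + 1)) ℂ}
    (hc : IsChartW f d c G ξ U D) {w : Fin (n + 1) → ℕ} {N : ℕ} (hw : ∀ j, 0 < w j)
    (hge : ∀ v ∈ G.support, N ≤ MPb07157.wt w v) (hDN : 0 < De w d N) {s : ℂ}
    (hs : s * ((De w d N : ℕ) : ℂ) = -((nuc c w : ℕ) : ℂ)) {b : Polynomial ℂ}
    (hb : InPs (f : MvPowerSeries (Fin (n + 1)) ℂ) 1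
      (b.map (MvPowerSeries.C (σ := Fin (n + 1)) (R := ℂ)))) (hb0 : b.eval s ≠ 0)
    {B : Type} [CommRing B] [Algebra ℂ B]
    (δ' : Fin n → Derivation ℂ B B) {T : Fin n → B}
    {Q : Bˣ} (hQ : (Q : B) = aeval T (gT G w N)) (hT : ∀ a b, δ' a (T b) = if a = b then 1 else 0)
    (hδ' : ∀ a b x, δ' a (δ' b x) = δ' b (δ' a x)) :
    ∃ r : Fin n → B, (1 : B) =
      ∑ a, (δ' a (r a) + algebraMap ℂ B s * (((Q⁻¹ : Bˣ) : B) * δ' a Q) * r a) := by
  classical
  have hz := ResVA.im_zero hw T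
  set X' : MvPowerSeries Unit B := MvPowerSeries.X () with hX'
  have hps0 : ps hz (MvPowerSeries.X 0) = X' ^ w 0 := ps_X hz 0
  have hX0 : ∀ l, MvPowerSeries.constantCoeff (ps hz (ξ l)) = 0 :=
    fun l => by
      rw [cc_ps, hc.hξ, map_zero]
  -- the substitution
  have hθX : ∀ l, ps hX0 (MvPowerSeries.X l) = ps hz (ξ l) := ps_X hX0
  have hθf : ps hX0 (f : MvPowerSeries (Fin (n + 1)) ℂ) =
      ps hz (MvPowerSeries.subst ξ
        (f : MvPowerSeries (Fin (n + 1)) ℂ)) := by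
    have h1 : ps hX0 (f : MvPowerSeries (Fin (n + 1)) ℂ) =
        aeval (fun l => ps hz (ξ l)) f := by
      unfold ps
      rw [MvPowerSeries.coe_substAlgHom, MvPowerSeries.subst_coe]
    rw [h1, MvPowerSeries.subst_coe]
    have h2 := comp_aeval (R := ℂ) ξ (ps hz)
    exact (DFunLike.congr_fun h2 f).symm
  have hVf : ps hX0 (f : MvPowerSeries (Fin (n + 1)) ℂ) =
      MvPowerSeries.monomial (Finsupp.single () (De w d N)) 1 *
        (F1 G w N T * ps hz U) := by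
    rw [hθf, hc.hf, map_mul, map_mul, map_pow, hps0, ps_G hw T hge, ← MvPowerSeries.X_pow_eq,
      ← hX', De, pow_add, ← pow_mul, mul_comm (w 0) d]
    ring
  -- the unit
  set cU : ℂ := MvPowerSeries.constantCoeff U with hcU
  set cD : ℂ := MvPowerSeries.constantCoeff D with hcD
  have hcU0 : cU ≠ 0 := hc.hU
  have hcD0 : cD ≠ 0 := hc.hJ
  let φ₀ : Bˣ := Units.map (algebraMap ℂ B).toMonoidHom (Units.mk0 cU hcU0)
  let φ : Bˣ := Q * φ₀
  have hφ1 : (φ : B) = Q * algebraMap ℂ B cU := rfl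
  have hφ : MvPowerSeries.constantCoeff (F1 G w N T * ps hz U) = (φ : B) := by
    rw [map_mul, cc_F1 T hge, ← hQ, cc_ps, hφ1]
  have hlog : ∀ a, ((φ⁻¹ : Bˣ) : B) * δ' a φ = ((Q⁻¹ : Bˣ) : B) * δ' a Q := by
    intro a
    have h1 : ((φ⁻¹ : Bˣ) : B) = ((Q⁻¹ : Bˣ) : B) * ((φ₀⁻¹ : Bˣ) : B) := by
      have h5 : φ⁻¹ = Q⁻¹ * φ₀⁻¹ := _root_.mul_inv Q φ₀
      rw [h5, Units.val_mul]
    have h2 : ((φ₀⁻¹ : Bˣ) : B) * algebraMap ℂ B cU = 1 := Units.inv_mul φ₀
    rw [hφ1, Derivation.leibniz, Derivation.map_algebraMap, smul_zero, zero_add, smul_eq_mul, h1]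
    linear_combination (((Q⁻¹ : Bˣ) : B) * δ' a Q) * h2
  -- the Jacobian
  have hdet : (ARL.jm (fun l => ARL.rowD δ'
      ((Fin.cons (Sum.inl ()) Sum.inr : Fin (n + 1) → Unit ⊕ Fin n) l))
        fun l => ps hX0 (MvPowerSeries.X l)).det =
      MvPowerSeries.monomial (Finsupp.single () (nuc c w)) 1 *
        ((w 0 : MvPowerSeries Unit B) * ps hz D) := by
    rw [funext hθX, det_ps hz, ResVA.det_im hT, hc.hdet, map_mul, map_pow, hps0,
      ← MvPowerSeries.X_pow_eq, ← hX', nuc]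
    ring
  have hDC : ((De w d N : ℕ) : ℂ) ≠ 0 := by exact_mod_cast hDN.ne'
  have hs1 : s = -(((nuc c w : ℕ) : ℂ) / ((De w d N : ℕ) : ℂ)) := by
    rw [← neg_div, eq_div_iff hDC]
    exact hs
  obtain ⟨r, hr⟩ := ARL.residue_corner (τ := Unit) (β := Fin n)
    (Fin.cons (Sum.inl ()) Sum.inr : Fin (n + 1) → Unit ⊕ Fin n) hδ' (θ := ps hX0)
    (fun l => by rw [hθX]; exact hX0 l) hVf hφ (ν := nuc c w)
    (D := De w d N) hDN hs1 (Mon := ∅) (M := fun _ => 0) (by simp)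
    (l := fun _ => 0) hdet (fun j => by
      rw [Finsupp.single_apply, Finsupp.single_apply, if_pos (Subsingleton.elim _ _),
        if_pos (Subsingleton.elim _ _), Finset.sum_empty, add_zero]
      linear_combination hs) (j₀ := ()) (by
      rw [Finsupp.single_eq_same]; exact hDN) (by simp) hb hb0
  -- the constant coefficient
  have hw0 : (w 0 : ℂ) ≠ 0 := Nat.cast_ne_zero.2 (hw 0).ne'
  have hleft : algebraMap ℂ B ((w 0 * cD)⁻¹) *
      MvPowerSeries.constantCoeff ((w 0 : MvPowerSeries Unit B) * ps hz D :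
        MvPowerSeries Unit B) = 1 := by
    have h3 : ((w 0 : MvPowerSeries Unit B) * ps hz D : MvPowerSeries Unit B) =
        ps hz ((w 0 : MvPowerSeries (Fin (n + 1)) ℂ) * D) := by
      rw [map_mul, map_natCast]
    rw [h3, cc_ps, map_mul, map_natCast, ← hcD, ← map_mul,
      inv_mul_cancel₀ (mul_ne_zero hw0 hcD0), map_one]
  refine ⟨fun a => algebraMap ℂ B ((w 0 * cD)⁻¹) * r a, ?_⟩
  rw [← hleft, hr, Finset.mul_sum]
  refine Finset.sum_congr rfl fun a _ => ?_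
  rw [Derivation.leibniz, Derivation.map_algebraMap, smul_zero, add_zero, smul_eq_mul, hlog]
  ring

end YW

end MPb07157
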